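import Pool.Agent.MET90.Basic

/-!
Module AX: `A` is the sum of the one-variable modules `ℤ[s] L'`, `s ∈ S`.

Notation (additive): for `s ∈ S`, `θ_s` = conjugation by `s` on `A`; these commute with each other on `A`
(as `s t s⁻¹ t⁻¹ ∈ A` and `A` is abelian). For a set `L ⊆ A` let
`M_s(L) = ⟨θ_s^i l : i ∈ ℕ, l ∈ L⟩`. All are subgroups of the abelian group `A`, so `⊔` is the sum.
`X = ⨆_{s ∈ S} M_s(L)`.
(1) For finite `F ⊆ A` there is a finite `F' ⊆ A` with `M_s(F) ≤ M_s(L) ⊔ ⟨F'⟩`: for `b ∈ F` take `m` from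
`Monic A s L`; then by induction `θ_s^i b ∈ ⟨θ_s^j b : j < m⟩ ⊔ M_s(L)` for all `i` (apply `θ_s` to the
relation); `F' = {θ_s^j b : j < m_b, b ∈ F}`.
(2) For `s ∈ S` there is a finite `F` with `θ_s X ≤ X ⊔ ⟨F⟩`: `θ_s M_t(L) = M_t(θ_s L)` for `t ≠ s`, use (1);
`θ_s M_s(L) ≤ M_s(L)`.
(3) For `s ∈ S` there is a finite `F` with `θ_s^i X ≤ X ⊔ ⟨F⟩` for ALL `i`: from (2) by induction
`θ_s^i X ≤ X ⊔ ⟨θ_s^j F : j < i⟩ ≤ X ⊔ M_s(F)`, then (1) for `F`.
(4) Let `s_1, …, s_q` enumerate `S`. By induction on `k`: there is a finite `F_k` with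
`θ_{s_k}^{i_k} ⋯ θ_{s_1}^{i_1} X ≤ X ⊔ ⟨F_k⟩` for all `i_1, …, i_k ∈ ℕ`: apply `θ_{s_{k+1}}^i` to
`X ⊔ ⟨F_k⟩`, use (3) and (1) for `F_k`. (A cleaner formulation: the smallest subgroup `P_k ≥ X` closed
under `θ_{s_1}, …, θ_{s_k}` is contained in `X ⊔ ⟨F_k⟩`.)
(5) For `k = q`: the smallest `S`-invariant subgroup containing `X` is normal in `G` (`S` symmetric and
generating) and contains `L` (use `1 ∈ S`), hence is `A` by `hgen`. So `A = X ⊔ ⟨F⟩`, and `L' = L ∪ F` works:
every `a ∈ A` lies in `⨆_s M_s(L')`, i.e. in `Lam S L' m` for some `m` (`Lam` is increasing in `m` and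
`⋃_m Lam S L' m` is a subgroup).
-/

set_option autoImplicit false

namespace Pool.Agent.MET90

namespace AXAux

variable {G : Type} [Group G]

/-- conjugation -/
def cj (s : G) : G →* G := (MulAut.conj s).toMonoidHom

lemma cj_apply (s x : G) : cj s x = s * x * s⁻¹ := rfl

lemma comm_cj {S : Finset G} {A : Subgroup G} (hs : Setup S A) (s t : G) {x : G} (hx : x ∈ A) :
    s * (t * x * t⁻¹) * s⁻¹ = t * (s * x * s⁻¹) * t⁻¹ := by
  have hu : s⁻¹ * t⁻¹ * s * t ∈ A := by
    have h := hs.quot s⁻¹ t⁻¹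
    rwa [inv_inv, inv_inv] at h
  have h1 := hs.comm _ hu _ hx
  have h2 : s⁻¹ * t⁻¹ * s * t * x * (s⁻¹ * t⁻¹ * s * t)⁻¹ = x := by
    rw [h1, mul_inv_cancel_right]
  calc s * (t * x * t⁻¹) * s⁻¹
      = t * (s * (s⁻¹ * t⁻¹ * s * t * x * (s⁻¹ * t⁻¹ * s * t)⁻¹) * s⁻¹) * t⁻¹ := by group
    _ = t * (s * x * s⁻¹) * t⁻¹ := by rw [h2]

/-- the one-variable module -/
def MM (s : G) (L : Set G) : Subgroup G :=
  Subgroup.closure {x | ∃ i : ℕ, ∃ l ∈ L, x = s ^ i * l * (s ^ i)⁻¹}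

lemma mem_MM {s : G} {L : Set G} (i : ℕ) {l : G} (hl : l ∈ L) :
    s ^ i * l * (s ^ i)⁻¹ ∈ MM s L := Subgroup.subset_closure ⟨i, l, hl, rfl⟩

lemma MM_le {s : G} {L : Set G} {P : Subgroup G} (h : ∀ l ∈ L, l ∈ P)
    (hP : ∀ x ∈ P, s * x * s⁻¹ ∈ P) : MM s L ≤ P := by
  refine (Subgroup.closure_le _).2 ?_
  rintro x ⟨i, l, hl, rfl⟩
  induction i with
  | zero => simpa using h l hl
  | succ i ih =>
    have := hP _ ih
    have e : s ^ (i + 1) * l * (s ^ (i + 1))⁻¹ = s * (s ^ i * l * (s ^ i)⁻¹) * s⁻¹ := by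
      rw [pow_succ']
      group
    show s ^ (i + 1) * l * (s ^ (i + 1))⁻¹ ∈ P
    rw [e]
    exact this

lemma MM_conj (s : G) (L : Set G) : MM s L ≤ (MM s L).comap (cj s) := by
  refine (Subgroup.closure_le _).2 ?_
  rintro x ⟨i, l, hl, rfl⟩
  show s * (s ^ i * l * (s ^ i)⁻¹) * s⁻¹ ∈ MM s L
  have e : s * (s ^ i * l * (s ^ i)⁻¹) * s⁻¹ = s ^ (i + 1) * l * (s ^ (i + 1))⁻¹ := by
    rw [pow_succ']
    group
  rw [e]
  exact mem_MM _ hl

lemma conj_pow_mem {A : Subgroup G} (hA : A.Normal) (g : G) {x : G} (hx : x ∈ A) :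
    g * x * g⁻¹ ∈ A := hA.conj_mem x hx g

/-- (1) -/
lemma one_step {S : Finset G} {A : Subgroup G} (hs : Setup S A) (L : Finset G) {s : G}
    (hM : Monic A s L) (F : Finset G) (hF : (F : Set G) ⊆ A) :
    ∃ F' : Finset G, (F' : Set G) ⊆ A ∧
      MM s (F : Set G) ≤ MM s (L : Set G) ⊔ Subgroup.closure (F' : Set G) := by
  classical
  choose! m hm using hM
  refine ⟨F.biUnion fun b => (Finset.range (m b)).image fun j => s ^ j * b * (s ^ j)⁻¹, ?_, ?_⟩
  · intro x hx
    obtain ⟨b, hb, hx⟩ := Finset.mem_biUnion.1 hx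
    obtain ⟨j, _, rfl⟩ := Finset.mem_image.1 hx
    exact hs.normal.conj_mem b (hF hb) _
  · set F' : Finset G := F.biUnion fun b =>
      (Finset.range (m b)).image fun j => s ^ j * b * (s ^ j)⁻¹ with hF'
    set R : Subgroup G := MM s (L : Set G) ⊔ Subgroup.closure (F' : Set G) with hR
    have hmem : ∀ b ∈ F, ∀ j, j < m b → s ^ j * b * (s ^ j)⁻¹ ∈ R := by
      intro b hb j hj
      refine (le_sup_right : Subgroup.closure (F' : Set G) ≤ R) (Subgroup.subset_closure ?_)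
      exact Finset.mem_biUnion.2 ⟨b, hb, Finset.mem_image.2 ⟨j, Finset.mem_range.2 hj, rfl⟩⟩
    have hmon : ∀ b ∈ F, s ^ m b * b * (s ^ m b)⁻¹ ∈ R := by
      intro b hb
      refine (Subgroup.closure_le R).2 ?_ (hm b (hF hb))
      rintro x (⟨i, hi, rfl⟩ | ⟨i, l, hl, rfl⟩)
      · exact hmem b hb i hi
      · exact (le_sup_left : MM s (L : Set G) ≤ R) (mem_MM i hl)
    refine MM_le ?_ ?_
    · intro b hb
      rcases Nat.eq_zero_or_pos (m b) with h0 | h0
      · have := hmon b hb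
        rw [h0] at this
        simpa using this
      · have := hmem b hb 0 h0
        simpa using this
    · intro x hx
      have hle : R ≤ R.comap (cj s) := by
        rw [hR]
        refine sup_le ((MM_conj s _).trans (Subgroup.comap_mono le_sup_left)) ?_
        refine (Subgroup.closure_le _).2 ?_
        intro y hy
        obtain ⟨b, hb, hy⟩ := Finset.mem_biUnion.1 hy
        obtain ⟨j, hj, rfl⟩ := Finset.mem_image.1 hy
        show s * (s ^ j * b * (s ^ j)⁻¹) * s⁻¹ ∈ R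
        have e : s * (s ^ j * b * (s ^ j)⁻¹) * s⁻¹ = s ^ (j + 1) * b * (s ^ (j + 1))⁻¹ := by
          rw [pow_succ']
          group
        rw [e]
        have hj' := Finset.mem_range.1 hj
        rcases Nat.lt_or_ge (j + 1) (m b) with h1 | h1
        · exact hmem b hb _ h1
        · have h2 : j + 1 = m b := by omega
          rw [h2]
          exact hmon b hb
      exact hle hx

/-- the sum of the one-variable modules -/
def XX (S L : Finset G) : Subgroup G :=
  Subgroup.closure {x | ∃ t ∈ S, ∃ i : ℕ, ∃ l ∈ L, x = t ^ i * l * (t ^ i)⁻¹}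

lemma MM_le_XX {S L : Finset G} {t : G} (ht : t ∈ S) : MM t (L : Set G) ≤ XX S L := by
  refine (Subgroup.closure_le _).2 ?_
  rintro x ⟨i, l, hl, rfl⟩
  exact Subgroup.subset_closure ⟨t, ht, i, l, hl, rfl⟩

/-- (2) -/
lemma two_step {S : Finset G} {A : Subgroup G} (hs : Setup S A) (L : Finset G)
    (hL : (L : Set G) ⊆ A) (hM : ∀ s ∈ S, Monic A s L) (s : G) :
    ∃ F : Finset G, (F : Set G) ⊆ A ∧
      XX S L ≤ (XX S L ⊔ Subgroup.closure (F : Set G)).comap (cj s) := by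
  classical
  have hsL : ((L.image fun l => s * l * s⁻¹ : Finset G) : Set G) ⊆ A := by
    intro x hx
    obtain ⟨l, hl, rfl⟩ := Finset.mem_image.1 hx
    exact hs.normal.conj_mem l (hL hl) s
  have h1 : ∀ t ∈ S, ∃ F' : Finset G, (F' : Set G) ⊆ A ∧
      MM t ((L.image fun l => s * l * s⁻¹ : Finset G) : Set G) ≤
        MM t (L : Set G) ⊔ Subgroup.closure (F' : Set G) :=
    fun t ht => one_step hs L (hM t ht) _ hsL
  choose! f hf hf' using h1
  refine ⟨S.biUnion f, ?_, ?_⟩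
  · intro x hx
    obtain ⟨t, ht, hx⟩ := Finset.mem_biUnion.1 hx
    exact hf t ht hx
  · refine (Subgroup.closure_le _).2 ?_
    rintro x ⟨t, ht, i, l, hl, rfl⟩
    show s * (t ^ i * l * (t ^ i)⁻¹) * s⁻¹ ∈ XX S L ⊔ Subgroup.closure ((S.biUnion f : Finset G) : Set G)
    rw [comm_cj hs s (t ^ i) (hL hl)]
    have h2 : t ^ i * (s * l * s⁻¹) * (t ^ i)⁻¹ ∈
        MM t ((L.image fun l => s * l * s⁻¹ : Finset G) : Set G) :=
      mem_MM i (Finset.mem_image.2 ⟨l, hl, rfl⟩)
    refine (sup_le_sup (MM_le_XX ht) (Subgroup.closure_mono ?_)) (hf' t ht h2)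
    intro y hy
    exact Finset.mem_biUnion.2 ⟨t, ht, hy⟩

lemma XX_le {S : Finset G} {A : Subgroup G} (hs : Setup S A) {L : Finset G}
    (hL : (L : Set G) ⊆ A) : XX S L ≤ A := by
  refine (Subgroup.closure_le _).2 ?_
  rintro x ⟨t, _, i, l, hl, rfl⟩
  exact hs.normal.conj_mem l (hL hl) _

/-- (4) -/
lemma four {S : Finset G} {A : Subgroup G} (hs : Setup S A) (L : Finset G)
    (hL : (L : Set G) ⊆ A) (hM : ∀ s ∈ S, Monic A s L) (T : Finset G) (hT : T ⊆ S) :
    ∃ (P : Subgroup G) (F : Finset G), (F : Set G) ⊆ A ∧ XX S L ≤ P ∧ P ≤ A ∧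
      (∀ t ∈ T, P ≤ P.comap (cj t)) ∧ P ≤ XX S L ⊔ Subgroup.closure (F : Set G) := by
  classical
  induction T using Finset.induction_on with
  | empty =>
    refine ⟨XX S L, ∅, by simp, le_rfl, XX_le hs hL, by simp, le_sup_left⟩
  | insert s T hsT ih =>
    obtain ⟨P, F, hF, hXP, hPA, hPT, hPF⟩ := ih ((Finset.subset_insert _ _).trans hT)
    have hsS : s ∈ S := hT (Finset.mem_insert_self _ _)
    obtain ⟨F₂, hF₂, h2⟩ := two_step hs L hL hM s
    have hFF : ((F ∪ F₂ : Finset G) : Set G) ⊆ A := by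
      rw [Finset.coe_union]
      exact Set.union_subset hF hF₂
    obtain ⟨F₃, hF₃, h3⟩ := one_step hs L (hM s hsS) (F ∪ F₂) hFF
    -- the invariant subgroup which contains `P`
    have hQ : XX S L ⊔ MM s ((F ∪ F₂ : Finset G) : Set G) ≤
        (XX S L ⊔ MM s ((F ∪ F₂ : Finset G) : Set G)).comap (cj s) := by
      refine sup_le (h2.trans (Subgroup.comap_mono (sup_le_sup_left ?_ _)))
        ((MM_conj s _).trans (Subgroup.comap_mono le_sup_right))
      refine (Subgroup.closure_le _).2 ?_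
      intro x hx
      have := mem_MM (s := s) (L := ((F ∪ F₂ : Finset G) : Set G)) 0 (l := x)
        (Finset.mem_coe.2 (Finset.mem_union_right _ hx))
      simpa using this
    have hPQ : P ≤ XX S L ⊔ MM s ((F ∪ F₂ : Finset G) : Set G) := by
      refine hPF.trans (sup_le_sup_left ?_ _)
      refine (Subgroup.closure_le _).2 ?_
      intro x hx
      have := mem_MM (s := s) (L := ((F ∪ F₂ : Finset G) : Set G)) 0 (l := x)
        (Finset.mem_coe.2 (Finset.mem_union_left _ hx))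
      simpa using this
    refine ⟨MM s (P : Set G), F₃, hF₃, ?_, ?_, ?_, ?_⟩
    · refine hXP.trans ?_
      intro x hx
      have := mem_MM (s := s) (L := (P : Set G)) 0 (l := x) hx
      simpa using this
    · exact MM_le (fun l hl => hPA hl) (fun x hx => hs.normal.conj_mem x hx s)
    · intro t ht
      rcases Finset.mem_insert.1 ht with rfl | ht
      · exact MM_conj t _
      · refine (Subgroup.closure_le _).2 ?_
        rintro x ⟨i, l, hl, rfl⟩
        show t * (s ^ i * l * (s ^ i)⁻¹) * t⁻¹ ∈ MM s (P : Set G)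
        rw [comm_cj hs t (s ^ i) (hPA hl)]
        exact mem_MM i (hPT t ht hl)
    · refine (MM_le (fun l hl => hPQ hl) (fun x hx => hQ hx)).trans ?_
      exact sup_le le_sup_left (h3.trans (sup_le_sup_right (MM_le_XX hsS) _))

end AXAux

open AXAux in
theorem exists_lam {G : Type} [Group G] {S : Finset G} {A : Subgroup G} (hs : Setup S A)
    (L : Finset G) (hL : (L : Set G) ⊆ A) (hM : ∀ s ∈ S, Monic A s L)
    (hgen : ∀ a ∈ A, a ∈ Subgroup.closure {x | ∃ g : G, ∃ y ∈ L, x = g * y * g⁻¹}) :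
    ∃ L' : Finset G, L ⊆ L' ∧ (L' : Set G) ⊆ A ∧ ∀ a ∈ A, ∃ m : ℕ, a ∈ Lam S L' m := by
  classical
  obtain ⟨P, F, hF, hXP, hPA, hPS, hPF⟩ := four hs L hL hM S subset_rfl
  refine ⟨L ∪ F, Finset.subset_union_left, ?_, ?_⟩
  · rw [Finset.coe_union]
    exact Set.union_subset hL hF
  · intro a ha
    -- `P` is normal
    have hnorm : ∀ g : G, ∀ x ∈ P, g * x * g⁻¹ ∈ P := by
      have hg : ∀ g ∈ Subgroup.closure (S : Set G), ∀ x ∈ P, g * x * g⁻¹ ∈ P := by
        intro g hg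
        rw [← Subgroup.mem_toSubmonoid, Subgroup.closure_toSubmonoid] at hg
        refine Submonoid.closure_induction (motive := fun g _ => ∀ x ∈ P, g * x * g⁻¹ ∈ P)
          ?_ ?_ ?_ hg
        · rintro s (hs' | hs') x hx
          · exact hPS s hs' hx
          · have h1 : s ∈ S := by
              have := hs.symm s⁻¹ hs'
              rwa [inv_inv] at this
            exact hPS s h1 hx
        · intro x hx
          simpa using hx
        · intro g h _ _ hg hh x hx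
          have e : g * h * x * (g * h)⁻¹ = g * (h * x * h⁻¹) * g⁻¹ := by group
          rw [e]
          exact hg _ (hh x hx)
      intro g
      exact hg g (by rw [hs.gen]; trivial)
    have haP : a ∈ P := by
      refine (Subgroup.closure_le P).2 ?_ (hgen a ha)
      rintro x ⟨g, y, hy, rfl⟩
      refine hnorm g y (hXP ?_)
      exact Subgroup.subset_closure ⟨1, hs.one_mem, 0, y, hy, by simp⟩
    have hmono : Monotone (Lam S (L ∪ F)) := by
      intro m n hmn
      refine Subgroup.closure_mono ?_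
      rintro x ⟨s, hs', i, hi, l, hl, rfl⟩
      exact ⟨s, hs', i, hi.trans hmn, l, hl, rfl⟩
    have hle : XX S L ⊔ Subgroup.closure (F : Set G) ≤ ⨆ m, Lam S (L ∪ F) m := by
      refine sup_le ((Subgroup.closure_le _).2 ?_) ((Subgroup.closure_le _).2 ?_)
      · rintro x ⟨t, ht, i, l, hl, rfl⟩
        exact (le_iSup (fun m => Lam S (L ∪ F) m) i) (Subgroup.subset_closure
          ⟨t, ht, i, le_rfl, l, Finset.mem_union_left _ hl, rfl⟩)
      · intro x hx
        exact (le_iSup (fun m => Lam S (L ∪ F) m) 0) (Subgroup.subset_closure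
          ⟨1, hs.one_mem, 0, le_rfl, x, Finset.mem_union_right _ hx, by simp⟩)
    exact (Subgroup.mem_iSup_of_directed hmono.directed_le).1 (hle (hPF haP))

end Pool.Agent.MET90
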