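import Pool.Agent.MET90.Defs
import Pool.Agent.AN90.Word

set_option autoImplicit false

namespace Pool.Agent.MET90

section WB

variable {G : Type} [Group G]

lemma one_mem_WB (S : Set G) (n : ℕ) : (1 : G) ∈ WB S n := ⟨[], by simp, by simp, by simp⟩

lemma WB_mono (S : Set G) {m n : ℕ} (h : m ≤ n) : WB S m ⊆ WB S n := by
  rintro g ⟨l, h1, h2, h3⟩
  exact ⟨l, h1.trans h, h2, h3⟩

lemma WB_subset {S T : Set G} (h : S ⊆ T) (n : ℕ) : WB S n ⊆ WB T n := by
  rintro g ⟨l, h1, h2, h3⟩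
  exact ⟨l, h1, fun y hy => (h2 y hy).imp (fun h' => h h') (fun h' => h h'), h3⟩

lemma mul_mem_WB {S : Set G} {m n : ℕ} {g h : G} (hg : g ∈ WB S m) (hh : h ∈ WB S n) :
    g * h ∈ WB S (m + n) := by
  obtain ⟨l, h1, h2, h3⟩ := hg
  obtain ⟨l', h1', h2', h3'⟩ := hh
  refine ⟨l ++ l', by simp; omega, ?_, by simp [h3, h3']⟩
  intro y hy
  rcases List.mem_append.mp hy with hy | hy
  · exact h2 y hy
  · exact h2' y hy

lemma inv_mem_WB {S : Set G} {n : ℕ} {g : G} (hg : g ∈ WB S n) : g⁻¹ ∈ WB S n := by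
  obtain ⟨l, h1, h2, h3⟩ := hg
  refine ⟨(l.map (fun x => x⁻¹)).reverse, by simpa using h1, ?_, by rw [← h3, List.prod_inv_reverse]⟩
  intro y hy
  rw [List.mem_reverse, List.mem_map] at hy
  obtain ⟨x, hx, rfl⟩ := hy
  rcases h2 x hx with h | h
  · right; simpa using h
  · left; exact h

lemma WB_isBalls (S : Set G) : IsBalls (WB S) :=
  ⟨one_mem_WB S 0, fun h => WB_mono S h, fun h => inv_mem_WB h, fun h h' => mul_mem_WB h h'⟩

lemma mem_WB_one {S : Set G} {s : G} (hs : s ∈ S) : s ∈ WB S 1 :=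
  ⟨[s], by simp, by simpa using Or.inl hs, by simp⟩

lemma inv_mem_WB_one {S : Set G} {s : G} (hs : s⁻¹ ∈ S) : s ∈ WB S 1 :=
  ⟨[s], by simp, by simpa using Or.inr hs, by simp⟩

lemma pow_mem_WB {S : Set G} {n : ℕ} {g : G} (hg : g ∈ WB S n) (k : ℕ) : g ^ k ∈ WB S (k * n) := by
  induction k with
  | zero => simpa using one_mem_WB S _
  | succ k ih =>
    rw [pow_succ, Nat.succ_mul]
    exact mul_mem_WB ih hg

lemma conj_mem_WB {S : Set G} {m n : ℕ} {g a : G} (hg : g ∈ WB S m) (ha : a ∈ WB S n) :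
    g * a * g⁻¹ ∈ WB S (2 * m + n) := by
  have := mul_mem_WB (mul_mem_WB hg ha) (inv_mem_WB hg)
  exact WB_mono S (by omega) this

lemma list_prod_mem_WB {S : Set G} {n : ℕ} (l : List G) (h : ∀ x ∈ l, x ∈ WB S n) :
    l.prod ∈ WB S (l.length * n) := by
  induction l with
  | nil => simpa using one_mem_WB S _
  | cons a l ih =>
    rw [List.prod_cons, List.length_cons, Nat.succ_mul, Nat.add_comm]
    exact mul_mem_WB (h a List.mem_cons_self) (ih (fun x hx => h x (List.mem_cons_of_mem _ hx)))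

lemma WB_WB {S T : Set G} {k : ℕ} (h : T ⊆ WB S k) (n : ℕ) : WB T n ⊆ WB S (n * k) := by
  rintro g ⟨l, h1, h2, rfl⟩
  refine WB_mono S (Nat.mul_le_mul_right k h1) (list_prod_mem_WB l (fun x hx => ?_))
  rcases h2 x hx with h' | h'
  · exact h h'
  · simpa using inv_mem_WB (h h')

lemma WB_subset_closure (S : Set G) (n : ℕ) : WB S n ⊆ Subgroup.closure S := by
  rintro g ⟨l, -, h2, rfl⟩
  refine Subgroup.list_prod_mem _ (fun x hx => ?_)
  rcases h2 x hx with h' | h'
  · exact Subgroup.subset_closure h'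
  · simpa using (Subgroup.closure S).inv_mem (Subgroup.subset_closure h')

lemma exists_mem_WB {S : Set G} {g : G} (hg : g ∈ Subgroup.closure S) : ∃ n, g ∈ WB S n := by
  rw [← Subgroup.mem_toSubmonoid, Subgroup.closure_toSubmonoid] at hg
  obtain ⟨l, hl, hp⟩ := Submonoid.exists_list_of_mem_closure hg
  exact ⟨l.length, l, le_rfl, fun y hy => by simpa using hl y hy, hp⟩

/-- every finite set lies in a ball -/
lemma exists_WB_of_finite {S : Set G} (hS : Subgroup.closure S = ⊤) (X : Set G) (hX : X.Finite) :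
    ∃ n, X ⊆ WB S n := by
  induction X, hX using Set.Finite.induction_on with
  | empty => exact ⟨0, by simp⟩
  | @insert a X _ _ ih =>
    obtain ⟨n, hn⟩ := ih
    obtain ⟨m, hm⟩ := exists_mem_WB (S := S) (g := a) (by rw [hS]; trivial)
    refine ⟨max m n, Set.insert_subset (WB_mono S (le_max_left _ _) hm)
      (hn.trans (WB_mono S (le_max_right _ _)))⟩

lemma WB_succ (S : Set G) (n : ℕ) {g : G} (hg : g ∈ WB S (n + 1)) :
    ∃ h ∈ WB S n, ∃ s : G, (s ∈ S ∨ s⁻¹ ∈ S ∨ s = 1) ∧ g = h * s := by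
  obtain ⟨l, h1, h2, rfl⟩ := hg
  rcases List.eq_nil_or_concat l with rfl | ⟨l', s, rfl⟩
  · exact ⟨1, one_mem_WB S n, 1, Or.inr (Or.inr rfl), by simp⟩
  · refine ⟨l'.prod, ⟨l', by simpa using h1, fun y hy => h2 y (by simp [hy]), rfl⟩, s, ?_, by simp⟩
    rcases h2 s (by simp) with h | h
    · exact Or.inl h
    · exact Or.inr (Or.inl h)

lemma WB_finite {S : Set G} (hS : S.Finite) (n : ℕ) : (WB S n).Finite := by
  induction n with
  | zero =>
    refine (Set.finite_singleton (1 : G)).subset ?_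
    rintro g ⟨l, h1, -, rfl⟩
    have : l = [] := List.eq_nil_of_length_eq_zero (by omega)
    simp [this]
  | succ n ih =>
    have hT : ({s : G | s ∈ S ∨ s⁻¹ ∈ S ∨ s = 1}).Finite := by
      have : ({s : G | s ∈ S ∨ s⁻¹ ∈ S ∨ s = 1}) = S ∪ ((fun s => s⁻¹) ⁻¹' S ∪ {1}) := by
        ext s
        simp only [Set.mem_setOf_eq, Set.mem_union, Set.mem_preimage, Set.mem_singleton_iff]
      rw [this]
      exact hS.union ((hS.preimage inv_injective.injOn).union (Set.finite_singleton _))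
    refine (Set.Finite.image2 (fun h s => h * s) ih hT).subset ?_
    intro g hg
    obtain ⟨h, hh, s, hs, rfl⟩ := WB_succ S n hg
    exact ⟨h, hh, s, hs, rfl⟩

lemma image_WB {G' : Type} [Group G'] (f : G →* G') (S : Set G) (n : ℕ) :
    f '' WB S n = WB (f '' S) n := by
  apply Set.Subset.antisymm
  · rintro _ ⟨g, ⟨l, h1, h2, rfl⟩, rfl⟩
    refine ⟨l.map f, by simpa using h1, ?_, by rw [map_list_prod]⟩
    intro y hy
    rw [List.mem_map] at hy
    obtain ⟨x, hx, rfl⟩ := hy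
    rcases h2 x hx with h | h
    · exact Or.inl ⟨x, h, rfl⟩
    · exact Or.inr ⟨x⁻¹, h, by simp⟩
  · rintro _ ⟨l, h1, h2, rfl⟩
    induction l generalizing n with
    | nil => exact ⟨1, one_mem_WB S n, by simp⟩
    | cons a l ih =>
      rw [List.length_cons] at h1
      obtain ⟨m, rfl⟩ : ∃ m, n = 1 + m := ⟨n - 1, by omega⟩
      obtain ⟨h, hh, hh2⟩ := ih m (by omega) (fun y hy => h2 y (List.mem_cons_of_mem _ hy))
      rw [List.prod_cons]
      rcases h2 a List.mem_cons_self with ⟨x, hx, rfl⟩ | ⟨x, hx, hxa⟩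
      · exact ⟨x * h, mul_mem_WB (mem_WB_one hx) hh, by rw [map_mul, hh2]⟩
      · refine ⟨x⁻¹ * h, mul_mem_WB (inv_mem_WB (mem_WB_one hx)) hh, ?_⟩
        rw [map_mul, hh2, map_inv, hxa, inv_inv]

/-- for a symmetric set containing `1` balls are products of exactly `n` letters -/
lemma WB_symm {S : Set G} (hsymm : ∀ s ∈ S, s⁻¹ ∈ S) {n : ℕ} {g : G} (hg : g ∈ WB S n) :
    ∃ l : List G, l.length ≤ n ∧ (∀ y ∈ l, y ∈ S) ∧ l.prod = g := by
  obtain ⟨l, h1, h2, h3⟩ := hg
  refine ⟨l, h1, fun y hy => ?_, h3⟩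
  rcases h2 y hy with h | h
  · exact h
  · simpa using hsymm _ h

/-- adding `1` and the inverses does not change the balls -/
lemma WB_symmetrize [DecidableEq G] (S : Finset G) (n : ℕ) :
    WB ((insert 1 (S ∪ S.image (fun s => s⁻¹)) : Finset G) : Set G) n = WB (S : Set G) n := by
  apply Set.Subset.antisymm
  · have h : ((insert 1 (S ∪ S.image (fun s => s⁻¹)) : Finset G) : Set G) ⊆ WB (S : Set G) 1 := by
      intro s hs
      simp only [Finset.coe_insert, Finset.coe_union, Finset.coe_image, Set.mem_insert_iff,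
        Set.mem_union, Finset.mem_coe, Set.mem_image] at hs
      rcases hs with rfl | hs | ⟨x, hx, rfl⟩
      · exact one_mem_WB _ _
      · exact mem_WB_one hs
      · exact inv_mem_WB (mem_WB_one hx)
    have := WB_WB h n
    rwa [Nat.mul_one] at this
  · refine WB_subset ?_ n
    intro s hs
    simp only [Finset.coe_insert, Finset.coe_union, Finset.coe_image, Set.mem_insert_iff,
        Set.mem_union, Finset.mem_coe, Set.mem_image]
    exact Or.inr (Or.inl hs)

end WB

section FANbasic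

/-- labels in an arbitrary type -/
lemma FAN_of_labels {G : Type} [Group G] (B : ℕ → Set G) (d C : ℕ)
    (h : ∀ r : ℕ, 1 ≤ r → ∃ (α : Type) (c : G → Fin (d + 1)) (k : G → α), ∀ x y : G, c x = c y →
      (k x = k y → x⁻¹ * y ∈ B (C * r)) ∧ (k x ≠ k y → x⁻¹ * y ∉ B r)) : FAN B := by
  refine ⟨d, C, fun r hr => ?_⟩
  obtain ⟨α, c, k, hk⟩ := h r hr
  have hrep : ∀ x : G, ∃ y : G, k y = k x := fun x => ⟨x, rfl⟩
  classical
  let K : α → G := fun a => if h : ∃ y : G, k y = a then h.choose else 1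
  have hK : ∀ x : G, k (K (k x)) = k x := by
    intro x
    have h : ∃ y : G, k y = k x := ⟨x, rfl⟩
    have h' : K (k x) = h.choose := dif_pos h
    rw [h']
    exact h.choose_spec
  refine ⟨c, fun x => K (k x), fun x y hxy => ⟨fun h1 => ?_, fun h1 => ?_⟩⟩
  · refine (hk x y hxy).1 ?_
    have h5 : K (k x) = K (k y) := h1
    have := congrArg k h5
    rwa [hK, hK] at this
  · refine (hk x y hxy).2 (fun h2 => h1 ?_)
    simp only [h2]

/-- colours in an arbitrary finite type -/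
lemma FAN_of_fintype {G : Type} [Group G] (B : ℕ → Set G) (D C : ℕ)
    (h : ∀ r : ℕ, 1 ≤ r → ∃ (α β : Type) (_ : Fintype β) (c : G → β) (k : G → α),
      Fintype.card β ≤ D ∧ ∀ x y : G, c x = c y →
      (k x = k y → x⁻¹ * y ∈ B (C * r)) ∧ (k x ≠ k y → x⁻¹ * y ∉ B r)) : FAN B := by
  refine FAN_of_labels B D C (fun r hr => ?_)
  obtain ⟨α, β, hβ, c, k, hcard, hk⟩ := h r hr
  obtain ⟨f⟩ : Nonempty (β ↪ Fin (D + 1)) :=
    Function.Embedding.nonempty_of_card_le (by simpa using Nat.le_succ_of_le hcard)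
  exact ⟨α, fun x => f (c x), k, fun x y hxy => hk x y (f.injective hxy)⟩

/-- quasi-isometric maps -/
lemma FAN_of_map {G G' : Type} [Group G] [Group G'] (B : ℕ → Set G) (B' : ℕ → Set G')
    (hB : IsBalls B) (hB' : IsBalls B') (f : G → G') (K : ℕ)
    (h1 : ∀ x y n, x⁻¹ * y ∈ B n → (f x)⁻¹ * f y ∈ B' (K * (n + 1)))
    (h2 : ∀ x y n, (f x)⁻¹ * f y ∈ B' n → x⁻¹ * y ∈ B (K * (n + 1))) (h : FAN B') : FAN B := by
  obtain ⟨d, C, hC⟩ := h
  refine FAN_of_labels B d (K * (C * (2 * K + 1) + 1)) (fun r hr => ?_)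
  obtain ⟨c, k, hk⟩ := hC ((2 * K + 1) * r) (by nlinarith)
  refine ⟨G', fun x => c (f x), fun x => k (f x), fun x y hxy => ⟨fun h3 => ?_, fun h3 h4 => ?_⟩⟩
  · refine hB.mono ?_ (h2 x y _ ((hk _ _ hxy).1 h3))
    calc K * (C * ((2 * K + 1) * r) + 1) ≤ K * (C * ((2 * K + 1) * r) + r) := by gcongr
      _ = K * (C * (2 * K + 1) + 1) * r := by ring
  · refine (hk _ _ hxy).2 h3 (hB'.mono ?_ (h1 x y r h4))
    nlinarith

end FANbasic

section Translate

open Classical

variable {G : Type} [Group G]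

lemma dist_le_iff_mem_WB (S : Finset G) (hS : Subgroup.closure (S : Set G) = ⊤) (x y : G) (n : ℕ) :
    (SimpleGraph.fromRel (fun a b : G => a⁻¹ * b ∈ S)).dist x y ≤ n ↔
      x⁻¹ * y ∈ WB (S : Set G) n := by
  constructor
  · intro h
    obtain ⟨p, hp⟩ := (AN90.reachable_all S hS x y).exists_walk_length_eq_dist
    have key : ∀ {x y : G} (p : (AN90.cay S).Walk x y), x⁻¹ * y ∈ WB (S : Set G) p.length := by
      intro x y p
      induction p with
      | nil => simpa using one_mem_WB (S : Set G) 0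
      | @cons u v w h q ih =>
        rw [SimpleGraph.fromRel_adj] at h
        rw [SimpleGraph.Walk.length_cons, Nat.add_comm]
        have h3 : u⁻¹ * w = (u⁻¹ * v) * (v⁻¹ * w) := by group
        rw [h3]
        refine mul_mem_WB ?_ ih
        rcases h.2 with h2 | h2
        · exact mem_WB_one h2
        · refine inv_mem_WB_one ?_
          simpa using h2
    exact WB_mono _ (hp.trans_le h) (key p)
  · rintro ⟨l, h1, h2, h3⟩
    have := AN90.dist_list_le S l (fun y hy => by simpa using h2 y hy) x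
    rw [h3, mul_inv_cancel_left] at this
    exact this.trans h1

/-- translation to the conclusion of the frozen statement -/
lemma frozen_of_FAN (S : Finset G) (hS : Subgroup.closure (S : Set G) = ⊤)
    (h : FAN (WB (S : Set G))) :
    ∃ (d C : ℕ), ∀ r : ℕ, 1 ≤ r →
        ∃ (c : G → Fin (d + 1)) (k : G → G), ∀ x y : G, c x = c y →
          (k x = k y → (SimpleGraph.fromRel (fun a b : G => a⁻¹ * b ∈ S)).dist x y ≤ C * r) ∧
          (k x ≠ k y → r < (SimpleGraph.fromRel (fun a b : G => a⁻¹ * b ∈ S)).dist x y) := by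
  obtain ⟨d, C, h⟩ := h
  refine ⟨d, C, fun r hr => ?_⟩
  obtain ⟨c, k, hk⟩ := h r hr
  refine ⟨c, k, fun x y hxy => ⟨fun h1 => ?_, fun h1 => ?_⟩⟩
  · rw [dist_le_iff_mem_WB S hS]
    exact (hk x y hxy).1 h1
  · rw [← not_le, dist_le_iff_mem_WB S hS]
    exact (hk x y hxy).2 h1

end Translate

end Pool.Agent.MET90
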