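import Pool.Agent.MET90.Basic

/-!
Module BOX: box colouring of a subgroup with coordinates comparable to the `c`-th power of the length.
-/

set_option autoImplicit false

namespace Pool.Agent.MET90

theorem box {G : Type} [Group G] (B : ℕ → Set G) (hB : IsBalls B) (N : Subgroup G) (t : ℕ)
    (ι : G → Fin t → ℝ) (hι : ∀ a ∈ N, ∀ b ∈ N, ι (a * b) = ι a + ι b) (K c : ℕ) (hc : 1 ≤ c)
    (h1 : ∀ n : ℕ, 1 ≤ n → ∀ z ∈ N, z ∈ B n → ‖ι z‖ ≤ K * (n : ℝ) ^ c)
    (h2 : ∀ n : ℕ, 1 ≤ n → ∀ z ∈ N, ‖ι z‖ ≤ (n : ℝ) ^ c → z ∈ B (K * n)) :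
    FAN (fun n => ({x : N | (x : G) ∈ B n} : Set N)) := by
  classical
  refine FAN_of_fintype _ (2 ^ t) (K * (K + 1)) (fun r hr => ?_)
  set ℓ : ℝ := (K + 1) * (r : ℝ) ^ c with hℓ
  have hr' : (1 : ℝ) ≤ r := by exact_mod_cast hr
  have hrc : (1 : ℝ) ≤ (r : ℝ) ^ c := one_le_pow₀ hr'
  have hℓ0 : 0 < ℓ := by positivity
  have hdiff : ∀ x y : N, ι ((x⁻¹ * y : N) : G) = ι y - ι x := by
    intro x y
    have h := hι x x.2 _ (x⁻¹ * y : N).2
    have e : (x : G) * ((x⁻¹ * y : N) : G) = y := by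
      push_cast
      group
    rw [e] at h
    rw [h]
    abel
  let z : N → Fin t → ℤ := fun x i => ⌊ι x i / ℓ⌋
  refine ⟨Fin t → ℤ, Fin t → Bool, inferInstance, fun x i => decide (z x i % 2 = 0), z, by simp, ?_⟩
  intro x y hcol
  constructor
  · intro hz
    have hnorm : ‖ι ((x⁻¹ * y : N) : G)‖ ≤ ((((K + 1) * r : ℕ)) : ℝ) ^ c := by
      have h3 : ‖ι ((x⁻¹ * y : N) : G)‖ ≤ ℓ := by
        rw [pi_norm_le_iff_of_nonneg hℓ0.le]
        intro i
        rw [hdiff, Pi.sub_apply, Real.norm_eq_abs]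
        have hzi : ⌊ι x i / ℓ⌋ = ⌊ι y i / ℓ⌋ := congrFun hz i
        have h4 : |ι x i / ℓ - ι y i / ℓ| < 1 := Int.abs_sub_lt_one_of_floor_eq_floor hzi
        rw [← sub_div, abs_div, abs_of_pos hℓ0, div_lt_one hℓ0, abs_sub_comm] at h4
        exact h4.le
      refine h3.trans ?_
      rw [hℓ]
      push_cast
      rw [mul_pow]
      have h5 : ((K : ℝ) + 1) ≤ ((K : ℝ) + 1) ^ c := by
        refine le_self_pow₀ ?_ (by omega)
        have : (0 : ℝ) ≤ K := Nat.cast_nonneg K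
        linarith
      gcongr
    have h6 := h2 ((K + 1) * r) (by nlinarith) _ (x⁻¹ * y : N).2 hnorm
    change ((x⁻¹ * y : N) : G) ∈ B (K * (K + 1) * r)
    rwa [mul_assoc]
  · intro hz hxy
    apply hz
    funext i
    by_contra hne
    have hxyB : ((x⁻¹ * y : N) : G) ∈ B r := hxy
    have h3 := h1 r hr _ (x⁻¹ * y : N).2 hxyB
    have h4 : |ι y i - ι x i| ≤ K * (r : ℝ) ^ c := by
      have h5 := (norm_le_pi_norm (ι ((x⁻¹ * y : N) : G)) i).trans h3
      rwa [hdiff, Pi.sub_apply, Real.norm_eq_abs] at h5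
    have hpar : (z x i % 2 = 0) ↔ (z y i % 2 = 0) := by
      have := congrFun hcol i
      simpa using this
    have h6 : |z x i - z y i| ≥ 2 := by
      rcases Int.emod_two_eq_zero_or_one (z x i) with h | h <;>
        rcases Int.emod_two_eq_zero_or_one (z y i) with h' | h' <;>
        rw [ge_iff_le, le_abs] <;> omega
    -- the real distance is more than one cell
    have h7 : |ι x i / ℓ - ι y i / ℓ| < 1 := by
      rw [← sub_div, abs_div, abs_of_pos hℓ0, div_lt_one hℓ0, abs_sub_comm]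
      refine lt_of_le_of_lt h4 ?_
      rw [hℓ]
      nlinarith
    have h8 := Int.floor_le (ι x i / ℓ)
    have h9 := Int.lt_floor_add_one (ι x i / ℓ)
    have h10 := Int.floor_le (ι y i / ℓ)
    have h11 := Int.lt_floor_add_one (ι y i / ℓ)
    rw [abs_lt] at h7
    have h12 : |((z x i : ℤ) : ℝ) - (z y i : ℤ)| < 2 := by
      rw [abs_lt]
      constructor
      · change -2 < ((⌊ι x i / ℓ⌋ : ℤ) : ℝ) - (⌊ι y i / ℓ⌋ : ℤ)
        linarith [h7.1]
      · change ((⌊ι x i / ℓ⌋ : ℤ) : ℝ) - (⌊ι y i / ℓ⌋ : ℤ) < 2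
        linarith [h7.2]
    have h13 : |z x i - z y i| < 2 := by exact_mod_cast h12
    omega

end Pool.Agent.MET90
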