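import Mathlib

/-!
Module CHAIN: the chain lemma (entropy).

Statement: `g_0, …, g_{D-1}` pairwise commuting, `g_j ∉ ⟨g_i : i < j⟩`, `F` finite. Then
`∑_j |{x ∈ F : x g_j ∈ F}| * log 2 ≤ 2 |F| log |F|`.

Proof. Induction on `D`, for all finite `F`. Let `K = ⟨g_i : i < D⟩`, split `F` into its parts `F_q` in the
left cosets `q = x K`. For `i < D`, `x` and `x g_i` lie in the same left coset, so
`a_i(F) = ∑_q a_i(F_q)` and the induction hypothesis gives
`∑_{i<D} a_i(F) log 2 ≤ 2 ∑_q |F_q| log |F_q|`. For the last element `g = g_D ∉ K`: right multiplication by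
`g` induces a bijection `q ↦ q g` of the left cosets (as `g` commutes with `K`), `q g ≠ q`, and
`a_D(F) ≤ ∑_q min(|F_q|, |F_{qg}|)`. With `N = |F| ≥ a + b`: `min(a,b) log 2 ≤ a log(N/a) + b log(N/b)`
(if `a ≤ b` then `N ≥ 2a`, so already the first term suffices). Summing over `q`,
`a_D(F) log 2 ≤ 2 ∑_q |F_q| (log N - log |F_q|)`. Adding up gives `2 N log N`.
(In Lean it may be easier to work with a function `q : G → G ⧸ K` and sums over `F`:
`∑_q |F_q| log|F_q| = ∑_{x ∈ F} log |F_{q(x)}|`, and
`a_D(F) log 2 ≤ ∑_{x∈F} (log N - log|F_{q(x)}|) + ∑_{x ∈ F} (log N - log |F_{q(x)}|)`: every `x ∈ F` with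
`x g ∈ F` satisfies `|F_{q(x)}| ≤ N/2` or `|F_{q(xg)}| ≤ N/2`; charge it to `x` or to `x g`.)
-/

set_option autoImplicit false
open Classical

namespace Pool.Agent.MET90

theorem chain_lemma {G : Type} [Group G] (D : ℕ) (g : Fin D → G)
    (hcomm : ∀ i j, g i * g j = g j * g i)
    (hind : ∀ j, g j ∉ Subgroup.closure (g '' {i | i < j})) (F : Finset G) :
    (∑ j, ((F.filter (fun x => x * g j ∈ F)).card : ℝ)) * Real.log 2 ≤
      2 * F.card * Real.log F.card := by
  induction D generalizing F with
  | zero =>
    simp only [Finset.univ_eq_empty, Finset.sum_empty, zero_mul]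
    have h1 : (0 : ℝ) ≤ F.card := Nat.cast_nonneg _
    have h2 := Real.log_natCast_nonneg F.card
    positivity
  | succ D ih =>
    rw [Fin.sum_univ_castSucc]
    set g' : Fin D → G := fun i => g (Fin.castSucc i) with hg'
    set K := Subgroup.closure (Set.range g') with hK
    set y := g (Fin.last D) with hy
    have hyK : y ∉ K := by
      intro h
      apply hind (Fin.last D)
      refine Subgroup.closure_mono ?_ h
      rintro _ ⟨i, rfl⟩
      exact ⟨Fin.castSucc i, Fin.castSucc_lt_last i, rfl⟩
    have ih' := fun F' : Finset G => ih g' (fun i j => hcomm _ _) (fun j h => by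
      apply hind (Fin.castSucc j)
      refine Subgroup.closure_mono ?_ h
      rintro _ ⟨i, hi, rfl⟩
      exact ⟨Fin.castSucc i, Fin.castSucc_lt_castSucc_iff.2 hi, rfl⟩) F'
    let q : G → G ⧸ K := fun x => (x : G ⧸ K)
    have hqi : ∀ x i, q (x * g' i) = q x := by
      intro x i
      refine (QuotientGroup.eq.2 ?_).symm
      rw [inv_mul_cancel_left]
      exact Subgroup.subset_closure ⟨i, rfl⟩
    have hqy : ∀ x, q x ≠ q (x * y) := by
      intro x h
      apply hyK
      have := QuotientGroup.eq.1 h
      rwa [inv_mul_cancel_left] at this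
    set C := F.image q with hC
    let P : G ⧸ K → Finset G := fun c => F.filter fun x => q x = c
    -- the first `D` elements
    have hsplit : ∀ i, ((F.filter (fun x => x * g' i ∈ F)).card : ℝ) =
        ∑ c ∈ C, (((P c).filter (fun x => x * g' i ∈ P c)).card : ℝ) := by
      intro i
      rw [Finset.card_eq_sum_card_fiberwise (f := q) (t := C)]
      · rw [Nat.cast_sum]
        refine Finset.sum_congr rfl fun c _ => ?_
        congr 2
        ext x
        simp only [P, Finset.mem_filter, hqi]
        tauto
      · intro x hx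
        exact Finset.mem_image_of_mem q (Finset.mem_filter.1 hx).1
    have h1 : (∑ i, ((F.filter (fun x => x * g' i ∈ F)).card : ℝ)) * Real.log 2 ≤
        ∑ c ∈ C, 2 * (P c).card * Real.log (P c).card := by
      rw [Finset.sum_congr rfl fun i _ => hsplit i, Finset.sum_comm, Finset.sum_mul]
      exact Finset.sum_le_sum fun c _ => ih' (P c)
    -- sums over `F`
    set N := F.card with hN
    let L : G → ℝ := fun x => Real.log N - Real.log (P (q x)).card
    have hPle : ∀ c, (P c).card ≤ N := fun c => Finset.card_le_card (Finset.filter_subset _ _)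
    have hPpos : ∀ x ∈ F, 0 < (P (q x)).card := by
      intro x hx
      exact Finset.card_pos.2 ⟨x, Finset.mem_filter.2 ⟨hx, rfl⟩⟩
    have hL0 : ∀ x ∈ F, 0 ≤ L x := by
      intro x hx
      have h2 : (0 : ℝ) < (P (q x)).card := Nat.cast_pos.2 (hPpos x hx)
      have h3 : ((P (q x)).card : ℝ) ≤ N := Nat.cast_le.2 (hPle _)
      have := Real.log_le_log h2 h3
      show 0 ≤ Real.log N - Real.log (P (q x)).card
      linarith
    have hLbig : ∀ x ∈ F, 2 * (P (q x)).card ≤ N → Real.log 2 ≤ L x := by
      intro x hx hle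
      have h2 : (0 : ℝ) < (P (q x)).card := Nat.cast_pos.2 (hPpos x hx)
      have h3 : (2 : ℝ) * (P (q x)).card ≤ N := by exact_mod_cast hle
      have h4 := Real.log_le_log (by positivity) h3
      rw [Real.log_mul two_ne_zero h2.ne'] at h4
      show Real.log 2 ≤ Real.log N - Real.log (P (q x)).card
      linarith
    have hkey : ∀ x ∈ F.filter (fun x => x * y ∈ F), Real.log 2 ≤ L x + L (x * y) := by
      intro x hx
      obtain ⟨hx1, hx2⟩ := Finset.mem_filter.1 hx
      have hd : Disjoint (P (q x)) (P (q (x * y))) := by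
        rw [Finset.disjoint_left]
        intro z hz hz'
        exact hqy x ((Finset.mem_filter.1 hz).2.symm.trans (Finset.mem_filter.1 hz').2)
      have hle : (P (q x)).card + (P (q (x * y))).card ≤ N := by
        rw [← Finset.card_union_of_disjoint hd]
        exact Finset.card_le_card (Finset.union_subset (Finset.filter_subset _ _)
          (Finset.filter_subset _ _))
      have h5 := hL0 x hx1
      have h6 := hL0 _ hx2
      rcases le_total (P (q x)).card (P (q (x * y))).card with h | h
      · have := hLbig x hx1 (by omega)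
        linarith
      · have := hLbig _ hx2 (by omega)
        linarith
    have h2 : ((F.filter (fun x => x * y ∈ F)).card : ℝ) * Real.log 2 ≤ 2 * ∑ x ∈ F, L x := by
      have e1 : ((F.filter (fun x => x * y ∈ F)).card : ℝ) * Real.log 2 ≤
          ∑ x ∈ F.filter (fun x => x * y ∈ F), (L x + L (x * y)) := by
        rw [← nsmul_eq_mul]
        exact Finset.card_nsmul_le_sum _ _ _ hkey
      have e2 : ∑ x ∈ F.filter (fun x => x * y ∈ F), L x ≤ ∑ x ∈ F, L x :=
        Finset.sum_le_sum_of_subset_of_nonneg (Finset.filter_subset _ _) fun x hx _ => hL0 x hx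
      have e3 : ∑ x ∈ F.filter (fun x => x * y ∈ F), L (x * y) ≤ ∑ x ∈ F, L x := by
        rw [← Finset.sum_image (f := L) (g := fun x => x * y)
          (s := F.filter (fun x => x * y ∈ F)) (fun a _ b _ hab => mul_right_cancel hab)]
        refine Finset.sum_le_sum_of_subset_of_nonneg ?_ fun x hx _ => hL0 x hx
        intro z hz
        obtain ⟨x, hx, rfl⟩ := Finset.mem_image.1 hz
        exact (Finset.mem_filter.1 hx).2
      rw [Finset.sum_add_distrib] at e1
      linarith
    have h3 : ∑ x ∈ F, L x = N * Real.log N - ∑ c ∈ C, ((P c).card : ℝ) * Real.log (P c).card := by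
      have e1 : ∑ x ∈ F, Real.log (P (q x)).card =
          ∑ c ∈ C, ((P c).card : ℝ) * Real.log (P c).card := by
        rw [← Finset.sum_fiberwise_of_maps_to (s := F) (t := C) (g := q)
          (fun x hx => Finset.mem_image_of_mem q hx)]
        refine Finset.sum_congr rfl fun c _ => ?_
        rw [Finset.sum_congr rfl (g := fun _ => Real.log (P c).card) (fun x hx => by
          rw [(Finset.mem_filter.1 hx).2]), Finset.sum_const, nsmul_eq_mul]
      show ∑ x ∈ F, (Real.log N - Real.log (P (q x)).card) = _
      rw [Finset.sum_sub_distrib, Finset.sum_const, nsmul_eq_mul, e1]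
    have h4 : ∑ c ∈ C, 2 * ((P c).card : ℝ) * Real.log (P c).card =
        2 * ∑ c ∈ C, ((P c).card : ℝ) * Real.log (P c).card := by
      rw [Finset.mul_sum]
      exact Finset.sum_congr rfl fun c _ => by ring
    rw [h4] at h1
    rw [h3] at h2
    rw [add_mul]
    linarith

end Pool.Agent.MET90
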