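import Pool.Agent.MET90.Basic

/-!
Module COLB: collection in powers of `u_1, …, u_t`.

`ConjProd S Y N R g`: `g` is a product of at most `N` conjugates `p y p⁻¹`, `y ∈ Y`, `p ∈ WB S R`.
`upow u e = u_0^(e_0) * u_1^(e_1) * ⋯`.

`upow_collect`: there are a finite set `Y` (closed under inverses) of commutators of the `u_i^{±1}` and a
constant `K` such that for every `e : Fin t → ℤ` and every word `l` in the letters `u_j^{±1}` with exponent
vector `f`: `upow u e * l.prod * (upow u (e + f))⁻¹` is a product of at most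
`K * l.length * (∑ |e_i| + l.length)` conjugates of elements of `Y` by elements of
`WB (range u) (K * (∑ |e_i| + l.length + 1))`.

Proof. (1) (word commutator) for a word `w = y_1 ⋯ y_m` in `U = {u_i^{±1}}` and a letter `x ∈ U`,
`[w, x] = w x w⁻¹ x⁻¹` is a product of `m` conjugates `p [y_i, x] p⁻¹` with `p` a initial segment of `w`:
`[y w', x] = y [w', x] y⁻¹ * [y, x]`.
(2) one letter: `upow u e * u_j^ε * (upow u (e + ε 1_j))⁻¹` is a product of at most `∑|e_i|` conjugates by
elements of length `≤ 2 ∑ |e_i|`: induction on `t`; with `upow u e = u_0^(e_0) * upow u' e'`: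
if `j > 0` conjugate the expression for `u'` by `u_0^(e_0)`; if `j = 0` the element is
`u_0^(e_0) [upow u' e', u_0^ε] u_0^(-e_0)`, use (1).
(3) words: induction on `l` with running exponent `e`: 
`upow e * (x * l.prod) * (upow (e+f))⁻¹ = [upow e * x * (upow (e + f_x))⁻¹] * [upow (e+f_x) * l.prod * …]`.
It is convenient to give a word as a list of pairs `(j, ε)` with `ε : Bool` (or `ℤˣ`).
-/

set_option autoImplicit false

namespace Pool.Agent.MET90

/-- `g` is a product of at most `N` conjugates `p y p⁻¹`, `y ∈ Y`, `p ∈ WB S R` -/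
def ConjProd {G : Type} [Group G] (S : Set G) (Y : Set G) (N R : ℕ) (g : G) : Prop :=
  ∃ l : List G, l.length ≤ N ∧ (∀ x ∈ l, ∃ p ∈ WB S R, ∃ y ∈ Y, x = p * y * p⁻¹) ∧ l.prod = g

lemma ConjProd.one {G : Type} [Group G] (S Y : Set G) (N R : ℕ) : ConjProd S Y N R 1 :=
  ⟨[], by simp, by simp, by simp⟩

lemma ConjProd.mono {G : Type} [Group G] {S S' Y Y' : Set G} {N N' R R' : ℕ} {g : G}
    (h : ConjProd S Y N R g) (hS : WB S R ⊆ WB S' R') (hY : Y ⊆ Y') (hN : N ≤ N') :
    ConjProd S' Y' N' R' g := by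
  obtain ⟨l, h1, h2, h3⟩ := h
  refine ⟨l, h1.trans hN, fun x hx => ?_, h3⟩
  obtain ⟨p, hp, y, hy, rfl⟩ := h2 x hx
  exact ⟨p, hS hp, y, hY hy, rfl⟩

lemma ConjProd.mul {G : Type} [Group G] {S Y : Set G} {N N' R : ℕ} {g h : G}
    (hg : ConjProd S Y N R g) (hh : ConjProd S Y N' R h) : ConjProd S Y (N + N') R (g * h) := by
  obtain ⟨l, h1, h2, h3⟩ := hg
  obtain ⟨l', h1', h2', h3'⟩ := hh
  refine ⟨l ++ l', by simp; omega, fun x hx => ?_, by simp [h3, h3']⟩
  rcases List.mem_append.mp hx with hx | hx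
  · exact h2 x hx
  · exact h2' x hx

lemma ConjProd.conj {G : Type} [Group G] {S Y : Set G} {N R m : ℕ} {g q : G}
    (hg : ConjProd S Y N R g) (hq : q ∈ WB S m) : ConjProd S Y N (m + R) (q * g * q⁻¹) := by
  obtain ⟨l, h1, h2, h3⟩ := hg
  refine ⟨l.map (fun x => q * x * q⁻¹), by simpa using h1, fun x hx => ?_, ?_⟩
  · rw [List.mem_map] at hx
    obtain ⟨x', hx', rfl⟩ := hx
    obtain ⟨p, hp, y, hy, rfl⟩ := h2 x' hx'
    exact ⟨q * p, mul_mem_WB hq hp, y, hy, by group⟩
  · rw [← h3]
    clear h1 h2 h3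
    induction l with
    | nil => simp
    | cons a l ih =>
      rw [List.map_cons, List.prod_cons, List.prod_cons, ih]
      group

/-- ordered product of powers -/
def upow {G : Type} [Group G] {t : ℕ} (u : Fin t → G) (e : Fin t → ℤ) : G :=
  (List.ofFn (fun i => u i ^ e i)).prod

/-- the letter `u_j^{±1}` -/
def uletter {G : Type} [Group G] {t : ℕ} (u : Fin t → G) (p : Fin t × Bool) : G :=
  if p.2 then u p.1 else (u p.1)⁻¹

/-- the exponent vector of a word in the letters `u_j^{±1}` -/
def uexp {t : ℕ} (l : List (Fin t × Bool)) : Fin t → ℤ :=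
  (l.map (fun p => (Pi.single p.1 (if p.2 then 1 else -1) : Fin t → ℤ))).sum

section ColBAux

variable {G : Type} [Group G] {t : ℕ} (u : Fin t → G)

open Classical in
/-- the commutators of the letters `u_i^{±1}` -/
private noncomputable def colbY : Finset G :=
  (Finset.univ : Finset ((Fin t × Bool) × (Fin t × Bool))).image
    (fun p => uletter u p.1 * uletter u p.2 * (uletter u p.1)⁻¹ * (uletter u p.2)⁻¹)

private lemma colb_letter {x : G} (hx : x ∈ Set.range u ∨ x⁻¹ ∈ Set.range u) :
    ∃ p, uletter u p = x := by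
  rcases hx with ⟨i, rfl⟩ | ⟨i, hi⟩
  · exact ⟨(i, true), by simp [uletter]⟩
  · exact ⟨(i, false), by simp [uletter, hi]⟩

private lemma colb_letter_mem (p : Fin t × Bool) :
    uletter u p ∈ Set.range u ∨ (uletter u p)⁻¹ ∈ Set.range u := by
  unfold uletter
  split_ifs with h
  · exact Or.inl ⟨p.1, rfl⟩
  · exact Or.inr ⟨p.1, (inv_inv _).symm⟩

private lemma colb_mem_Y {x y : G} (hx : x ∈ Set.range u ∨ x⁻¹ ∈ Set.range u)
    (hy : y ∈ Set.range u ∨ y⁻¹ ∈ Set.range u) : x * y * x⁻¹ * y⁻¹ ∈ colbY u := by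
  classical
  obtain ⟨p, rfl⟩ := colb_letter u hx
  obtain ⟨q, rfl⟩ := colb_letter u hy
  unfold colbY
  exact Finset.mem_image.2 ⟨(p, q), Finset.mem_univ _, rfl⟩

/-- (1) the commutator of a word and a letter -/
private lemma colb_comm {m : ℕ} {w x : G} (hw : w ∈ WB (Set.range u) m)
    (hx : x ∈ Set.range u ∨ x⁻¹ ∈ Set.range u) :
    ConjProd (Set.range u) (colbY u : Set G) m m (w * x * w⁻¹ * x⁻¹) := by
  obtain ⟨l, h1, h2, rfl⟩ := hw
  have key : ConjProd (Set.range u) (colbY u : Set G) l.length l.length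
      (l.prod * x * l.prod⁻¹ * x⁻¹) := by
    clear h1
    induction l with
    | nil =>
      have h : (List.prod ([] : List G)) * x * (List.prod ([] : List G))⁻¹ * x⁻¹ = 1 := by simp
      rw [h]
      exact ConjProd.one _ _ _ _
    | cons y l ih =>
      have hy := h2 y List.mem_cons_self
      have ih' := ih (fun z hz => h2 z (List.mem_cons_of_mem _ hz))
      have hy1 : y ∈ WB (Set.range u) 1 := by
        rcases hy with h | h
        · exact mem_WB_one h
        · exact inv_mem_WB_one h
      have e1 : (y :: l).prod * x * ((y :: l).prod)⁻¹ * x⁻¹ =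
          (y * (l.prod * x * l.prod⁻¹ * x⁻¹) * y⁻¹) * (y * x * y⁻¹ * x⁻¹) := by
        rw [List.prod_cons]
        group
      rw [e1, List.length_cons]
      have c1 := ih'.conj hy1
      have c2 : ConjProd (Set.range u) (colbY u : Set G) 1 (1 + l.length) (y * x * y⁻¹ * x⁻¹) :=
        ⟨[y * x * y⁻¹ * x⁻¹], by simp, fun z hz => ⟨1, one_mem_WB _ _, y * x * y⁻¹ * x⁻¹,
          colb_mem_Y u hy hx, by simpa using hz⟩, by simp⟩
      have c3 := c1.mul c2
      rwa [Nat.add_comm 1 l.length] at c3
  exact key.mono (WB_mono _ h1) subset_rfl h1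

private lemma colb_zpow (i : Fin t) (k : ℤ) : u i ^ k ∈ WB (Set.range u) k.natAbs := by
  have h1 : ∀ m : ℕ, u i ^ m ∈ WB (Set.range u) m := by
    intro m
    have := pow_mem_WB (mem_WB_one (Set.mem_range_self i) : u i ∈ WB (Set.range u) 1) m
    rwa [Nat.mul_one] at this
  rcases Int.natAbs_eq k with h | h
  · have h2 : u i ^ k = u i ^ k.natAbs := by
      conv_lhs => rw [h]
      rw [zpow_natCast]
    rw [h2]
    exact h1 _
  · have h2 : u i ^ k = (u i ^ k.natAbs)⁻¹ := by
      conv_lhs => rw [h]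
      rw [zpow_neg, zpow_natCast]
    rw [h2]
    exact inv_mem_WB (h1 _)

/-- ordered product over a list of indices -/
private def colbUp (L : List (Fin t)) (e : Fin t → ℤ) : G := (L.map (fun i => u i ^ e i)).prod

/-- sum of the absolute values of the exponents over a list of indices -/
private def colbS (L : List (Fin t)) (e : Fin t → ℤ) : ℕ := (L.map (fun i => (e i).natAbs)).sum

private lemma colb_up_mem (L : List (Fin t)) (e : Fin t → ℤ) :
    colbUp u L e ∈ WB (Set.range u) (colbS L e) := by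
  induction L with
  | nil => exact one_mem_WB _ _
  | cons i L ih =>
    unfold colbUp colbS at *
    rw [List.map_cons, List.map_cons, List.prod_cons, List.sum_cons]
    exact mul_mem_WB (colb_zpow u i (e i)) ih

private lemma colb_up_congr {L : List (Fin t)} {e e' : Fin t → ℤ} (h : ∀ i ∈ L, e i = e' i) :
    colbUp u L e = colbUp u L e' := by
  unfold colbUp
  congr 1
  exact List.map_congr_left fun i hi => by rw [h i hi]

/-- the exponent vector of a letter -/
private def colbE (p : Fin t × Bool) : Fin t → ℤ := Pi.single p.1 (if p.2 then 1 else -1)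

private lemma colb_letter_zpow (p : Fin t × Bool) :
    uletter u p = u p.1 ^ (if p.2 then (1 : ℤ) else -1) := by
  unfold uletter
  split_ifs <;> simp

/-- (2) one letter -/
private lemma colb_one (L : List (Fin t)) (hL : L.Nodup) (e : Fin t → ℤ) (p : Fin t × Bool)
    (hp : p.1 ∈ L) : ConjProd (Set.range u) (colbY u : Set G) (colbS L e) (colbS L e)
      (colbUp u L e * uletter u p * (colbUp u L (e + colbE p))⁻¹) := by
  induction L with
  | nil => exact absurd hp List.not_mem_nil
  | cons i L ih =>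
    rw [List.nodup_cons] at hL
    obtain ⟨hi, hL'⟩ := hL
    have hup : ∀ e' : Fin t → ℤ, colbUp u (i :: L) e' = u i ^ e' i * colbUp u L e' := by
      intro e'
      unfold colbUp
      rw [List.map_cons, List.prod_cons]
    have hs : colbS (i :: L) e = (e i).natAbs + colbS L e := by
      unfold colbS
      rw [List.map_cons, List.sum_cons]
    rw [hup, hup, hs]
    by_cases hij : p.1 = i
    · subst hij
      have h1 : colbUp u L (e + colbE p) = colbUp u L e := by
        refine colb_up_congr u fun k hk => ?_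
        have hne : k ≠ p.1 := fun h => hi (h ▸ hk)
        rw [Pi.add_apply, colbE, Pi.single_eq_of_ne hne, add_zero]
      have h2 : (e + colbE p) p.1 = e p.1 + (if p.2 then (1 : ℤ) else -1) := by
        rw [Pi.add_apply, colbE, Pi.single_eq_same]
      have h3 : u p.1 ^ e p.1 * colbUp u L e * uletter u p *
          (u p.1 ^ (e + colbE p) p.1 * colbUp u L (e + colbE p))⁻¹ =
          u p.1 ^ e p.1 * (colbUp u L e * uletter u p * (colbUp u L e)⁻¹ * (uletter u p)⁻¹) *
            (u p.1 ^ e p.1)⁻¹ := by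
        rw [h1, h2, colb_letter_zpow]
        group
      rw [h3]
      exact ((colb_comm u (colb_up_mem u L e) (colb_letter_mem u p)).conj
        (colb_zpow u p.1 (e p.1))).mono subset_rfl subset_rfl (Nat.le_add_left _ _)
    · have hp' : p.1 ∈ L := (List.mem_cons.1 hp).resolve_left hij
      have h2 : (e + colbE p) i = e i := by
        rw [Pi.add_apply, colbE, Pi.single_eq_of_ne (Ne.symm hij), add_zero]
      have h3 : u i ^ e i * colbUp u L e * uletter u p *
          (u i ^ (e + colbE p) i * colbUp u L (e + colbE p))⁻¹ =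
          u i ^ e i * (colbUp u L e * uletter u p * (colbUp u L (e + colbE p))⁻¹) *
            (u i ^ e i)⁻¹ := by
        rw [h2]
        group
      rw [h3]
      exact ((ih hL' hp').conj (colb_zpow u i (e i))).mono subset_rfl subset_rfl
        (Nat.le_add_left _ _)

private lemma colb_upow (e : Fin t → ℤ) : upow u e = colbUp u (List.finRange t) e := by
  unfold upow colbUp
  rw [List.ofFn_eq_map]

private lemma colb_sum (e : Fin t → ℤ) : colbS (List.finRange t) e = ∑ i, (e i).natAbs := by
  unfold colbS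
  rw [Fin.sum_univ_def]

private lemma colb_sum_add (e : Fin t → ℤ) (p : Fin t × Bool) :
    ∑ i, ((e + colbE p) i).natAbs ≤ (∑ i, (e i).natAbs) + 1 := by
  have h1 : ∀ i, ((e + colbE p) i).natAbs ≤ (e i).natAbs + (if i = p.1 then 1 else 0) := by
    intro i
    rw [Pi.add_apply, colbE]
    by_cases h : i = p.1
    · subst h
      rw [Pi.single_eq_same, if_pos rfl]
      split_ifs <;> omega
    · rw [Pi.single_eq_of_ne h, if_neg h]
      omega
  refine (Finset.sum_le_sum fun i _ => h1 i).trans ?_
  rw [Finset.sum_add_distrib, Finset.sum_ite_eq' Finset.univ p.1 (fun _ => 1),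
    if_pos (Finset.mem_univ _)]

end ColBAux

theorem upow_collect {G : Type} [Group G] {t : ℕ} (u : Fin t → G) :
    ∃ (Y : Finset G) (K : ℕ), (∀ y ∈ Y, y⁻¹ ∈ Y) ∧
      (∀ N : Subgroup G, (∀ i j : Fin t, u i * u j * (u i)⁻¹ * (u j)⁻¹ ∈ N) → N.Normal →
        (Y : Set G) ⊆ N) ∧
      ∀ (e : Fin t → ℤ) (l : List (Fin t × Bool)) (E : ℕ), (∑ i, (e i).natAbs) ≤ E →
        ConjProd (Set.range u) (Y : Set G) (K * l.length * (E + l.length))
          (K * (E + l.length + 1))
          (upow u e * (l.map (uletter u)).prod * (upow u (e + uexp l))⁻¹) := by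
  classical
  refine ⟨colbY u, 1, ?_, ?_, ?_⟩
  · intro y hy
    unfold colbY at hy
    obtain ⟨⟨p, q⟩, -, rfl⟩ := Finset.mem_image.1 hy
    have h := colb_mem_Y u (colb_letter_mem u q) (colb_letter_mem u p)
    have e1 : (uletter u p * uletter u q * (uletter u p)⁻¹ * (uletter u q)⁻¹)⁻¹ =
        uletter u q * uletter u p * (uletter u q)⁻¹ * (uletter u p)⁻¹ := by
      group
    show (uletter u p * uletter u q * (uletter u p)⁻¹ * (uletter u q)⁻¹)⁻¹ ∈ colbY u
    rw [e1]
    exact h
  · intro N hN hnorm y hy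
    have hy' : y ∈ colbY u := hy
    unfold colbY at hy'
    obtain ⟨⟨p, q⟩, -, rfl⟩ := Finset.mem_image.1 hy'
    -- pass from `[x, y]` to `[x⁻¹, y]`
    have hinv : ∀ x z : G, x * z * x⁻¹ * z⁻¹ ∈ N → x⁻¹ * z * (x⁻¹)⁻¹ * z⁻¹ ∈ N := by
      intro x z h
      have h1 := hnorm.conj_mem _ (N.inv_mem h) x⁻¹
      have e1 : x⁻¹ * (x * z * x⁻¹ * z⁻¹)⁻¹ * (x⁻¹)⁻¹ = x⁻¹ * z * (x⁻¹)⁻¹ * z⁻¹ := by
        group
      rwa [e1] at h1
    have hsw : ∀ x z : G, x * z * x⁻¹ * z⁻¹ ∈ N → z * x * z⁻¹ * x⁻¹ ∈ N := by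
      intro x z h
      have h1 := N.inv_mem h
      have e1 : (x * z * x⁻¹ * z⁻¹)⁻¹ = z * x * z⁻¹ * x⁻¹ := by group
      rwa [e1] at h1
    have h1 : ∀ (p : Fin t × Bool) (z : G), u p.1 * z * (u p.1)⁻¹ * z⁻¹ ∈ N →
        uletter u p * z * (uletter u p)⁻¹ * z⁻¹ ∈ N := by
      intro p z h
      unfold uletter
      split_ifs
      · exact h
      · exact hinv _ _ h
    exact h1 p _ (hsw _ _ (h1 q _ (hN q.1 p.1)))
  · intro e l
    induction l generalizing e with
    | nil =>
      intro E _
      have e1 : upow u e * (List.map (uletter u) []).prod * (upow u (e + uexp []))⁻¹ = 1 := by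
        simp [uexp]
      rw [e1]
      exact ConjProd.one _ _ _ _
    | cons p l ih =>
      intro E hE
      have h1 : uexp (p :: l) = colbE p + uexp l := by
        unfold uexp colbE
        rw [List.map_cons, List.sum_cons]
      have h2 : upow u e * ((p :: l).map (uletter u)).prod * (upow u (e + uexp (p :: l)))⁻¹ =
          (upow u e * uletter u p * (upow u (e + colbE p))⁻¹) *
          (upow u (e + colbE p) * (l.map (uletter u)).prod * (upow u (e + colbE p + uexp l))⁻¹) := by
        rw [h1, List.map_cons, List.prod_cons, add_assoc]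
        group
      rw [h2]
      have c1 := colb_one u (List.finRange t) (List.nodup_finRange t) e p (List.mem_finRange _)
      rw [← colb_upow, ← colb_upow, colb_sum] at c1
      have c2 := ih (e + colbE p) (E + 1) ((colb_sum_add e p).trans (by omega))
      rw [List.length_cons]
      have c3 : ConjProd (Set.range u) (colbY u : Set G) E (1 * (E + 1 + l.length + 1))
          (upow u e * uletter u p * (upow u (e + colbE p))⁻¹) :=
        c1.mono (WB_mono _ (by omega)) subset_rfl hE
      refine (c3.mul c2).mono (WB_mono _ (by omega)) subset_rfl ?_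
      nlinarith

end Pool.Agent.MET90
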