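import Pool.Agent.MET90.ColA
import Pool.Agent.MET90.ColB

/-!
Module COL: collection lemma. Every `g ∈ A ∩ WB S n` (`n ≥ 1`) is a product of at most `K n²` conjugates
`p y p⁻¹` with `y` in a finite subset `Y` of `A`, `p ∈ WB S (K n)`.

Proof. Take `e, φ, u, v` from `quot_structure` and `Y₁, K₁` from `upow_collect`. Section
`τ g := upow u (e g) * v (φ g)`, depending only on `g A`; `g (τ g)⁻¹ ∈ A`, `τ 1 = 1`, and `τ g = 1` for
`g ∈ A`. For each letter `s ∈ S` fix a word `l_s` in the `u_j^{±1}` with exponent vector `e s`. For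
`f : F`, `s ∈ S` put `a_{f,s} := v f * s * (v (f * φ s))⁻¹ * (upow u (e s))⁻¹ ∈ A` (finitely many elements;
`e` of it is `0`, `φ` of it is `1`).
For `q ∈ G`, `s ∈ S`, with `e = e q`, `f = φ q`:
`τ q * s * (τ (q s))⁻¹ = upow e * v f * s * (v (f φ s))⁻¹ * (upow (e + e s))⁻¹
  = (upow e * a_{f,s} * (upow e)⁻¹) * (upow e * upow (e s) * (upow (e + e s))⁻¹)`,
and the last factor is, with `upow (e s)` replaced by the word `l_s` (correct it by the element
`(l_s.prod)⁻¹ upow (e s)`, conjugated by `upow e`; or choose `l_s` to be the obvious word with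
product exactly `upow u (e s)`), a product of `≤ K₁ |l_s| (|e|₁ + |l_s|)` conjugates. Since
`|e q|₁ ≤ K n` for `q ∈ WB S n`, each step costs `≤ K' n` conjugates by elements of length `≤ K' n`, and
`g = s_1 ⋯ s_n = ∏_i (τ(s_1⋯s_{i-1}) s_i τ(s_1⋯s_i)⁻¹) * τ g`, with `τ g = 1` for `g ∈ A`.
`Y = Y₁ ∪ {a_{f,s}} ∪ inverses`.
-/

set_option autoImplicit false

namespace Pool.Agent.MET90

private lemma col_flat_prod {G : Type} [Group G] (L : List (List G)) :
    L.flatten.prod = (L.map List.prod).prod := by
  induction L with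
  | nil => simp
  | cons a L ih => simp [ih]

private lemma col_flat_sum {M : Type} [AddCommMonoid M] (L : List (List M)) :
    L.flatten.sum = (L.map List.sum).sum := by
  induction L with
  | nil => simp
  | cons a L ih => simp [ih]

/-- the obvious word -/
private lemma col_word {G : Type} [Group G] {t : ℕ} (u : Fin t → G) (x : Fin t → ℤ) :
    ∃ l : List (Fin t × Bool), (l.map (uletter u)).prod = upow u x ∧ uexp l = x := by
  refine ⟨(List.ofFn fun i => List.replicate (x i).natAbs (i, decide (0 ≤ x i))).flatten, ?_, ?_⟩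
  · rw [List.map_flatten, col_flat_prod, List.map_map, List.map_ofFn, upow]
    congr 1
    apply congrArg
    funext i
    simp only [Function.comp_apply, List.map_replicate, List.prod_replicate, uletter]
    by_cases h : 0 ≤ x i
    · rw [if_pos (by simpa using h)]
      conv_rhs => rw [← Int.natAbs_of_nonneg h]
      rw [zpow_natCast]
    · rw [if_neg (by simpa using h)]
      have h1 : x i = -((x i).natAbs : ℤ) := by omega
      conv_rhs => rw [h1]
      rw [zpow_neg, zpow_natCast, inv_pow]
  · unfold uexp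
    rw [List.map_flatten, col_flat_sum, List.map_map, List.map_ofFn, List.sum_ofFn]
    have h1 : ∀ i : Fin t, (List.sum ∘ List.map (fun p : Fin t × Bool =>
        (Pi.single p.1 (if p.2 then 1 else -1) : Fin t → ℤ))) (List.replicate (x i).natAbs
          (i, decide (0 ≤ x i))) = Pi.single i (x i) := by
      intro i
      simp only [Function.comp_apply, List.map_replicate, List.sum_replicate]
      rw [← Pi.single_smul]
      congr 1
      by_cases h : 0 ≤ x i
      · rw [if_pos (by simpa using h)]
        simp only [nsmul_eq_mul, mul_one]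
        omega
      · rw [if_neg (by simpa using h)]
        simp only [nsmul_eq_mul]
        omega
    simp only [Function.comp_apply] at h1 ⊢
    simp only [h1]
    exact Finset.univ_sum_single x

private lemma col_upow_mem {G : Type} [Group G] {t : ℕ} (u : Fin t → G) (x : Fin t → ℤ) :
    upow u x ∈ WB (Set.range u) (∑ i, (x i).natAbs) := by
  unfold upow
  induction t with
  | zero => simpa using one_mem_WB (Set.range u) 0
  | succ t ih =>
    rw [List.ofFn_succ, List.prod_cons, Fin.sum_univ_succ]
    apply mul_mem_WB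
    · have h0 : u 0 ∈ WB (Set.range u) 1 := mem_WB_one ⟨0, rfl⟩
      have h1 := pow_mem_WB h0 (x 0).natAbs
      rw [mul_one] at h1
      rcases Int.natAbs_eq (x 0) with h | h
      · rw [h, zpow_natCast, Int.natAbs_natCast]
        exact h1
      · rw [h, zpow_neg, zpow_natCast, Int.natAbs_neg, Int.natAbs_natCast]
        exact inv_mem_WB h1
    · have h1 := ih (fun i => u i.succ) (fun i => x i.succ)
      refine WB_subset ?_ _ h1
      rintro _ ⟨i, rfl⟩
      exact ⟨i.succ, rfl⟩

theorem collection {G : Type} [Group G] {S : Finset G} {A : Subgroup G} (hs : Setup S A) :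
    ∃ (Y : Finset G) (K : ℕ), (Y : Set G) ⊆ A ∧ (∀ y ∈ Y, y⁻¹ ∈ Y) ∧
      ∀ n : ℕ, 1 ≤ n → ∀ g ∈ A, g ∈ WB (S : Set G) n →
        ConjProd (S : Set G) (Y : Set G) (K * n ^ 2) (K * n) g := by
  classical
  obtain ⟨t, e, F, _, _, φ, u, v, he, hA, hu, hv, hv1⟩ := quot_structure hs
  obtain ⟨Y1, K1, hY1inv, hY1sub, hcol⟩ := upow_collect u
  have hFin : Fintype F := Fintype.ofFinite F
  -- the homomorphism `e`
  have he1 : e 1 = 0 := by
    have := he 1 1
    rw [mul_one] at this
    simpa using this
  have hein : ∀ g, e g⁻¹ = - e g := by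
    intro g
    have := he g g⁻¹
    rw [mul_inv_cancel, he1] at this
    exact (neg_eq_of_add_eq_zero_right this.symm).symm
  let eh : G →* Multiplicative (Fin t → ℤ) :=
    { toFun := fun g => Multiplicative.ofAdd (e g)
      map_one' := by rw [he1]; rfl
      map_mul' := fun g h => by rw [he]; rfl }
  have heh : ∀ g, e g = Multiplicative.toAdd (eh g) := fun g => rfl
  have hupow : ∀ x : Fin t → ℤ, e (upow u x) = x ∧ φ (upow u x) = 1 := by
    intro x
    constructor
    · rw [heh, upow, map_list_prod, List.map_ofFn]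
      have h1 : (List.ofFn (eh ∘ fun i => u i ^ x i)).prod =
          ∏ i, eh (u i ^ x i) := by
        rw [List.prod_ofFn]
        rfl
      rw [h1, toAdd_prod]
      have h2 : ∀ i, Multiplicative.toAdd (eh (u i ^ x i)) = Pi.single i (x i) := by
        intro i
        rw [map_zpow, toAdd_zpow, ← heh, (hu i).1, ← Pi.single_smul, smul_eq_mul, mul_one]
      simp only [h2]
      exact Finset.univ_sum_single x
    · rw [upow, map_list_prod, List.map_ofFn]
      have h1 : (φ ∘ fun i => u i ^ x i) = fun _ => (1 : F) := by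
        funext i
        simp [(hu i).2]
      rw [h1, List.prod_ofFn]
      simp
  have hup0 : upow u 0 = 1 := by
    unfold upow
    have : (fun i => u i ^ (0 : Fin t → ℤ) i) = fun _ => (1 : G) := by
      funext i
      simp
    rw [this]
    simp
  let τ : G → G := fun g => upow u (e g) * v (φ g)
  have hτA : ∀ g ∈ A, τ g = 1 := by
    intro g hg
    obtain ⟨h1, h2⟩ := (hA g).2 hg
    show upow u (e g) * v (φ g) = 1
    rw [h1, h2, hup0, hv1, mul_one]
  -- words
  choose w hw1 hw2 using fun x : Fin t → ℤ => col_word u x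
  let a : F → G → G := fun f s => v f * s * (v (f * φ s))⁻¹ * (upow u (e s))⁻¹
  have haA : ∀ f s, a f s ∈ A := by
    intro f s
    rw [← hA]
    constructor
    · show e (v f * s * (v (f * φ s))⁻¹ * (upow u (e s))⁻¹) = 0
      rw [he, he, he, hein, hein, (hv _).1, (hv _).1, (hupow _).1]
      simp
    · show φ (v f * s * (v (f * φ s))⁻¹ * (upow u (e s))⁻¹) = 1
      rw [map_mul, map_mul, map_mul, map_inv, map_inv, (hv _).2, (hv _).2, (hupow _).2]
      simp
  let Y2 : Finset G := ((Finset.univ : Finset F) ×ˢ S).image fun q => a q.1 q.2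
  let Y3 : Finset G := Y2.image fun y => y⁻¹
  obtain ⟨k0, hk0⟩ := exists_WB_of_finite (S := (S : Set G)) hs.gen (Set.range u)
    (Set.finite_range u)
  let nr : (Fin t → ℤ) → ℕ := fun x => ∑ i, (x i).natAbs
  have hnr : ∀ x y, nr (x + y) ≤ nr x + nr y := by
    intro x y
    show ∑ i, ((x + y) i).natAbs ≤ ∑ i, (x i).natAbs + ∑ i, (y i).natAbs
    rw [← Finset.sum_add_distrib]
    exact Finset.sum_le_sum fun i _ => Int.natAbs_add_le _ _
  let K2 : ℕ := ∑ s ∈ S, nr (e s)
  have hK2 : ∀ s ∈ S, nr (e s) ≤ K2 := fun s hs =>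
    Finset.single_le_sum (f := fun s => nr (e s)) (fun _ _ => Nat.zero_le _) hs
  let Ls : ℕ := ∑ s ∈ S, (w (e s)).length
  have hLs : ∀ s ∈ S, (w (e s)).length ≤ Ls := fun s hs =>
    Finset.single_le_sum (f := fun s => (w (e s)).length) (fun _ _ => Nat.zero_le _) hs
  have hnrl : ∀ l : List G, (∀ y ∈ l, y ∈ S) → nr (e l.prod) ≤ l.length * K2 := by
    intro l
    induction l with
    | nil =>
      intro _
      rw [List.prod_nil, he1]
      show ∑ i, ((0 : Fin t → ℤ) i).natAbs ≤ _
      simp
    | cons b l ih =>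
      intro hl
      rw [List.prod_cons, he, List.length_cons, Nat.succ_mul, Nat.add_comm]
      exact (hnr _ _).trans (Nat.add_le_add (hK2 b (hl b List.mem_cons_self))
        (ih fun y hy => hl y (List.mem_cons_of_mem _ hy)))
  set Y : Finset G := Y1 ∪ (Y2 ∪ Y3) with hY
  -- constants
  let N1 : ℕ := 1 + K1 * Ls * (K2 + Ls)
  let R1 : ℕ := k0 * (K1 + 1) * (K2 + Ls + 1)
  have hstep : ∀ n, 1 ≤ n → ∀ q, nr (e q) ≤ n * K2 → ∀ s ∈ S,
      ConjProd (S : Set G) (Y : Set G) (N1 * n) (R1 * n) (τ q * s * (τ (q * s))⁻¹) := by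
    intro n hn q hq s hsS
    have h1 : τ q * s * (τ (q * s))⁻¹ = (upow u (e q) * a (φ q) s * (upow u (e q))⁻¹) *
        (upow u (e q) * upow u (e s) * (upow u (e q + e s))⁻¹) := by
      show upow u (e q) * v (φ q) * s * (upow u (e (q * s)) * v (φ (q * s)))⁻¹ =
        (upow u (e q) * (v (φ q) * s * (v (φ q * φ s))⁻¹ * (upow u (e s))⁻¹) *
          (upow u (e q))⁻¹) * (upow u (e q) * upow u (e s) * (upow u (e q + e s))⁻¹)
      rw [he, map_mul]
      group
    rw [h1]
    have hN : 1 + K1 * (w (e s)).length * (n * K2 + (w (e s)).length) ≤ N1 * n := by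
      show _ ≤ (1 + K1 * Ls * (K2 + Ls)) * n
      have h2 := hLs s hsS
      calc 1 + K1 * (w (e s)).length * (n * K2 + (w (e s)).length)
          ≤ n + K1 * Ls * (n * K2 + n * Ls) := by
            gcongr
            exact h2.trans (Nat.le_mul_of_pos_left _ hn)
        _ = (1 + K1 * Ls * (K2 + Ls)) * n := by ring
    have hc1 : ConjProd (S : Set G) (Y : Set G) 1 (R1 * n)
        (upow u (e q) * a (φ q) s * (upow u (e q))⁻¹) := by
      refine ⟨[upow u (e q) * a (φ q) s * (upow u (e q))⁻¹], by simp, ?_, by simp⟩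
      intro x hx
      rw [List.mem_singleton] at hx
      refine ⟨upow u (e q), ?_, a (φ q) s, ?_, hx⟩
      · refine WB_mono _ ?_ (WB_WB hk0 _ (col_upow_mem u (e q)))
        have h3 : (∑ i, (e q i).natAbs) * k0 ≤ n * K2 * k0 := Nat.mul_le_mul_right _ hq
        refine h3.trans ?_
        show n * K2 * k0 ≤ k0 * (K1 + 1) * (K2 + Ls + 1) * n
        calc n * K2 * k0 = k0 * 1 * K2 * n := by ring
          _ ≤ k0 * (K1 + 1) * (K2 + Ls + 1) * n := by gcongr <;> omega
      · rw [hY]
        simp only [Finset.coe_union, Set.mem_union, Finset.mem_coe]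
        right
        left
        exact Finset.mem_image.2 ⟨(φ q, s), Finset.mem_product.2 ⟨Finset.mem_univ _, hsS⟩, rfl⟩
    have hc2 := hcol (e q) (w (e s)) (n * K2) hq
    rw [hw1, hw2] at hc2
    have hc3 := hc2.mono (S' := (S : Set G)) (Y' := (Y : Set G))
      (N' := K1 * (w (e s)).length * (n * K2 + (w (e s)).length)) (R' := R1 * n) (by
        refine (WB_WB hk0 _).trans (WB_mono _ ?_)
        have h2 := hLs s hsS
        show K1 * (n * K2 + (w (e s)).length + 1) * k0 ≤ k0 * (K1 + 1) * (K2 + Ls + 1) * n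
        calc K1 * (n * K2 + (w (e s)).length + 1) * k0
            ≤ (K1 + 1) * (n * K2 + n * Ls + n) * k0 := by
              gcongr
              · omega
              · exact h2.trans (Nat.le_mul_of_pos_left _ hn)
          _ = k0 * (K1 + 1) * (K2 + Ls + 1) * n := by ring) (by
        rw [hY]
        intro y hy
        simp only [Finset.coe_union, Set.mem_union]
        exact Or.inl hy) le_rfl
    exact (hc1.mul hc3).mono subset_rfl subset_rfl hN
  have hmain : ∀ n, 1 ≤ n → ∀ l : List G, (∀ y ∈ l, y ∈ S) → ∀ q, ∀ m, nr (e q) ≤ m * K2 →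
      m + l.length ≤ n → ConjProd (S : Set G) (Y : Set G) (l.length * (N1 * n)) (R1 * n)
        (τ q * l.prod * (τ (q * l.prod))⁻¹) := by
    intro n hn l
    induction l with
    | nil =>
      intro _ q m _ _
      rw [List.prod_nil, mul_one, mul_one, mul_inv_cancel]
      exact ConjProd.one _ _ _ _
    | cons s l ih =>
      intro hl q m hq hm
      rw [List.length_cons] at hm
      have hsS := hl s List.mem_cons_self
      have h1 := hstep n hn q (hq.trans (Nat.mul_le_mul_right _ (by omega))) s hsS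
      have h2 := ih (fun y hy => hl y (List.mem_cons_of_mem _ hy)) (q * s) (m + 1) (by
        rw [he, Nat.succ_mul]
        exact (hnr _ _).trans (Nat.add_le_add hq (hK2 s hsS))) (by omega)
      have h3 := h1.mul h2
      have h4 : τ q * (s :: l).prod * (τ (q * (s :: l).prod))⁻¹ =
          τ q * s * (τ (q * s))⁻¹ * (τ (q * s) * l.prod * (τ (q * s * l.prod))⁻¹) := by
        rw [List.prod_cons, ← mul_assoc q s l.prod]
        group
      rw [h4, List.length_cons, Nat.succ_mul, Nat.add_comm]
      exact h3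
  refine ⟨Y, N1 + R1, ?_, ?_, ?_⟩
  · rw [hY]
    intro y hy
    simp only [Finset.coe_union, Set.mem_union, Finset.mem_coe] at hy
    rcases hy with hy | hy | hy
    · exact hY1sub A (fun i j => hs.quot _ _) hs.normal hy
    · obtain ⟨q, -, rfl⟩ := Finset.mem_image.1 hy
      exact haA _ _
    · obtain ⟨y', hy', rfl⟩ := Finset.mem_image.1 hy
      obtain ⟨q, -, rfl⟩ := Finset.mem_image.1 hy'
      exact A.inv_mem (haA _ _)
  · rw [hY]
    intro y hy
    simp only [Finset.mem_union] at hy ⊢
    rcases hy with hy | hy | hy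
    · exact Or.inl (hY1inv y hy)
    · exact Or.inr (Or.inr (Finset.mem_image_of_mem _ hy))
    · obtain ⟨y', hy', rfl⟩ := Finset.mem_image.1 hy
      rw [inv_inv]
      exact Or.inr (Or.inl hy')
  · intro n hn g hgA hg
    obtain ⟨l, hl1, hl2, rfl⟩ := WB_symm (S := (S : Set G)) hs.symm hg
    have h1 := hmain n hn l hl2 1 0 (by
      rw [he1]
      show ∑ i, ((0 : Fin t → ℤ) i).natAbs ≤ _
      simp) (by omega)
    rw [one_mul, hτA 1 A.one_mem, hτA _ hgA, one_mul, inv_one, mul_one] at h1
    refine h1.mono (WB_mono _ ?_) subset_rfl ?_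
    · exact Nat.mul_le_mul_right _ (Nat.le_add_left _ _)
    · calc l.length * (N1 * n) ≤ n * (N1 * n) := Nat.mul_le_mul_right _ hl1
        _ = N1 * n ^ 2 := by ring
        _ ≤ (N1 + R1) * n ^ 2 := Nat.mul_le_mul_right _ (Nat.le_add_right _ _)

end Pool.Agent.MET90
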