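import Pool.Agent.MET90.Basic

/-!
Module COLA: coordinates on the finitely generated abelian quotient `G ⧸ A`.

`G ⧸ A` is a finitely generated commutative group, so `G ⧸ A ≃* (j → Multiplicative ℤ) × F` with `j` and `F`
finite (`CommGroup.equiv_free_prod_prod_multiplicative_zmod`, or its additive version
`AddCommGroup.equiv_free_prod_directSum_zmod`). `e` and `φ` are the two components of the composition with
`G → G ⧸ A`; `u`, `v` are lifts.
-/

set_option autoImplicit false

namespace Pool.Agent.MET90

private theorem ColA_aux {G Q : Type} [Group G] [CommGroup Q] [Group.FG Q] (π : G →* Q)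
    (hπ : Function.Surjective π) {A : Subgroup G} (hA : ∀ g, π g = 1 ↔ g ∈ A) :
    ∃ (t : ℕ) (e : G → Fin t → ℤ) (F : Type) (_ : CommGroup F) (_ : Finite F) (φ : G →* F)
      (u : Fin t → G) (v : F → G),
      (∀ g h, e (g * h) = e g + e h) ∧ (∀ g, (e g = 0 ∧ φ g = 1) ↔ g ∈ A) ∧
      (∀ i, e (u i) = Pi.single i 1 ∧ φ (u i) = 1) ∧ (∀ f, e (v f) = 0 ∧ φ (v f) = f) ∧ v 1 = 1 := by
  classical
  obtain ⟨ι, j, _, _, p, hp, k, ⟨E⟩⟩ := CommGroup.equiv_free_prod_prod_multiplicative_zmod Q
  have : ∀ i, NeZero (p i ^ k i) := fun i => ⟨pow_ne_zero _ (hp i).ne_zero⟩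
  let ε : j ≃ Fin (Fintype.card j) := Fintype.equivFin j
  let e : G → Fin (Fintype.card j) → ℤ := fun g i => Multiplicative.toAdd ((E (π g)).1 (ε.symm i))
  let φ : G →* ((i : ι) → Multiplicative (ZMod (p i ^ k i))) :=
    (MonoidHom.snd _ _).comp (E.toMonoidHom.comp π)
  have hsurj : ∀ z, ∃ g, E (π g) = z := fun z => by
    obtain ⟨g, hg⟩ := hπ (E.symm z)
    exact ⟨g, by rw [hg, E.apply_symm_apply]⟩
  choose L hL using hsurj
  refine ⟨Fintype.card j, e, (i : ι) → Multiplicative (ZMod (p i ^ k i)), inferInstance,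
    inferInstance, φ, fun i => L (Pi.mulSingle (ε.symm i) (Multiplicative.ofAdd 1), 1),
    fun f => if f = 1 then 1 else L (1, f), ?_, ?_, ?_, ?_, ?_⟩
  · intro g h
    funext i
    simp only [e, map_mul, Prod.fst_mul, Pi.mul_apply, Pi.add_apply]
    rfl
  · intro g
    rw [← hA g]
    constructor
    · rintro ⟨h1, h2⟩
      have h3 : E (π g) = 1 := by
        refine Prod.ext ?_ h2
        funext i
        have h4 := congrFun h1 (ε i)
        simp only [e, Equiv.symm_apply_apply, Pi.zero_apply] at h4
        exact Multiplicative.toAdd.injective h4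
      exact (map_eq_one_iff E E.injective).1 h3
    · intro h
      refine ⟨?_, ?_⟩
      · funext i
        simp only [e, h, map_one]
        rfl
      · simp only [φ, MonoidHom.comp_apply, h, map_one]
  · intro i
    refine ⟨?_, ?_⟩
    · funext i'
      simp only [e, hL]
      by_cases hi : i' = i
      · subst hi
        rw [Pi.mulSingle_eq_same, Pi.single_eq_same]
        rfl
      · rw [Pi.mulSingle_eq_of_ne (fun h => hi (ε.symm.injective h)), Pi.single_eq_of_ne hi]
        rfl
    · show (E (π (L _))).2 = 1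
      rw [hL]
  · intro f
    by_cases hf : f = 1
    · beta_reduce
      rw [if_pos hf, hf]
      refine ⟨?_, map_one φ⟩
      funext i
      simp only [e, map_one]
      rfl
    · beta_reduce
      rw [if_neg hf]
      refine ⟨?_, ?_⟩
      · funext i
        simp only [e, hL]
        rfl
      · show (E (π (L _))).2 = f
        rw [hL]
  · beta_reduce
    rw [if_pos rfl]

theorem quot_structure {G : Type} [Group G] {S : Finset G} {A : Subgroup G} (hs : Setup S A) :
    ∃ (t : ℕ) (e : G → Fin t → ℤ) (F : Type) (_ : CommGroup F) (_ : Finite F) (φ : G →* F)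
      (u : Fin t → G) (v : F → G),
      (∀ g h, e (g * h) = e g + e h) ∧ (∀ g, (e g = 0 ∧ φ g = 1) ↔ g ∈ A) ∧
      (∀ i, e (u i) = Pi.single i 1 ∧ φ (u i) = 1) ∧ (∀ f, e (v f) = 0 ∧ φ (v f) = f) ∧ v 1 = 1 := by
  have hN := hs.normal
  have hG : Group.FG G := Group.fg_iff.2 ⟨(S : Set G), hs.gen, S.finite_toSet⟩
  let cg : CommGroup (G ⧸ A) :=
    { (inferInstance : Group (G ⧸ A)) with
      mul_comm := fun a b => by
        induction a using QuotientGroup.induction_on with
        | H a =>
          induction b using QuotientGroup.induction_on with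
          | H b =>
            refine QuotientGroup.eq.2 ?_
            have h := hs.quot b⁻¹ a⁻¹
            have h2 : (a * b)⁻¹ * (b * a) = b⁻¹ * a⁻¹ * (b⁻¹)⁻¹ * (a⁻¹)⁻¹ := by group
            rw [h2]
            exact h }
  have hfg : @Group.FG (G ⧸ A) (@CommGroup.toGroup _ cg) := by
    have : Group.FG (G ⧸ A) := inferInstance
    exact this
  exact @ColA_aux G (G ⧸ A) _ cg hfg (QuotientGroup.mk' A) (QuotientGroup.mk'_surjective A) A
    (fun g => QuotientGroup.eq_one_iff g)

end Pool.Agent.MET90
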