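import Pool.Agent.MET90.Basic

/-!
Module COVER: if `ι H` spans `E`, then `ι H` is cobounded in `E`; and its word-length consequence.

`cover`: choose `h_1, …, h_q ∈ H` whose images span `E` (`E` is finite dimensional), write
`v = ∑ t_i ι h_i` and take `x = ∏ h_i ^ ⌊t_i⌋`; then `‖v - ι x‖ ≤ ∑ ‖ι h_i‖`. (`ι` is additive on `A`.)

`span_of_rad`: if every `a ∈ A` has a power `a ^ k ∈ H`, `k > 0`, `H ≤ A`, then `ι H` spans:
`ι a = (1/k) ι (a^k)`, and `ι A` spans `E`.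

`lat`: for a finite `Z ⊆ A` there is `K` such that every `z ∈ ⟨Z⟩` with `‖ι z‖ ≤ n` is a word of length
`≤ K (n+1)` in `Z^{±1}`. Proof: by rounding coefficients as above but with respect to `Z` only, every `v` in the
real span of `ι Z` has an `x ∈ ⟨Z⟩` with `‖v - ι x‖ ≤ R`. Apply this to `v_i = (i/(n+1)) • ι z`,
`i = 0, …, n+1`, with `x_0 = 1`, `x_{n+1} = z`: `‖ι (x_i⁻¹ x_{i+1})‖ ≤ 2R + 1`, so `x_i⁻¹ x_{i+1}` is in the
finite set `{a ∈ ⟨Z⟩ : ‖ι a‖ ≤ 2R+1}` (`M.fin`), whose elements have bounded `Z`-length `K`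
(`exists_mem_WB`). Then `z = ∏ x_i⁻¹ x_{i+1}`. (No finite dimensionality is needed for `lat`.)
-/

set_option autoImplicit false

namespace Pool.Agent.MET90

variable {G : Type} [Group G] {A : Subgroup G} {E : Type} [NormedAddCommGroup E] [NormedSpace ℝ E]

private lemma cov_ι_pow (M : Model A E) {a : G} (ha : a ∈ A) (k : ℕ) :
    M.ι (a ^ k) = (k : ℝ) • M.ι a := by
  induction k with
  | zero => simp [M.ι_one]
  | succ k ih =>
    rw [pow_succ, M.ι_mul _ (A.pow_mem ha k) _ ha, ih]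
    push_cast
    rw [add_smul, one_smul]

private lemma cov_ι_zpow (M : Model A E) {a : G} (ha : a ∈ A) (k : ℤ) :
    M.ι (a ^ k) = (k : ℝ) • M.ι a := by
  rcases Int.eq_nat_or_neg k with ⟨n, rfl | rfl⟩
  · rw [zpow_natCast, cov_ι_pow M ha]
    simp
  · rw [zpow_neg, zpow_natCast, M.ι_inv (A.pow_mem ha n), cov_ι_pow M ha]
    simp

private lemma cov_ι_div (M : Model A E) {a b : G} (ha : a ∈ A) (hb : b ∈ A) :
    M.ι (a⁻¹ * b) = M.ι b - M.ι a := by
  rw [M.ι_mul _ (A.inv_mem ha) _ hb, M.ι_inv ha]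
  abel

/-- rounding of the coefficients -/
private lemma cov_round (M : Model A E) (Z : Finset G) (hZ : (Z : Set G) ⊆ A) :
    ∃ R : ℝ, 0 ≤ R ∧ ∀ v ∈ Submodule.span ℝ (M.ι '' (Z : Set G)),
      ∃ x ∈ Subgroup.closure (Z : Set G), ‖v - M.ι x‖ ≤ R := by
  classical
  induction Z using Finset.induction_on with
  | empty =>
    refine ⟨0, le_rfl, fun v hv => ⟨1, Subgroup.one_mem _, ?_⟩⟩
    rw [Finset.coe_empty, Set.image_empty, Submodule.span_empty, Submodule.mem_bot] at hv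
    rw [hv, M.ι_one, sub_zero, norm_zero]
  | insert a Z _ ih =>
    rw [Finset.coe_insert] at hZ
    have haA : a ∈ A := hZ (Set.mem_insert a _)
    have hZA : (Z : Set G) ⊆ A := fun x hx => hZ (Set.mem_insert_of_mem a hx)
    obtain ⟨R, hR, h⟩ := ih hZA
    refine ⟨R + ‖M.ι a‖, add_nonneg hR (norm_nonneg _), fun v hv => ?_⟩
    rw [Finset.coe_insert, Set.image_insert_eq, Submodule.mem_span_insert] at hv
    obtain ⟨t, w, hw, rfl⟩ := hv
    obtain ⟨x, hx, hx2⟩ := h w hw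
    have hcl : Subgroup.closure (Z : Set G) ≤ A := (Subgroup.closure_le A).2 hZA
    have hsub : Subgroup.closure (Z : Set G) ≤ Subgroup.closure ((insert a Z : Finset G) : Set G) :=
      Subgroup.closure_mono (by
        rw [Finset.coe_insert]
        exact Set.subset_insert _ _)
    have ha2 : a ∈ Subgroup.closure ((insert a Z : Finset G) : Set G) :=
      Subgroup.subset_closure (by
        rw [Finset.coe_insert]
        exact Set.mem_insert _ _)
    refine ⟨a ^ ⌊t⌋ * x, Subgroup.mul_mem _ (Subgroup.zpow_mem _ ha2 _) (hsub hx), ?_⟩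
    rw [M.ι_mul _ (A.zpow_mem haA _) _ (hcl hx), cov_ι_zpow M haA]
    have h1 : t • M.ι a + w - ((⌊t⌋ : ℝ) • M.ι a + M.ι x) = (w - M.ι x) + Int.fract t • M.ι a := by
      rw [← Int.self_sub_floor, sub_smul]
      abel
    rw [h1]
    refine (norm_add_le _ _).trans (add_le_add hx2 ?_)
    rw [norm_smul, Real.norm_eq_abs, abs_of_nonneg (Int.fract_nonneg t)]
    calc Int.fract t * ‖M.ι a‖ ≤ 1 * ‖M.ι a‖ :=
          mul_le_mul_of_nonneg_right (Int.fract_lt_one t).le (norm_nonneg _)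
      _ = ‖M.ι a‖ := one_mul _

theorem cover [FiniteDimensional ℝ E] (M : Model A E) (H : Subgroup G) (hH : H ≤ A)
    (hspan : Submodule.span ℝ (M.ι '' (H : Set G)) = ⊤) :
    ∃ R : ℝ, 0 ≤ R ∧ ∀ v : E, ∃ x ∈ H, ‖v - M.ι x‖ ≤ R := by
  classical
  have hfg : (Submodule.span ℝ (M.ι '' (H : Set G))).FG := by
    rw [hspan]
    exact Module.Finite.fg_top
  obtain ⟨s, hs, hs2⟩ := (Submodule.fg_span_iff_fg_span_finset_subset _).1 hfg
  obtain ⟨Z, hZ, rfl⟩ := Finset.subset_set_image_iff.1 hs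
  obtain ⟨R, hR, h⟩ := cov_round M Z (hZ.trans hH)
  refine ⟨R, hR, fun v => ?_⟩
  obtain ⟨x, hx, hx2⟩ := h v (by
    rw [← Finset.coe_image, ← hs2, hspan]
    trivial)
  exact ⟨x, (Subgroup.closure_le H).2 hZ hx, hx2⟩

theorem span_of_rad (M : Model A E) (H : Subgroup G) (hH : H ≤ A)
    (hrad : ∀ a ∈ A, ∃ k : ℕ, 0 < k ∧ a ^ k ∈ H) :
    Submodule.span ℝ (M.ι '' (H : Set G)) = ⊤ := by
  rw [eq_top_iff, ← M.span, Submodule.span_le]
  rintro _ ⟨a, ha, rfl⟩
  obtain ⟨k, hk, hk2⟩ := hrad a ha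
  have hk0 : (k : ℝ) ≠ 0 := by exact_mod_cast hk.ne'
  have h1 : M.ι a = (k : ℝ)⁻¹ • M.ι (a ^ k) := by
    rw [cov_ι_pow M ha, smul_smul, inv_mul_cancel₀ hk0, one_smul]
  rw [h1]
  exact Submodule.smul_mem _ _ (Submodule.subset_span ⟨_, hk2, rfl⟩)

private lemma cov_WB_of_finite (Z : Set G) (X : Set G) (hX : X.Finite)
    (hXZ : X ⊆ Subgroup.closure Z) : ∃ n, X ⊆ WB Z n := by
  induction X, hX using Set.Finite.induction_on with
  | empty => exact ⟨0, by simp⟩
  | @insert a X _ _ ih =>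
    obtain ⟨n, hn⟩ := ih (fun x hx => hXZ (Set.mem_insert_of_mem a hx))
    obtain ⟨m, hm⟩ := exists_mem_WB (hXZ (Set.mem_insert a X))
    refine ⟨max m n, Set.insert_subset (WB_mono Z (le_max_left _ _) hm)
      (hn.trans (WB_mono Z (le_max_right _ _)))⟩

theorem lat (M : Model A E) (hcomm : ∀ a ∈ A, ∀ b ∈ A, a * b = b * a) (Z : Finset G)
    (hZ : (Z : Set G) ⊆ A) :
    ∃ K : ℕ, ∀ n : ℕ, ∀ z ∈ Subgroup.closure (Z : Set G), ‖M.ι z‖ ≤ n →
      z ∈ WB (Z : Set G) (K * (n + 1)) := by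
  obtain ⟨R, hR, hround⟩ := cov_round M Z hZ
  have hcl : Subgroup.closure (Z : Set G) ≤ A := (Subgroup.closure_le A).2 hZ
  obtain ⟨K, hK⟩ := cov_WB_of_finite (Z : Set G)
    {a | a ∈ Subgroup.closure (Z : Set G) ∧ ‖M.ι a‖ ≤ 2 * R + 1} (M.fin Z hZ _) (fun a ha => ha.1)
  have hsp : ∀ z ∈ Subgroup.closure (Z : Set G),
      M.ι z ∈ Submodule.span ℝ (M.ι '' (Z : Set G)) := by
    intro z hz
    induction hz using Subgroup.closure_induction with
    | mem x hx => exact Submodule.subset_span ⟨x, hx, rfl⟩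
    | one => rw [M.ι_one]; exact Submodule.zero_mem _
    | mul x y hx hy ihx ihy =>
      rw [M.ι_mul _ (hcl hx) _ (hcl hy)]
      exact Submodule.add_mem _ ihx ihy
    | inv x hx ih =>
      rw [M.ι_inv (hcl hx)]
      exact Submodule.neg_mem _ ih
  refine ⟨3 * K, fun n z hz hzn => ?_⟩
  have hn1 : (0 : ℝ) < (n : ℝ) + 1 := by positivity
  have hx : ∀ i : ℕ, ∃ x ∈ Subgroup.closure (Z : Set G),
      ‖((i : ℝ) / ((n : ℝ) + 1)) • M.ι z - M.ι x‖ ≤ R :=
    fun i => hround _ (Submodule.smul_mem _ _ (hsp z hz))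
  choose x hxm hxn using hx
  have hstep : ∀ i : ℕ, x i ∈ WB (Z : Set G) (K * (i + 1)) := by
    intro i
    induction i with
    | zero =>
      have h1 : x 0 ∈ WB (Z : Set G) K := by
        refine hK ⟨hxm 0, ?_⟩
        have h2 := hxn 0
        rw [Nat.cast_zero, zero_div, zero_smul, zero_sub, norm_neg] at h2
        linarith
      simpa using h1
    | succ i ih =>
      have h1 : (x i)⁻¹ * x (i + 1) ∈ WB (Z : Set G) K := by
        refine hK ⟨Subgroup.mul_mem _ (Subgroup.inv_mem _ (hxm i)) (hxm (i + 1)), ?_⟩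
        rw [cov_ι_div M (hcl (hxm i)) (hcl (hxm (i + 1)))]
        have h2 := hxn i
        have h3 := hxn (i + 1)
        have h4 : M.ι (x (i + 1)) - M.ι (x i) =
            (((i : ℝ) / ((n : ℝ) + 1)) • M.ι z - M.ι (x i)) -
            ((((i + 1 : ℕ) : ℝ) / ((n : ℝ) + 1)) • M.ι z - M.ι (x (i + 1))) +
            ((1 : ℝ) / ((n : ℝ) + 1)) • M.ι z := by
          have h5 : (((i + 1 : ℕ) : ℝ) / ((n : ℝ) + 1)) =
              (i : ℝ) / ((n : ℝ) + 1) + (1 : ℝ) / ((n : ℝ) + 1) := by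
            push_cast
            rw [add_div]
          rw [h5, add_smul]
          abel
        have h6 : ‖((1 : ℝ) / ((n : ℝ) + 1)) • M.ι z‖ ≤ 1 := by
          rw [norm_smul, Real.norm_eq_abs, abs_of_nonneg (by positivity), one_div,
            inv_mul_le_iff₀ hn1, mul_one]
          linarith
        rw [h4]
        calc _ ≤ ‖(((i : ℝ) / ((n : ℝ) + 1)) • M.ι z - M.ι (x i)) -
            ((((i + 1 : ℕ) : ℝ) / ((n : ℝ) + 1)) • M.ι z - M.ι (x (i + 1)))‖ +
            ‖((1 : ℝ) / ((n : ℝ) + 1)) • M.ι z‖ := norm_add_le _ _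
          _ ≤ (R + R) + 1 := by
            refine add_le_add ((norm_sub_le _ _).trans (add_le_add h2 h3)) h6
          _ = 2 * R + 1 := by ring
      have h7 := mul_mem_WB ih h1
      rw [mul_inv_cancel_left] at h7
      exact WB_mono _ (by ring_nf; omega) h7
  have hlast : (x (n + 1))⁻¹ * z ∈ WB (Z : Set G) K := by
    refine hK ⟨Subgroup.mul_mem _ (Subgroup.inv_mem _ (hxm (n + 1))) hz, ?_⟩
    rw [cov_ι_div M (hcl (hxm (n + 1))) (hcl hz)]
    have h2 := hxn (n + 1)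
    have h3 : (((n + 1 : ℕ) : ℝ) / ((n : ℝ) + 1)) = 1 := by
      push_cast
      exact div_self hn1.ne'
    rw [h3, one_smul] at h2
    linarith
  have h8 := mul_mem_WB (hstep (n + 1)) hlast
  rw [mul_inv_cancel_left] at h8
  refine WB_mono _ ?_ h8
  nlinarith [Nat.zero_le K, Nat.zero_le n, Nat.zero_le (K * n)]

end Pool.Agent.MET90
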