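import Mathlib

/-!
Definitions for the theorem: a finitely generated virtually metabelian group whose Foelner function
is at most exponential at infinitely many scales has finite Assouad-Nagata dimension.
-/

set_option autoImplicit false

namespace Pool.Agent.MET90

/-- products of at most `n` letters from `S` and `S⁻¹` -/
def WB {G : Type} [Group G] (S : Set G) (n : ℕ) : Set G :=
  {g | ∃ l : List G, l.length ≤ n ∧ (∀ y ∈ l, y ∈ S ∨ y⁻¹ ∈ S) ∧ l.prod = g}

/-- a family of balls -/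
structure IsBalls {G : Type} [Group G] (B : ℕ → Set G) : Prop where
  one_mem : (1 : G) ∈ B 0
  mono : ∀ {m n : ℕ}, m ≤ n → B m ⊆ B n
  inv_mem : ∀ {n : ℕ} {g : G}, g ∈ B n → g⁻¹ ∈ B n
  mul_mem : ∀ {m n : ℕ} {g h : G}, g ∈ B m → h ∈ B n → g * h ∈ B (m + n)

/-- finite Assouad-Nagata dimension with respect to a family of balls -/
def FAN {G : Type} [Group G] (B : ℕ → Set G) : Prop :=
  ∃ d C : ℕ, ∀ r : ℕ, 1 ≤ r → ∃ (c : G → Fin (d + 1)) (k : G → G), ∀ x y : G, c x = c y →
    (k x = k y → x⁻¹ * y ∈ B (C * r)) ∧ (k x ≠ k y → x⁻¹ * y ∉ B r)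

/-- The standing assumptions: `S` is a finite symmetric generating set containing `1`, and `A` is an
abelian normal subgroup with abelian quotient. -/
structure Setup {G : Type} [Group G] (S : Finset G) (A : Subgroup G) : Prop where
  gen : Subgroup.closure (S : Set G) = ⊤
  one_mem : (1 : G) ∈ S
  symm : ∀ s ∈ S, s⁻¹ ∈ S
  normal : A.Normal
  comm : ∀ a ∈ A, ∀ b ∈ A, a * b = b * a
  quot : ∀ g h : G, g * h * g⁻¹ * h⁻¹ ∈ A

/-- At infinitely many scales `n`, chains of elements of `A` of length at most `n` have at most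
`C₁ * n` members. -/
def L1 {G : Type} [Group G] (S : Set G) (A : Subgroup G) : Prop :=
  ∃ C₁ : ℕ, ∀ N : ℕ, ∃ n : ℕ, N ≤ n ∧ ∀ (D : ℕ) (g : Fin D → G), (∀ j, g j ∈ A) →
    (∀ j, g j ∈ WB S n) → (∀ j, g j ∉ Subgroup.closure (g '' {i | i < j})) → D ≤ C₁ * n

/-- A real model of the abelian normal subgroup `A`: a homomorphism `ι` of `A` to a real vector
space `E` with discrete image (on finitely generated subgroups) and finite kernel (on finitely
generated subgroups), equivariant for a linear action `ρ` of `G`. -/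
structure Model {G : Type} [Group G] (A : Subgroup G) (E : Type) [NormedAddCommGroup E]
    [NormedSpace ℝ E] where
  ι : G → E
  ρ : G →* Module.End ℝ E
  ι_mul : ∀ a ∈ A, ∀ b ∈ A, ι (a * b) = ι a + ι b
  ι_conj : ∀ g : G, ∀ a ∈ A, ι (g * a * g⁻¹) = ρ g (ι a)
  ρ_A : ∀ a ∈ A, ρ a = 1
  fin : ∀ Y : Finset G, (Y : Set G) ⊆ A → ∀ R : ℝ,
    {a | a ∈ Subgroup.closure (Y : Set G) ∧ ‖ι a‖ ≤ R}.Finite
  span : Submodule.span ℝ (ι '' (A : Set G)) = ⊤

/-- the filtration of `A` by degree -/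
def Lam {G : Type} [Group G] (S L : Finset G) (m : ℕ) : Subgroup G :=
  Subgroup.closure {x | ∃ s ∈ S, ∃ i ≤ m, ∃ l ∈ L, x = s ^ i * l * (s ^ i)⁻¹}

/-- the condition on a finite set `L` that all sequences `s ^ i b s ^ (-i)` are, modulo `ℤ[s] L`,
generated by finitely many terms -/
def Monic {G : Type} [Group G] (A : Subgroup G) (s : G) (L : Finset G) : Prop :=
  ∀ b ∈ A, ∃ m : ℕ, s ^ m * b * (s ^ m)⁻¹ ∈ Subgroup.closure
    ({x | ∃ i < m, x = s ^ i * b * (s ^ i)⁻¹} ∪ {x | ∃ i : ℕ, ∃ l ∈ L, x = s ^ i * l * (s ^ i)⁻¹})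

section Derivations

variable {G : Type} [Group G] {A : Subgroup G} {E : Type} [NormedAddCommGroup E] [NormedSpace ℝ E]

/-- derivations `c : G → E` for the action `ρ` -/
def IsDer (M : Model A E) (c : G → E) : Prop := ∀ g h : G, c (g * h) = c g + M.ρ g (c h)

lemma IsDer.map_one {M : Model A E} {c : G → E} (hc : IsDer M c) : c 1 = 0 := by
  have h := hc 1 1
  rw [mul_one, _root_.map_one, Module.End.one_apply] at h
  simpa using h

lemma Model.ι_one (M : Model A E) : M.ι 1 = 0 := by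
  have h := M.ι_mul 1 A.one_mem 1 A.one_mem
  rw [mul_one] at h
  simpa using h

lemma Model.ι_inv (M : Model A E) {a : G} (ha : a ∈ A) : M.ι a⁻¹ = -M.ι a := by
  have h := M.ι_mul a ha a⁻¹ (A.inv_mem ha)
  rw [mul_inv_cancel, M.ι_one] at h
  exact (neg_eq_of_add_eq_zero_right h.symm).symm

/-- the subgroup of the elements of `A` on which the derivation `c` agrees with `ι` -/
def Ac (M : Model A E) (c : G → E) (hc : IsDer M c) : Subgroup G where
  carrier := {a | a ∈ A ∧ c a = M.ι a}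
  mul_mem' := by
    rintro a b ⟨ha, ha'⟩ ⟨hb, hb'⟩
    refine ⟨A.mul_mem ha hb, ?_⟩
    rw [hc, ha', hb', M.ρ_A a ha, Module.End.one_apply, M.ι_mul a ha b hb]
  one_mem' := ⟨A.one_mem, by rw [hc.map_one, M.ι_one]⟩
  inv_mem' := by
    rintro a ⟨ha, ha'⟩
    refine ⟨A.inv_mem ha, ?_⟩
    have h := hc a a⁻¹
    rw [mul_inv_cancel, hc.map_one, M.ρ_A a ha, Module.End.one_apply] at h
    rw [M.ι_inv ha, ← ha']
    exact (neg_eq_of_add_eq_zero_right h.symm).symm

lemma mem_Ac {M : Model A E} {c : G → E} {hc : IsDer M c} {a : G} :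
    a ∈ Ac M c hc ↔ a ∈ A ∧ c a = M.ι a := Iff.rfl

end Derivations

end Pool.Agent.MET90
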