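import Pool.Agent.MET90.Lcs

/-!
Module DIGITS: powers of iterated commutators are short.

Let `γ_(c+1) = ⊥` (`γ_j = (⊤ : Subgroup G).lowerCentralSeries j`). For a sequence `s : ℕ → G` and exponents
`a : ℕ → ℕ` put `w_0 = s_0 ^ a_0`, `w_(j+1) = [s_(j+1) ^ a_(j+1), w_j]`.
MULTILINEARITY: `w_j(a) ≡ w_j(1) ^ (a_0 a_1 ⋯ a_j)` modulo `γ_(j+1)` (`w_j(1)`: all exponents `1`).
Induction on `j`, by bimultiplicativity of `γ_0 × γ_j → γ_(j+1) / γ_(j+2)`, `(x, u) ↦ [x, u]`, which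
depends only on `u` modulo `γ_(j+1)` (see module LCS for these facts; if `Lcs.lean` does not export
them, prove them here; they hold because the image of `γ_(j+1)` is central in `G ⧸ γ_(j+2)`).
For `j = c`: `w_c(a) = w_c(1) ^ (∏ a_i)`, as `γ_(c+1) = ⊥`.
Every `ζ ∈ Zc S c` is `w_c(1)` for some `s : ℕ → G` with values in `S`. Length of `w_c(a)`:
`≤ 2^c (a_0 + ⋯ + a_c)`. Let `k < n^(c+1)`, `k = ∑_{j ≤ c} d_j n^j` with `d_j < n` (`Nat.digits`, or by
induction on `c`); `ζ ^ (d_j n^j) = w_c(a)` with `a = (n, …, n, d_j, 1, …, 1)` (`j` entries `n`), of length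
`≤ 2^c (c+1) n`. So `ζ^k = ∏_j ζ^(d_j n^j)` has length `≤ (c+1)² 2^c n`.
-/

set_option autoImplicit false

namespace Pool.Agent.MET90

section Digits

variable {G : Type} [Group G]

private lemma dg_comm_mem {j : ℕ} (x : G) {u : G}
    (hu : u ∈ (⊤ : Subgroup G).lowerCentralSeries j) :
    x * u * x⁻¹ * u⁻¹ ∈ (⊤ : Subgroup G).lowerCentralSeries (j + 1) := by
  have h := Subgroup.commutator_mem_commutator hu (Subgroup.mem_top x)
  have h2 := Subgroup.inv_mem _ h
  rw [commutatorElement_inv, commutatorElement_def] at h2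
  exact h2

private lemma dg_conj_mem {j : ℕ} (x : G) {u : G}
    (hu : u ∈ (⊤ : Subgroup G).lowerCentralSeries j) :
    x * u * x⁻¹ ∈ (⊤ : Subgroup G).lowerCentralSeries j :=
  ((inferInstance : ((⊤ : Subgroup G).lowerCentralSeries j).Normal)).conj_mem u hu x

/-- `x` and `y` agree modulo `γ_j` -/
private def dgE (j : ℕ) (x y : G) : Prop :=
  (QuotientGroup.mk' ((⊤ : Subgroup G).lowerCentralSeries j)) x =
    (QuotientGroup.mk' ((⊤ : Subgroup G).lowerCentralSeries j)) y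

private lemma dgE_iff {j : ℕ} {x y : G} :
    dgE j x y ↔ ∃ v ∈ (⊤ : Subgroup G).lowerCentralSeries j, x * v = y := by
  unfold dgE
  rw [QuotientGroup.mk'_eq_mk']

private lemma dg_eq_one {j : ℕ} {v : G} (hv : v ∈ (⊤ : Subgroup G).lowerCentralSeries j) :
    (QuotientGroup.mk' ((⊤ : Subgroup G).lowerCentralSeries j)) v = 1 := by
  rw [← MonoidHom.mem_ker, QuotientGroup.ker_mk']
  exact hv

/-- step 1 -/
private lemma dg_one {j : ℕ} (x u : G) {v : G}
    (hv : v ∈ (⊤ : Subgroup G).lowerCentralSeries (j + 1)) :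
    dgE (j + 2) (x * (u * v) * x⁻¹ * (u * v)⁻¹) (x * u * x⁻¹ * u⁻¹) := by
  have e : x * (u * v) * x⁻¹ * (u * v)⁻¹ =
      (x * u * x⁻¹ * u⁻¹) * (u * (x * v * x⁻¹ * v⁻¹) * u⁻¹) := by group
  unfold dgE
  rw [e, map_mul, dg_eq_one (dg_conj_mem u (dg_comm_mem x hv)), mul_one]

/-- step 2 -/
private lemma dg_two {j : ℕ} (x : G) {u : G}
    (hu : u ∈ (⊤ : Subgroup G).lowerCentralSeries j) (a : ℕ) :
    dgE (j + 2) (x ^ a * u * (x ^ a)⁻¹ * u⁻¹) ((x * u * x⁻¹ * u⁻¹) ^ a) := by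
  induction a with
  | zero => simp [dgE]
  | succ a ih =>
    have e : x ^ (a + 1) * u * (x ^ (a + 1))⁻¹ * u⁻¹ =
        ((x ^ a) * (x * u * x⁻¹ * u⁻¹) * (x ^ a)⁻¹ * (x * u * x⁻¹ * u⁻¹)⁻¹) *
        ((x * u * x⁻¹ * u⁻¹) * (x ^ a * u * (x ^ a)⁻¹ * u⁻¹)) := by
      rw [pow_succ]
      group
    unfold dgE at ih ⊢
    rw [e, map_mul, dg_eq_one (dg_comm_mem (x ^ a) (dg_comm_mem x hu)), one_mul, map_mul, ih,
      ← map_mul, ← pow_succ']

/-- step 3 -/
private lemma dg_three {j : ℕ} (x : G) {u : G}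
    (hu : u ∈ (⊤ : Subgroup G).lowerCentralSeries j) (b : ℕ) :
    dgE (j + 2) (x * u ^ b * x⁻¹ * (u ^ b)⁻¹) ((x * u * x⁻¹ * u⁻¹) ^ b) := by
  induction b with
  | zero => simp [dgE]
  | succ b ih =>
    have e : x * u ^ (b + 1) * x⁻¹ * (u ^ (b + 1))⁻¹ =
        (x * u ^ b * x⁻¹ * (u ^ b)⁻¹) *
        (((u ^ b) * (x * u * x⁻¹ * u⁻¹) * (u ^ b)⁻¹ * (x * u * x⁻¹ * u⁻¹)⁻¹) *
        (x * u * x⁻¹ * u⁻¹)) := by
      rw [pow_succ]
      group
    unfold dgE at ih ⊢
    rw [e, map_mul _ (x * u ^ b * x⁻¹ * (u ^ b)⁻¹), ih,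
      map_mul _ ((u ^ b) * (x * u * x⁻¹ * u⁻¹) * (u ^ b)⁻¹ * (x * u * x⁻¹ * u⁻¹)⁻¹),
      dg_eq_one (dg_comm_mem (u ^ b) (dg_comm_mem x hu)), one_mul, ← map_mul, ← pow_succ]

/-- the iterated commutators with exponents -/
private def dgw (s : ℕ → G) (a : ℕ → ℕ) : ℕ → G
  | 0 => s 0 ^ a 0
  | (j + 1) => s (j + 1) ^ a (j + 1) * dgw s a j * (s (j + 1) ^ a (j + 1))⁻¹ * (dgw s a j)⁻¹

private lemma dgw_mem (s : ℕ → G) (a : ℕ → ℕ) (j : ℕ) :
    dgw s a j ∈ (⊤ : Subgroup G).lowerCentralSeries j := by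
  induction j with
  | zero => exact Subgroup.mem_top _
  | succ j ih => exact dg_comm_mem _ ih

private lemma dgw_pow (s : ℕ → G) (a : ℕ → ℕ) (j : ℕ) :
    ∃ v ∈ (⊤ : Subgroup G).lowerCentralSeries (j + 1),
      dgw s a j = dgw s (fun _ => 1) j ^ (∏ i ∈ Finset.range (j + 1), a i) * v := by
  induction j with
  | zero => exact ⟨1, Subgroup.one_mem _, by simp [dgw]⟩
  | succ j ih =>
    obtain ⟨v, hv, e⟩ := ih
    set u := dgw s (fun _ => 1) j with hu
    set b := ∏ i ∈ Finset.range (j + 1), a i with hb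
    have hu' : u ∈ (⊤ : Subgroup G).lowerCentralSeries j := dgw_mem _ _ _
    have hub : u ^ b ∈ (⊤ : Subgroup G).lowerCentralSeries j := Subgroup.pow_mem _ hu' b
    have key : dgE (j + 2) ((s (j + 1) * u * (s (j + 1))⁻¹ * u⁻¹) ^ (b * a (j + 1)))
        (dgw s a (j + 1)) := by
      have h1 := dg_one (j := j) (s (j + 1) ^ a (j + 1)) (u ^ b) hv
      have h2 := dg_two (s (j + 1)) hub (a (j + 1))
      have h3 := dg_three (s (j + 1)) hu' b
      unfold dgE at h1 h2 h3 ⊢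
      show _ = (QuotientGroup.mk' _) (s (j + 1) ^ a (j + 1) * dgw s a j *
        (s (j + 1) ^ a (j + 1))⁻¹ * (dgw s a j)⁻¹)
      rw [e, h1, h2, map_pow _ (s (j + 1) * u ^ b * (s (j + 1))⁻¹ * (u ^ b)⁻¹), h3, ← map_pow,
        ← pow_mul]
    obtain ⟨w, hw, e2⟩ := dgE_iff.1 key
    refine ⟨w, hw, ?_⟩
    rw [← e2, Finset.prod_range_succ]
    congr 2
    show _ = s (j + 1) ^ 1 * u * (s (j + 1) ^ 1)⁻¹ * u⁻¹
    rw [pow_one]

private lemma dgw_WB {S : Set G} {s : ℕ → G} (hs : ∀ i, s i ∈ S) {a : ℕ → ℕ} {M : ℕ}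
    (ha : ∀ i, a i ≤ M) (j : ℕ) : dgw s a j ∈ WB S (4 ^ j * M) := by
  have hp : ∀ i, s i ^ a i ∈ WB S M := fun i =>
    WB_mono S (by simpa using ha i) (pow_mem_WB (mem_WB_one (hs i)) (a i))
  induction j with
  | zero => simpa [dgw] using hp 0
  | succ j ih =>
    have h := mul_mem_WB (mul_mem_WB (mul_mem_WB (hp (j + 1)) ih) (inv_mem_WB (hp (j + 1))))
      (inv_mem_WB ih)
    refine WB_mono S ?_ h
    have h1 : 1 ≤ 4 ^ j := Nat.one_le_pow _ _ (by norm_num)
    rw [pow_succ]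
    nlinarith

private lemma dgw_congr {s s' : ℕ → G} {a : ℕ → ℕ} {j : ℕ} (h : ∀ i ≤ j, s i = s' i) :
    dgw s a j = dgw s' a j := by
  induction j with
  | zero => simp only [dgw]; rw [h 0 le_rfl]
  | succ j ih =>
    simp only [dgw]
    rw [h (j + 1) le_rfl, ih (fun i hi => h i (hi.trans (Nat.le_succ j)))]

private lemma dgw_exists {S : Set G} {j : ℕ} {ζ : G} (hζ : ζ ∈ Zc S j) :
    ∃ s : ℕ → G, (∀ i, s i ∈ S) ∧ dgw s (fun _ => 1) j = ζ := by
  induction j generalizing ζ with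
  | zero => exact ⟨fun _ => ζ, fun _ => hζ, by simp [dgw]⟩
  | succ j ih =>
    obtain ⟨x, hx, z, hz, rfl⟩ := hζ
    obtain ⟨s, hs, rfl⟩ := ih hz
    refine ⟨Function.update s (j + 1) x, ?_, ?_⟩
    · intro i
      by_cases h : i = j + 1
      · subst h; simpa using hx
      · rw [Function.update_of_ne h]; exact hs i
    · have e : dgw (Function.update s (j + 1) x) (fun _ => 1) j = dgw s (fun _ => 1) j := by
        refine dgw_congr fun i hi => ?_
        rw [Function.update_of_ne (by omega)]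
      simp only [dgw, Function.update_self, pow_one, e]

end Digits

theorem pow_mem_of_iter {G : Type} [Group G] (S : Set G) (c : ℕ)
    (hc : (⊤ : Subgroup G).lowerCentralSeries (c + 1) = ⊥) :
    ∃ K : ℕ, ∀ ζ ∈ Zc S c, ∀ n : ℕ, 1 ≤ n → ∀ k : ℕ, k < n ^ (c + 1) →
      ζ ^ k ∈ WB S (K * n) := by
  refine ⟨(c + 1) * 4 ^ c, ?_⟩
  intro ζ hζ n hn k hk
  obtain ⟨s, hs, rfl⟩ := dgw_exists hζ
  -- one digit
  have digit : ∀ m ≤ c, ∀ d ≤ n, dgw s (fun _ => 1) c ^ (d * n ^ m) ∈ WB S (4 ^ c * n) := by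
    intro m hm d hd
    obtain ⟨v, hv, e⟩ := dgw_pow s (fun i => if i < m then n else if i = m then d else 1) c
    rw [hc, Subgroup.mem_bot] at hv
    subst hv
    have hprod : ∏ i ∈ Finset.range (c + 1), (if i < m then n else if i = m then d else 1) =
        d * n ^ m := by
      have e1 : c + 1 = m + (1 + (c - m)) := by omega
      rw [e1, Finset.prod_range_add, Finset.prod_range_add]
      have p1 : ∏ i ∈ Finset.range m, (if i < m then n else if i = m then d else 1) = n ^ m := by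
        rw [Finset.prod_congr rfl (g := fun _ => n) (fun i hi => by
          rw [if_pos (Finset.mem_range.1 hi)])]
        simp
      have p3 : ∏ i ∈ Finset.range (c - m), (if m + (1 + i) < m then n else
          if m + (1 + i) = m then d else 1) = 1 := by
        refine Finset.prod_eq_one fun i _ => ?_
        rw [if_neg (by omega), if_neg (by omega)]
      rw [p1, p3]
      simp
      ring
    rw [hprod, mul_one] at e
    rw [← e]
    refine dgw_WB hs (fun i => ?_) c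
    split_ifs
    · exact le_rfl
    · exact hd
    · exact hn
  have main : ∀ m ≤ c + 1, ∀ k < n ^ m, dgw s (fun _ => 1) c ^ k ∈ WB S (m * (4 ^ c * n)) := by
    intro m
    induction m with
    | zero =>
      intro _ k hk
      have : k = 0 := by simpa using hk
      subst this
      simpa using one_mem_WB S 0
    | succ m ih =>
      intro hm k hk
      have hnm : 0 < n ^ m := Nat.pow_pos (by omega)
      have hd : k / n ^ m < n := by
        rw [Nat.div_lt_iff_lt_mul hnm, ← pow_succ']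
        exact hk
      have h1 := digit m (by omega) (k / n ^ m) hd.le
      have h2 := ih (by omega) (k % n ^ m) (Nat.mod_lt _ hnm)
      have h3 := mul_mem_WB h1 h2
      rw [← pow_add] at h3
      have e : k / n ^ m * n ^ m + k % n ^ m = k := Nat.div_add_mod' k (n ^ m)
      rw [e] at h3
      refine WB_mono S ?_ h3
      rw [Nat.succ_mul, Nat.add_comm]
  have := main (c + 1) le_rfl k hk
  rwa [← Nat.mul_assoc] at this

end Pool.Agent.MET90
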