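import Pool.Agent.MET90.Chain
import Pool.Agent.MET90.Basic

/-!
Module EXIT: chains of short commuting elements in a group with small Foelner sets.
-/

set_option autoImplicit false
open Classical

namespace Pool.Agent.MET90

theorem exit_le {G : Type} [Group G] (S F : Finset G) (m : ℕ) (g : G)
    (hg : g ∈ WB (S : Set G) m) :
    (F.filter (fun x => x * g ∉ F)).card ≤
      m * (F.filter (fun x => ∃ s ∈ S, x * s ∉ F ∨ x * s⁻¹ ∉ F)).card := by
  obtain ⟨l, hl1, hl2, rfl⟩ := hg
  set bd := F.filter (fun x => ∃ s ∈ S, x * s ∉ F ∨ x * s⁻¹ ∉ F) with hbd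
  have key : (F.filter (fun x => x * l.prod ∉ F)).card ≤ l.length * bd.card := by
    clear hl1
    induction l with
    | nil =>
      have : F.filter (fun x => x * ([] : List G).prod ∉ F) = ∅ := by
        rw [Finset.filter_eq_empty_iff]
        intro x hx
        simpa using hx
      rw [this]
      simp
    | cons s l ih =>
      have ih' := ih (fun y hy => hl2 y (List.mem_cons_of_mem _ hy))
      have hs := hl2 s List.mem_cons_self
      have hsub : F.filter (fun x => x * (s :: l).prod ∉ F) ⊆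
          bd ∪ (F.filter (fun x => x * l.prod ∉ F)).image (fun x => x * s⁻¹) := by
        intro x hx
        rw [Finset.mem_filter] at hx
        by_cases hxs : x * s ∈ F
        · refine Finset.mem_union_right _ (Finset.mem_image.mpr ⟨x * s, ?_, by group⟩)
          rw [Finset.mem_filter]
          refine ⟨hxs, ?_⟩
          have h2 := hx.2
          rw [List.prod_cons, ← mul_assoc] at h2
          exact h2
        · refine Finset.mem_union_left _ ?_
          rw [hbd, Finset.mem_filter]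
          refine ⟨hx.1, ?_⟩
          rcases hs with h | h
          · exact ⟨s, h, Or.inl hxs⟩
          · exact ⟨s⁻¹, h, Or.inr (by simpa using hxs)⟩
      calc (F.filter (fun x => x * (s :: l).prod ∉ F)).card
          ≤ (bd ∪ (F.filter (fun x => x * l.prod ∉ F)).image (fun x => x * s⁻¹)).card :=
            Finset.card_le_card hsub
        _ ≤ bd.card + (F.filter (fun x => x * l.prod ∉ F)).card :=
            (Finset.card_union_le _ _).trans (Nat.add_le_add_left Finset.card_image_le _)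
        _ ≤ bd.card + l.length * bd.card := Nat.add_le_add_left ih' _
        _ = (s :: l).length * bd.card := by rw [List.length_cons]; ring
  exact key.trans (Nat.mul_le_mul_right _ hl1)

theorem chain_bound {G : Type} [Group G] (S : Finset G)
    (hF : ∃ C : ℕ, ∀ N : ℕ, ∃ n : ℕ, N ≤ n ∧ ∃ F : Finset G, F.Nonempty ∧
      n * (F.filter (fun x => ∃ s ∈ S, x * s ∉ F ∨ x * s⁻¹ ∉ F)).card ≤ F.card ∧
      F.card ≤ C ^ n) :
    ∃ C₁ : ℕ, ∀ N : ℕ, ∃ n : ℕ, N ≤ n ∧ ∀ (D : ℕ) (g : Fin D → G),
      (∀ i j, g i * g j = g j * g i) → (∀ j, g j ∈ WB (S : Set G) n) →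
      (∀ j, g j ∉ Subgroup.closure (g '' {i | i < j})) → D ≤ C₁ * n := by
  obtain ⟨C, hC⟩ := hF
  refine ⟨12 * C, fun N => ?_⟩
  obtain ⟨n₀, hn₀, F, hFne, hF1, hF2⟩ := hC (2 * N + 2)
  refine ⟨n₀ / 2, by omega, fun D g hcomm hlen hind => ?_⟩
  set n := n₀ / 2 with hn
  have hn1 : 1 ≤ n := by omega
  have hn2 : 2 * n ≤ n₀ := by omega
  have hn3 : n₀ ≤ 3 * n := by omega
  set bd := (F.filter (fun x => ∃ s ∈ S, x * s ∉ F ∨ x * s⁻¹ ∉ F)).card with hbd
  have hterm : ∀ j, (F.card : ℝ) / 2 ≤ ((F.filter (fun x => x * g j ∈ F)).card : ℝ) := by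
    intro j
    have h1 := exit_le S F n (g j) (hlen j)
    rw [← hbd] at h1
    have h2 : (F.filter (fun x => x * g j ∈ F)).card + (F.filter (fun x => x * g j ∉ F)).card =
        F.card := Finset.card_filter_add_card_filter_not _
    have h3 : 2 * (F.filter (fun x => x * g j ∉ F)).card ≤ F.card := by
      calc 2 * (F.filter (fun x => x * g j ∉ F)).card ≤ 2 * (n * bd) := by omega
        _ = (2 * n) * bd := by ring
        _ ≤ n₀ * bd := Nat.mul_le_mul_right _ hn2
        _ ≤ F.card := hF1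
    have h4 : (F.card : ℝ) ≤ 2 * ((F.filter (fun x => x * g j ∈ F)).card : ℝ) := by
      have : F.card ≤ 2 * (F.filter (fun x => x * g j ∈ F)).card := by omega
      exact_mod_cast this
    linarith
  have hchain := chain_lemma D g hcomm hind F
  have hFpos : (0 : ℝ) < F.card := by exact_mod_cast hFne.card_pos
  have hsum : (D : ℝ) * ((F.card : ℝ) / 2) ≤
      ∑ j, ((F.filter (fun x => x * g j ∈ F)).card : ℝ) := by
    calc (D : ℝ) * ((F.card : ℝ) / 2) = ∑ _j : Fin D, (F.card : ℝ) / 2 := by simp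
      _ ≤ _ := Finset.sum_le_sum (fun j _ => hterm j)
  have hlog2 : 0 < Real.log 2 := Real.log_pos (by norm_num)
  -- log |F| ≤ n₀ * C * log 2
  have hlogF : Real.log F.card ≤ n₀ * (C * Real.log 2) := by
    have hF1' : (1 : ℝ) ≤ F.card := by exact_mod_cast hFne.card_pos
    have h1 : (F.card : ℝ) ≤ ((2 : ℝ) ^ C) ^ n₀ := by
      have h2 : (F.card : ℝ) ≤ (C : ℝ) ^ n₀ := by exact_mod_cast hF2
      have h3 : (C : ℝ) ≤ (2 : ℝ) ^ C := by
        have : C ≤ 2 ^ C := (Nat.lt_two_pow_self).le
        exact_mod_cast this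
      exact h2.trans (pow_le_pow_left₀ (Nat.cast_nonneg C) h3 n₀)
    calc Real.log F.card ≤ Real.log (((2 : ℝ) ^ C) ^ n₀) := Real.log_le_log (by linarith) h1
      _ = n₀ * (C * Real.log 2) := by rw [Real.log_pow, Real.log_pow]
  have h5 : (D : ℝ) * ((F.card : ℝ) / 2) * Real.log 2 ≤
      2 * F.card * (n₀ * (C * Real.log 2)) := by
    calc (D : ℝ) * ((F.card : ℝ) / 2) * Real.log 2
        ≤ (∑ j, ((F.filter (fun x => x * g j ∈ F)).card : ℝ)) * Real.log 2 := by gcongr
      _ ≤ 2 * F.card * Real.log F.card := hchain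
      _ ≤ _ := by gcongr
  have h6 : (D : ℝ) ≤ 4 * (n₀ * C) := by
    have h7 : (D : ℝ) * (F.card * Real.log 2) ≤ 4 * (n₀ * C) * (F.card * Real.log 2) := by
      nlinarith [h5]
    exact le_of_mul_le_mul_right h7 (by positivity)
  have h8 : (D : ℝ) ≤ 12 * C * n := by
    have h9 : (n₀ : ℝ) ≤ 3 * n := by exact_mod_cast hn3
    have hC0 : (0 : ℝ) ≤ C := Nat.cast_nonneg C
    nlinarith
  exact_mod_cast h8

end Pool.Agent.MET90
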