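import Pool.Agent.MET90.Basic

/-!
Module EXT: extension lemma for finite Assouad-Nagata dimension.
-/

set_option autoImplicit false

namespace Pool.Agent.MET90

theorem FAN_extension {G : Type} [Group G] (B : ℕ → Set G) (hB : IsBalls B) (N : Subgroup G)
    [N.Normal] (h1 : FAN (fun n => ({x : N | (x : G) ∈ B n} : Set N)))
    (h2 : FAN (fun n => (QuotientGroup.mk' N) '' B n)) : FAN B := by
  classical
  obtain ⟨d₂, C₂, h1⟩ := h1
  obtain ⟨d₁, C₁, h2⟩ := h2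
  refine FAN_of_fintype B ((d₁ + 1) * (d₂ + 1)) (C₁ + C₂ * (2 * C₁ + 1) + C₁) (fun r hr => ?_)
  obtain ⟨c₁, k₁, H₁⟩ := h2 r hr
  obtain ⟨c₂, k₂, H₂⟩ := h1 ((2 * C₁ + 1) * r) (by nlinarith)
  set π : G →* G ⧸ N := QuotientGroup.mk' N with hπ
  have hrep : ∀ p : Fin (d₁ + 1) × (G ⧸ N), ∃ g : G, ∀ x : G, (c₁ (π x), k₁ (π x)) = p →
      (c₁ (π g), k₁ (π g)) = p := by
    intro p
    by_cases h : ∃ x : G, (c₁ (π x), k₁ (π x)) = p
    · obtain ⟨x, hx⟩ := h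
      exact ⟨x, fun _ _ => hx⟩
    · push Not at h
      exact ⟨1, fun x hx => absurd hx (h x)⟩
  choose rep hrep using hrep
  have hb : ∀ x : G, ∃ b ∈ B (C₁ * r), π b = (π (rep (c₁ (π x), k₁ (π x))))⁻¹ * π x := by
    intro x
    have h := hrep (c₁ (π x), k₁ (π x)) x rfl
    rw [Prod.mk.injEq] at h
    obtain ⟨b, hb, hb2⟩ := (H₁ _ (π x) h.1).1 h.2
    exact ⟨b, hb, hb2⟩
  choose b hbB hbπ using hb
  let g : G → G := fun x => rep (c₁ (π x), k₁ (π x))
  have hκ : ∀ x : G, (g x)⁻¹ * x * (b x)⁻¹ ∈ N := by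
    intro x
    rw [← QuotientGroup.eq_one_iff]
    change π ((g x)⁻¹ * x * (b x)⁻¹) = 1
    rw [map_mul, map_mul, map_inv, map_inv, hbπ x]
    simp [g]
  let κ : G → N := fun x => ⟨(g x)⁻¹ * x * (b x)⁻¹, hκ x⟩
  have hx : ∀ x : G, x = g x * (κ x : G) * b x := by
    intro x
    simp only [κ]
    group
  have hxy : ∀ x y : G, g x = g y → x⁻¹ * y = (b x)⁻¹ * (((κ x)⁻¹ * κ y : N) : G) * b y := by
    intro x y h
    conv_lhs => rw [hx x, hx y, h]
    push_cast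
    group
  refine ⟨(G ⧸ N) × N, Fin (d₁ + 1) × Fin (d₂ + 1), inferInstance,
    fun x => (c₁ (π x), c₂ (κ x)), fun x => (k₁ (π x), k₂ (κ x)), by simp, ?_⟩
  intro x y hc
  rw [Prod.mk.injEq] at hc
  constructor
  · intro hk
    rw [Prod.mk.injEq] at hk
    have hg : g x = g y := by
      simp only [g, hc.1, hk.1]
    rw [hxy x y hg]
    have h3 := (H₂ (κ x) (κ y) hc.2).1 hk.2
    have h4 := hB.mul_mem (hB.mul_mem (hB.inv_mem (hbB x)) h3) (hbB y)
    refine hB.mono (le_of_eq ?_) h4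
    ring
  · intro hk hxyB
    by_cases h : k₁ (π x) = k₁ (π y)
    · have h' : k₂ (κ x) ≠ k₂ (κ y) := by
        intro h''
        exact hk (Prod.ext h h'')
      have hg : g x = g y := by
        simp only [g, hc.1, h]
      refine (H₂ (κ x) (κ y) hc.2).2 h' ?_
      change (((κ x)⁻¹ * κ y : N) : G) ∈ B ((2 * C₁ + 1) * r)
      have h5 : (((κ x)⁻¹ * κ y : N) : G) = b x * (x⁻¹ * y) * (b y)⁻¹ := by
        rw [hxy x y hg]
        group
      rw [h5]
      have h4 := hB.mul_mem (hB.mul_mem (hbB x) hxyB) (hB.inv_mem (hbB y))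
      refine hB.mono (le_of_eq ?_) h4
      ring
    · refine (H₁ (π x) (π y) hc.1).2 h ⟨x⁻¹ * y, hxyB, ?_⟩
      rw [map_mul, map_inv]

end Pool.Agent.MET90
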