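import Pool.Agent.MET90.Basic

/-!
Module FA: for `a ∈ A` and `s ∈ S` the sequence `s^i a s^(-i)` is dependent: some nonzero power of one
term lies in the subgroup generated by the previous terms.

Proof. Write `x_i = s^i a s^(-i) ∈ A`, and suppose `x_m ^ k ∉ ⟨x_i : i < m⟩` for all `m` and all `k ≠ 0`.
For `J, I ≥ 1` consider the `I * J` elements `x_i ^ (2^j)`, `0 ≤ i < I`, `0 ≤ j < J`, ordered with `i`
outer increasing and `j` inner DEcreasing (index `p = i J + (J-1-j)`). None is in the subgroup generated by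
the previous ones: the previous ones lie in `⟨x_i' : i' < i⟩ ⊔ ⟨x_i ^ (2^(j+1))⟩`, and
`x_i^(2^j) = u * x_i^(2^(j+1) l)` gives `x_i ^ (2^j (1 - 2 l)) ∈ ⟨x_i' : i' < i⟩`, a nonzero exponent.
Lengths: `x_i^(2^j) = s^i a^(2^j) s^(-i)` has length at most `2 i + 2^j |a|`. Let `C₁` be the constant of
`L1`; choose `J = 8 C₁ + 1` and `N = 2^(J+1) |a| + 8`; take `n ≥ N` from `L1` and `I = n / 4`: all elements
have length `≤ 2 i + 2^J |a| ≤ n/2 + n/2`, so `I J ≤ C₁ n`; but `8 (n/4) ≥ n`, so `8 I J ≥ n J > 8 C₁ n`: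
contradiction. (No logarithm needed: `J` is a constant.)
-/

set_option autoImplicit false

namespace Pool.Agent.MET90

theorem exists_dependence {G : Type} [Group G] {S : Finset G} {A : Subgroup G} (hs : Setup S A)
    (h1 : L1 (S : Set G) A) (a : G) (ha : a ∈ A) (s : G) (hsS : s ∈ S) :
    ∃ m k : ℕ, 0 < k ∧ (s ^ m * a * (s ^ m)⁻¹) ^ k ∈
      Subgroup.closure {x | ∃ i < m, x = s ^ i * a * (s ^ i)⁻¹} := by
  by_contra hcon
  push Not at hcon
  obtain ⟨C₁, hC⟩ := h1
  obtain ⟨na, hna⟩ := exists_mem_WB (S := (S : Set G)) (g := a) (by rw [hs.gen]; trivial)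
  set J : ℕ := 8 * C₁ + 1 with hJ
  obtain ⟨n, hn, hD⟩ := hC (2 ^ (J + 1) * na + 8)
  set I : ℕ := n / 4 with hI
  set x : ℕ → G := fun i => s ^ i * a * (s ^ i)⁻¹ with hx
  have hJpos : 0 < J := by omega
  have hxA : ∀ i, x i ∈ A := fun i => hs.normal.conj_mem a ha (s ^ i)
  set g : Fin (I * J) → G := fun p => x ((p : ℕ) / J) ^ (2 ^ (J - 1 - (p : ℕ) % J)) with hg
  have hkey : I * J ≤ C₁ * n := by
    refine hD (I * J) g (fun p => A.pow_mem (hxA _) _) (fun p => ?_) (fun p hp => ?_)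
    · -- lengths
      have hi : (p : ℕ) / J < I := Nat.div_lt_of_lt_mul (lt_of_lt_of_eq p.2 (Nat.mul_comm I J))
      have e1 : g p = s ^ ((p : ℕ) / J) * a ^ (2 ^ (J - 1 - (p : ℕ) % J)) *
          (s ^ ((p : ℕ) / J))⁻¹ := by
        simp only [hg, hx, conj_pow]
      rw [e1]
      have h2 : s ^ ((p : ℕ) / J) ∈ WB (S : Set G) ((p : ℕ) / J * 1) :=
        pow_mem_WB (mem_WB_one (by exact_mod_cast hsS)) _
      have h3 : a ^ (2 ^ (J - 1 - (p : ℕ) % J)) ∈
          WB (S : Set G) (2 ^ (J - 1 - (p : ℕ) % J) * na) := pow_mem_WB hna _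
      refine WB_mono _ ?_ (conj_mem_WB h2 h3)
      have h4 : 2 ^ (J - 1 - (p : ℕ) % J) * na ≤ 2 ^ J * na :=
        Nat.mul_le_mul_right _ (Nat.pow_le_pow_right (by norm_num) (by omega))
      have h5 : 2 ^ (J + 1) * na = 2 * (2 ^ J * na) := by rw [pow_succ]; ring
      omega
    · -- independence
      set i : ℕ := (p : ℕ) / J with hi
      set r : ℕ := (p : ℕ) % J with hr
      have hrJ : r < J := Nat.mod_lt _ hJpos
      set H : Subgroup G := Subgroup.closure {y | ∃ i' < i, y = s ^ i' * a * (s ^ i')⁻¹} with hH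
      have hHA : H ≤ A := by
        rw [hH, Subgroup.closure_le]
        rintro y ⟨i', _, rfl⟩
        exact hxA i'
      have hgen : ∀ y ∈ Subgroup.closure (g '' {q | q < p}),
          ∃ h ∈ H, ∃ l : ℤ, y = h * (x i ^ (2 ^ (J - 1 - r + 1))) ^ l := by
        intro y hy
        induction hy using Subgroup.closure_induction with
        | mem y hy =>
          obtain ⟨q, hq, rfl⟩ := hy
          have hq' : (q : ℕ) < (p : ℕ) := hq
          have hqi : (q : ℕ) / J ≤ i := Nat.div_le_div_right hq'.le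
          rcases Nat.lt_or_ge ((q : ℕ) / J) i with hlt | hge
          · refine ⟨g q, H.pow_mem (Subgroup.subset_closure ⟨_, hlt, rfl⟩) _, 0, by simp⟩
          · have he : (q : ℕ) / J = i := le_antisymm hqi hge
            have hqr : (q : ℕ) % J < r := by
              have e1 := Nat.div_add_mod (q : ℕ) J
              have e2 := Nat.div_add_mod (p : ℕ) J
              rw [he] at e1
              rw [← hi] at e2
              omega
            refine ⟨1, H.one_mem, ((2 ^ (r - 1 - (q : ℕ) % J) : ℕ) : ℤ), ?_⟩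
            have e3 : J - 1 - (q : ℕ) % J = (J - 1 - r + 1) + (r - 1 - (q : ℕ) % J) := by omega
            simp only [hg, he]
            rw [one_mul, zpow_natCast, ← pow_mul, ← pow_add, ← e3]
        | one => exact ⟨1, H.one_mem, 0, by simp⟩
        | mul y z _ _ ihy ihz =>
          obtain ⟨h, hh, l, rfl⟩ := ihy
          obtain ⟨h', hh', l', rfl⟩ := ihz
          refine ⟨h * h', H.mul_mem hh hh', l + l', ?_⟩
          have hc : (x i ^ (2 ^ (J - 1 - r + 1))) ^ l * h' =
              h' * (x i ^ (2 ^ (J - 1 - r + 1))) ^ l :=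
            hs.comm _ (A.zpow_mem (A.pow_mem (hxA i) _) _) _ (hHA hh')
          rw [zpow_add, mul_assoc h, ← mul_assoc _ h', hc]
          group
        | inv y _ ihy =>
          obtain ⟨h, hh, l, rfl⟩ := ihy
          refine ⟨h⁻¹, H.inv_mem hh, -l, ?_⟩
          rw [mul_inv_rev, ← zpow_neg]
          exact hs.comm _ (A.zpow_mem (A.pow_mem (hxA i) _) _) _ (A.inv_mem (hHA hh))
      obtain ⟨h, hh, l, hl⟩ := hgen _ hp
      have hgp : g p = x i ^ (2 ^ (J - 1 - r)) := rfl
      rw [hgp] at hl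
      have hz : x i ^ ((2 : ℤ) ^ (J - 1 - r) * (1 - 2 * l)) = h := by
        have e1 : x i ^ ((2 : ℤ) ^ (J - 1 - r)) = x i ^ (2 ^ (J - 1 - r)) := by
          rw [← zpow_natCast]; push_cast; rfl
        have e2 : (x i ^ (2 ^ (J - 1 - r + 1))) ^ l = x i ^ ((2 : ℤ) ^ (J - 1 - r) * (2 * l)) := by
          rw [← zpow_natCast, ← zpow_mul]
          congr 1
          push_cast
          ring
        rw [mul_sub, mul_one, zpow_sub, e1, ← e2, hl]
        group
      have hne : (2 : ℤ) ^ (J - 1 - r) * (1 - 2 * l) ≠ 0 := by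
        apply mul_ne_zero (by positivity)
        omega
      refine hcon i (((2 : ℤ) ^ (J - 1 - r) * (1 - 2 * l)).natAbs) (Int.natAbs_pos.2 hne) ?_
      have hmem : x i ^ ((2 : ℤ) ^ (J - 1 - r) * (1 - 2 * l)) ∈ H := by rw [hz]; exact hh
      have hgoal : x i ^ (((2 : ℤ) ^ (J - 1 - r) * (1 - 2 * l)).natAbs) ∈ H := by
        rcases Int.natAbs_eq ((2 : ℤ) ^ (J - 1 - r) * (1 - 2 * l)) with h5 | h5
        · rw [← zpow_natCast, ← h5]; exact hmem
        · rw [← zpow_natCast]
          have : (((((2 : ℤ) ^ (J - 1 - r) * (1 - 2 * l)).natAbs) : ℕ) : ℤ) =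
              -((2 : ℤ) ^ (J - 1 - r) * (1 - 2 * l)) := by omega
          rw [this, zpow_neg]
          exact H.inv_mem hmem
      exact hgoal
  have h6 : n ≤ 8 * I := by omega
  have h7 : n * J ≤ 8 * (I * J) := by
    calc n * J ≤ 8 * I * J := Nat.mul_le_mul_right _ h6
      _ = 8 * (I * J) := by ring
  have h8 : n * J = 8 * (C₁ * n) + n := by rw [hJ]; ring
  omega

end Pool.Agent.MET90
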