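import Pool.Agent.MET90.Spanner
import Pool.Agent.MET90.Basic

/-!
Module FANAC: `A_c` has finite Assouad-Nagata dimension in the balls `A_c ∩ WB S n`.

Abstract form: `N` a subgroup (instead of `A_c`) with a homomorphism `ι : N → E` (`E` finite dimensional), balls
`B`, and the key property for all `q ≤ dim E` with one constant `C`.

Proof. Scale `r ≥ 1`. `Σ = N ∩ B r`, finite (`hfin`), `H = ⟨Σ⟩ ≤ N`. `spanner` for `X = ι '' Σ`: `b_i = ι (g_i)`,
`g_i ∈ Σ`, `i < q ≤ dim E`. For `h ∈ H` the vector `ι h` has unique coordinates `λ_i(h)` in the basis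
`b` of `span X` (additive in `h`: extend to linear functionals on `E`), and `|λ_i(h)| ≤ 1` for
`h ∈ Σ`. For `x ∈ N` choose a representative `g_x` of the coset `x H` (depending only on `x H`:
`Quotient.out`), `h_x = g_x⁻¹ x ∈ H`. Colour of `x`: `i ↦ ⌊λ_i (h_x)⌋ mod 2 : Fin q → Bool` padded to
`Fin (dim E) → Bool` (so that the number of colours does not depend on `r`); label: `(g_x, i ↦ ⌊λ_i(h_x)⌋)`. Let `x, y` have the same colour.
* same label: `x⁻¹ y = h_x⁻¹ h_y ∈ H`, with coordinates `λ_i(h_y) - λ_i(h_x) ∈ (-1, 1)`: key property gives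
  `x⁻¹ y ∈ B (C r)`.
* `g_x ≠ g_y`: `x⁻¹ y ∉ H`, so `x⁻¹ y ∉ B r`.
* `g_x = g_y`, `⌊λ_i(h_x)⌋ ≠ ⌊λ_i(h_y)⌋` of the same parity: they differ by at least 2, so
  `|λ_i (x⁻¹ y)| > 1`, so `x⁻¹ y ∉ Σ`.
Use `FAN_of_fintype`.
-/

set_option autoImplicit false

namespace Pool.Agent.MET90

theorem fan_of_key {G : Type} [Group G] {E : Type} [NormedAddCommGroup E] [NormedSpace ℝ E]
    [FiniteDimensional ℝ E] (B : ℕ → Set G) (hB : IsBalls B) (hfin : ∀ n, (B n).Finite)
    (N : Subgroup G) (ι : G → E) (hι : ∀ a ∈ N, ∀ b ∈ N, ι (a * b) = ι a + ι b) (C : ℕ)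
    (hkey : ∀ q : ℕ, q ≤ Module.finrank ℝ E → ∀ n : ℕ, 1 ≤ n →
      ∀ x ∈ Subgroup.closure {a : G | a ∈ N ∧ a ∈ B n},
      ∀ (b : Fin q → G) (t : Fin q → ℝ), (∀ i, b i ∈ N ∧ b i ∈ B n) →
        (∀ i, |t i| ≤ 1) → ι x = ∑ i, t i • ι (b i) → x ∈ B (C * n)) :
    FAN (fun n => ({x : N | (x : G) ∈ B n} : Set N)) := by
  classical
  have hι1 : ι 1 = 0 := by
    have h := hι 1 N.one_mem 1 N.one_mem
    rw [mul_one] at h
    simpa using h
  have hιinv : ∀ a ∈ N, ι a⁻¹ = -ι a := by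
    intro a ha
    have h := hι a ha a⁻¹ (N.inv_mem ha)
    rw [mul_inv_cancel, hι1] at h
    exact (neg_eq_of_add_eq_zero_right h.symm).symm
  refine FAN_of_fintype _ (2 ^ Module.finrank ℝ E) C (fun r hr => ?_)
  set Sg : Set G := {a : G | a ∈ N ∧ a ∈ B r} with hSg
  have hSgfin : Sg.Finite := (hfin r).subset (fun a ha => ha.2)
  obtain ⟨q, b, hq, hbX, hbli, hbspan⟩ := spanner (ι '' Sg) (hSgfin.image ι)
  choose b' hb' hb'b using hbX
  set H : Subgroup G := Subgroup.closure Sg with hH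
  have hHN : H ≤ N := (Subgroup.closure_le N).2 (fun a ha => ha.1)
  -- coordinates
  set f : (Fin q → ℝ) →ₗ[ℝ] E := Fintype.linearCombination ℝ b with hf
  have hfa : ∀ t, f t = ∑ i, t i • b i := fun t => Fintype.linearCombination_apply ℝ b t
  have hfinj : LinearMap.ker f = ⊥ := by
    rw [LinearMap.ker_eq_bot]
    exact hbli.fintypeLinearCombination_injective
  obtain ⟨g, hg⟩ := f.exists_leftInverse_of_injective hfinj
  have hgf : ∀ t, g (f t) = t := fun t => by
    have := congrArg (fun φ => φ t) hg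
    simpa using this
  have hB1 : ∀ a ∈ Sg, ∃ t : Fin q → ℝ, (∀ i, |t i| ≤ 1) ∧ ι a = f t := by
    intro a ha
    obtain ⟨t, ht1, ht2⟩ := hbspan (ι a) ⟨a, ha, rfl⟩
    exact ⟨t, ht1, by rw [hfa, ← ht2]⟩
  have hB : ∀ a ∈ Sg, ∀ i, |g (ι a) i| ≤ 1 := by
    intro a ha i
    obtain ⟨t, ht1, ht2⟩ := hB1 a ha
    rw [ht2, hgf]
    exact ht1 i
  have hA : ∀ a ∈ H, f (g (ι a)) = ι a := by
    intro a ha
    induction ha using Subgroup.closure_induction with
    | mem a ha =>
      obtain ⟨t, -, ht2⟩ := hB1 a ha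
      rw [ht2, hgf]
    | one => rw [hι1, map_zero, map_zero]
    | mul x y hx hy hx' hy' => rw [hι x (hHN hx) y (hHN hy), map_add, map_add, hx', hy']
    | inv x hx hx' => rw [hιinv x (hHN hx), map_neg, map_neg, hx']
  have hkey' : ∀ x ∈ H, (∀ i, |g (ι x) i| ≤ 1) → x ∈ B (C * r) := by
    intro x hx hx1
    refine hkey q hq r hr x hx b' (g (ι x)) (fun i => hb' i) hx1 ?_
    calc ι x = f (g (ι x)) := (hA x hx).symm
      _ = ∑ i, g (ι x) i • b i := hfa _
      _ = _ := Finset.sum_congr rfl (fun i _ => by rw [hb'b])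
  -- representatives
  set H' : Subgroup N := H.subgroupOf N with hH'
  let rep : N → N := fun x => Quotient.out (x : N ⧸ H')
  let hx : N → N := fun x => (rep x)⁻¹ * x
  have hhx : ∀ x, ((hx x : N) : G) ∈ H := by
    intro x
    have h1 : ((rep x : N) : N ⧸ H') = (x : N ⧸ H') := Quotient.out_eq _
    rw [QuotientGroup.eq] at h1
    exact Subgroup.mem_subgroupOf.1 h1
  have hsub : ∀ x y : N, (x : N ⧸ H') = (y : N ⧸ H') →
      (x : G)⁻¹ * y ∈ H ∧ ι ((x : G)⁻¹ * y) = ι (hx y : N) - ι (hx x : N) := by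
    intro x y hxy
    have h1 : rep x = rep y := by
      change Quotient.out (x : N ⧸ H') = Quotient.out (y : N ⧸ H')
      rw [hxy]
    have h2 : (x : G)⁻¹ * y = ((hx x : N) : G)⁻¹ * ((hx y : N) : G) := by
      change _ = ((((rep x)⁻¹ * x : N)) : G)⁻¹ * (((rep y)⁻¹ * y : N) : G)
      rw [h1, Subgroup.coe_mul, Subgroup.coe_mul]
      group
    constructor
    · rw [h2]
      exact H.mul_mem (H.inv_mem (hhx x)) (hhx y)
    · rw [h2, hι _ (N.inv_mem (hx x).2) _ (hx y).2, hιinv _ (hx x).2]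
      abel
  refine ⟨(N ⧸ H') × (Fin q → ℤ), Fin q → Bool, inferInstance,
    fun x i => decide (Even ⌊g (ι (hx x : N)) i⌋), fun x => ((x : N ⧸ H'),
      fun i => ⌊g (ι (hx x : N)) i⌋), ?_, ?_⟩
  · rw [Fintype.card_fun, Fintype.card_bool, Fintype.card_fin]
    exact Nat.pow_le_pow_right (by norm_num) hq
  · intro x y hxy
    constructor
    · intro hk
      have hk1 : (x : N ⧸ H') = (y : N ⧸ H') := congrArg Prod.fst hk
      have hk2 : ∀ i, ⌊g (ι (hx x : N)) i⌋ = ⌊g (ι (hx y : N)) i⌋ := fun i =>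
        congrFun (congrArg Prod.snd hk) i
      obtain ⟨h1, h2⟩ := hsub x y hk1
      change (((x⁻¹ * y : N)) : G) ∈ B (C * r)
      rw [Subgroup.coe_mul, Subgroup.coe_inv]
      refine hkey' _ h1 (fun i => ?_)
      rw [h2, map_sub, Pi.sub_apply]
      have := Int.abs_sub_lt_one_of_floor_eq_floor (hk2 i)
      rw [abs_sub_comm] at this
      exact this.le
    · intro hk hBr
      apply hk
      change (((x⁻¹ * y : N)) : G) ∈ B r at hBr
      have hmem : (((x⁻¹ * y : N)) : G) ∈ Sg := ⟨(x⁻¹ * y).2, hBr⟩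
      have hk1 : (x : N ⧸ H') = (y : N ⧸ H') := by
        rw [QuotientGroup.eq, hH', Subgroup.mem_subgroupOf]
        exact Subgroup.subset_closure hmem
      obtain ⟨h1, h2⟩ := hsub x y hk1
      have h3 := hB _ hmem
      rw [Subgroup.coe_mul, Subgroup.coe_inv, h2] at h3
      refine Prod.ext hk1 (funext fun i => ?_)
      have h4 := h3 i
      rw [map_sub, Pi.sub_apply] at h4
      have h5 := congrFun hxy i
      have h5' : decide (Even ⌊g (ι (hx x : N)) i⌋) = decide (Even ⌊g (ι (hx y : N)) i⌋) := h5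
      rw [decide_eq_decide] at h5'
      change ⌊g (ι (hx x : N)) i⌋ = ⌊g (ι (hx y : N)) i⌋
      generalize g (ι (hx x : N)) i = u at *
      generalize g (ι (hx y : N)) i = w at *
      rw [abs_le] at h4
      have a1 : ⌊u⌋ < ⌊w⌋ + 2 := by
        rw [← Int.cast_lt (R := ℝ)]
        push_cast
        have := Int.floor_le u
        have := Int.lt_floor_add_one w
        linarith
      have a2 : ⌊w⌋ < ⌊u⌋ + 2 := by
        rw [← Int.cast_lt (R := ℝ)]
        push_cast
        have := Int.floor_le w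
        have := Int.lt_floor_add_one u
        linarith
      rcases Int.even_or_odd ⌊u⌋ with hu | hu
      · have hw := h5'.1 hu
        obtain ⟨m1, hm1⟩ := hu
        obtain ⟨m2, hm2⟩ := hw
        omega
      · have hw : Odd ⌊w⌋ := by
          rw [← Int.not_even_iff_odd] at hu ⊢
          exact fun h => hu (h5'.2 h)
        obtain ⟨m1, hm1⟩ := hu
        obtain ⟨m2, hm2⟩ := hw
        omega

end Pool.Agent.MET90
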