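import Pool.Agent.MET90.Basic

/-!
Module FB: `A` has finite rank modulo torsion.

For a set `Z ⊆ A` put `rad Z = {a ∈ A | ∃ k > 0, a ^ k ∈ ⟨Z⟩}`, a subgroup (`A` is abelian), with
`rad (rad Z) = rad Z`; conjugation by `g` maps `rad Z` onto `rad (g Z g⁻¹)`.
(1) For `s ∈ S` and finite `Z ⊆ A` there is a finite `Z' ⊇ Z` in `A` with `s (rad Z') s⁻¹ ⊆ rad Z'`: for
`z ∈ Z` take `m_z` from the hypothesis, so `s^(m_z) z s^(-m_z) ∈ rad {s^i z s^(-i) : i < m_z}`, and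
`Z' = {s^i z s^(-i) : z ∈ Z, i < max(m_z, 1)}`.
(2) If `t (rad Z) t⁻¹ ⊆ rad Z` for some `t ∈ S` and `Z'` is built from `Z` and `s` as in (1), then still
`t (rad Z') t⁻¹ ⊆ rad Z'`, since conjugation by `t` and by `s` commute on `A`
(`t (s^i z s^(-i)) t⁻¹ = s^i (t z t⁻¹) s^(-i)`, because the commutator of `t` and `s^i` is in `A`), and
`s^i (rad Z) s^(-i) ⊆ rad Z'` for all `i`.
(3) Going through all elements of `S` we get `Z ⊇ Y` finite with `s (rad Z) s⁻¹ ⊆ rad Z` for all `s ∈ S`, so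
`rad Z` is normal in `G` (`S` is symmetric and generates) and contains all conjugates of `Y`.
-/

set_option autoImplicit false

namespace Pool.Agent.MET90

section Fb

variable {G : Type} [Group G] {S : Finset G} {A : Subgroup G}

/-- the elements of `A` with a power in the subgroup generated by `Z` -/
private def radS (hs : Setup S A) (Z : Set G) : Subgroup G where
  carrier := {a | a ∈ A ∧ ∃ k : ℕ, 0 < k ∧ a ^ k ∈ Subgroup.closure Z}
  mul_mem' := by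
    rintro a b ⟨ha, k, hk, hak⟩ ⟨hb, l, hl, hbl⟩
    refine ⟨A.mul_mem ha hb, k * l, Nat.mul_pos hk hl, ?_⟩
    have hc : Commute a b := hs.comm a ha b hb
    rw [hc.mul_pow]
    refine Subgroup.mul_mem _ ?_ ?_
    · rw [pow_mul]
      exact Subgroup.pow_mem _ hak l
    · rw [Nat.mul_comm, pow_mul]
      exact Subgroup.pow_mem _ hbl k
  one_mem' := ⟨A.one_mem, 1, Nat.one_pos, by simp⟩
  inv_mem' := by
    rintro a ⟨ha, k, hk, hak⟩
    refine ⟨A.inv_mem ha, k, hk, ?_⟩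
    rw [inv_pow]
    exact Subgroup.inv_mem _ hak

private lemma mem_radS (hs : Setup S A) (Z : Set G) (a : G) :
    a ∈ radS hs Z ↔ a ∈ A ∧ ∃ k : ℕ, 0 < k ∧ a ^ k ∈ Subgroup.closure Z := Iff.rfl

private lemma radS_subset (hs : Setup S A) {Z : Set G} {z : G} (hz : z ∈ Z) (hzA : z ∈ A) :
    z ∈ radS hs Z :=
  ⟨hzA, 1, Nat.one_pos, by simpa using Subgroup.subset_closure hz⟩

private lemma radS_mono (hs : Setup S A) {Z Z' : Set G} (h : Z ⊆ Z') :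
    radS hs Z ≤ radS hs Z' := by
  rintro a ⟨ha, k, hk, hak⟩
  exact ⟨ha, k, hk, Subgroup.closure_mono h hak⟩

/-- conjugation -/
private lemma radS_conj (hs : Setup S A) {Z Z' : Set G} (g : G)
    (h : ∀ z ∈ Z, g * z * g⁻¹ ∈ radS hs Z') {a : G} (ha : a ∈ radS hs Z) :
    g * a * g⁻¹ ∈ radS hs Z' := by
  obtain ⟨haA, k, hk, hak⟩ := ha
  have h1 : g * a ^ k * g⁻¹ ∈ radS hs Z' := by
    have hle : Subgroup.closure Z ≤ (radS hs Z').comap (MulAut.conj g).toMonoidHom := by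
      rw [Subgroup.closure_le]
      intro z hz
      exact h z hz
    exact hle hak
  obtain ⟨-, l, hl, hal⟩ := h1
  refine ⟨hs.normal.conj_mem a haA g, k * l, Nat.mul_pos hk hl, ?_⟩
  rw [pow_mul, conj_pow]
  exact hal

private lemma radS_conj_pow (hs : Setup S A) {Z : Set G} (g : G)
    (h : ∀ z ∈ Z, g * z * g⁻¹ ∈ radS hs Z) (i : ℕ) {a : G} (ha : a ∈ radS hs Z) :
    g ^ i * a * (g ^ i)⁻¹ ∈ radS hs Z := by
  induction i with
  | zero => simpa using ha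
  | succ i ih =>
    have := radS_conj hs g h ih
    have h2 : g * (g ^ i * a * (g ^ i)⁻¹) * g⁻¹ = g ^ (i + 1) * a * (g ^ (i + 1))⁻¹ := by
      rw [pow_succ']
      group
    rwa [h2] at this

private lemma conj_comm (hs : Setup S A) (t u : G) {z : G} (hz : z ∈ A) :
    t * (u * z * u⁻¹) * t⁻¹ = u * (t * z * t⁻¹) * u⁻¹ := by
  have hc : t * u * t⁻¹ * u⁻¹ ∈ A := hs.quot t u
  have hw : u * (t * z * t⁻¹) * u⁻¹ ∈ A :=
    hs.normal.conj_mem _ (hs.normal.conj_mem z hz t) u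
  have h1 : (t * u * t⁻¹ * u⁻¹) * (u * (t * z * t⁻¹) * u⁻¹) * (t * u * t⁻¹ * u⁻¹)⁻¹ =
      t * (u * z * u⁻¹) * t⁻¹ := by group
  rw [← h1, hs.comm _ hc _ hw]
  group

private lemma step (hs : Setup S A)
    (hfa : ∀ a ∈ A, ∀ s ∈ S, ∃ m k : ℕ, 0 < k ∧ (s ^ m * a * (s ^ m)⁻¹) ^ k ∈
      Subgroup.closure {x | ∃ i < m, x = s ^ i * a * (s ^ i)⁻¹})
    (s : G) (hsS : s ∈ S) (Z : Finset G) (hZ : (Z : Set G) ⊆ A) :
    ∃ Z' : Finset G, Z ⊆ Z' ∧ (Z' : Set G) ⊆ A ∧ (∀ z ∈ Z', s * z * s⁻¹ ∈ radS hs (Z' : Set G)) ∧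
      ∀ t : G, (∀ z ∈ Z, t * z * t⁻¹ ∈ radS hs (Z : Set G)) →
        ∀ z ∈ Z', t * z * t⁻¹ ∈ radS hs (Z' : Set G) := by
  classical
  have hex : ∀ z : G, ∃ m : ℕ, z ∈ A → ∃ k : ℕ, 0 < k ∧ (s ^ m * z * (s ^ m)⁻¹) ^ k ∈
      Subgroup.closure {x | ∃ i < m, x = s ^ i * z * (s ^ i)⁻¹} := by
    intro z
    by_cases hz : z ∈ A
    · obtain ⟨m, k, hk, h⟩ := hfa z hz s hsS
      exact ⟨m, fun _ => ⟨k, hk, h⟩⟩
    · exact ⟨0, fun h => absurd h hz⟩
  choose m hm using hex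
  let Z' : Finset G := Z.biUnion (fun z => (Finset.range (m z + 1)).image
    (fun i => s ^ i * z * (s ^ i)⁻¹))
  have hmem : ∀ x, x ∈ Z' ↔ ∃ z ∈ Z, ∃ i, i < m z + 1 ∧ s ^ i * z * (s ^ i)⁻¹ = x := by
    intro x
    simp only [Z', Finset.mem_biUnion, Finset.mem_image, Finset.mem_range]
  have hZZ' : Z ⊆ Z' := by
    intro z hz
    rw [hmem]
    exact ⟨z, hz, 0, Nat.succ_pos _, by simp⟩
  have hZ'A : (Z' : Set G) ⊆ A := by
    intro x hx
    rw [Finset.mem_coe, hmem] at hx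
    obtain ⟨z, hz, i, -, rfl⟩ := hx
    exact hs.normal.conj_mem z (hZ hz) _
  have hgood : ∀ z ∈ Z', s * z * s⁻¹ ∈ radS hs (Z' : Set G) := by
    intro x hx
    rw [hmem] at hx
    obtain ⟨z, hz, i, hi, rfl⟩ := hx
    have hxA : s ^ i * z * (s ^ i)⁻¹ ∈ A := hs.normal.conj_mem z (hZ hz) _
    rcases Nat.lt_or_ge i (m z) with hlt | hge
    · have h2 : s * (s ^ i * z * (s ^ i)⁻¹) * s⁻¹ = s ^ (i + 1) * z * (s ^ (i + 1))⁻¹ := by
        rw [pow_succ']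
        group
      rw [h2]
      refine radS_subset hs ?_ (hs.normal.conj_mem z (hZ hz) _)
      rw [Finset.mem_coe, hmem]
      exact ⟨z, hz, i + 1, by omega, rfl⟩
    · have him : i = m z := by omega
      subst him
      obtain ⟨k, hk, hkk⟩ := hm z (hZ hz)
      refine radS_conj hs (Z := {x | ∃ i < m z, x = s ^ i * z * (s ^ i)⁻¹}) s ?_ ⟨hxA, k, hk, hkk⟩
      rintro y ⟨j, hj, rfl⟩
      have h2 : s * (s ^ j * z * (s ^ j)⁻¹) * s⁻¹ = s ^ (j + 1) * z * (s ^ (j + 1))⁻¹ := by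
        rw [pow_succ']
        group
      rw [h2]
      refine radS_subset hs ?_ (hs.normal.conj_mem z (hZ hz) _)
      rw [Finset.mem_coe, hmem]
      exact ⟨z, hz, j + 1, by omega, rfl⟩
  refine ⟨Z', hZZ', hZ'A, hgood, ?_⟩
  intro t ht x hx
  rw [hmem] at hx
  obtain ⟨z, hz, i, -, rfl⟩ := hx
  rw [conj_comm hs t (s ^ i) (hZ hz)]
  exact radS_conj_pow hs s (fun z hz => hgood z (Finset.mem_coe.mp hz)) i
    (radS_mono hs (Finset.coe_subset.mpr hZZ') (ht z hz))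

private lemma all_steps (hs : Setup S A)
    (hfa : ∀ a ∈ A, ∀ s ∈ S, ∃ m k : ℕ, 0 < k ∧ (s ^ m * a * (s ^ m)⁻¹) ^ k ∈
      Subgroup.closure {x | ∃ i < m, x = s ^ i * a * (s ^ i)⁻¹})
    (Y : Finset G) (hY : (Y : Set G) ⊆ A) (T : Finset G) (hT : T ⊆ S) :
    ∃ Z : Finset G, Y ⊆ Z ∧ (Z : Set G) ⊆ A ∧
      ∀ s ∈ T, ∀ z ∈ Z, s * z * s⁻¹ ∈ radS hs (Z : Set G) := by
  classical
  induction T using Finset.induction_on with
  | empty => exact ⟨Y, Finset.Subset.refl _, hY, by simp⟩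
  | insert a T _ ih =>
    obtain ⟨Z, h1, h2, h3⟩ := ih (fun x hx => hT (Finset.mem_insert_of_mem hx))
    obtain ⟨Z', h4, h5, h6, h7⟩ := step hs hfa a (hT (Finset.mem_insert_self a T)) Z h2
    refine ⟨Z', h1.trans h4, h5, ?_⟩
    intro s hsT
    rcases Finset.mem_insert.mp hsT with rfl | hsT
    · exact h6
    · exact h7 s (h3 s hsT)

end Fb

theorem exists_finite_rank {G : Type} [Group G] {S : Finset G} {A : Subgroup G} (hs : Setup S A)
    (hfa : ∀ a ∈ A, ∀ s ∈ S, ∃ m k : ℕ, 0 < k ∧ (s ^ m * a * (s ^ m)⁻¹) ^ k ∈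
      Subgroup.closure {x | ∃ i < m, x = s ^ i * a * (s ^ i)⁻¹})
    (Y : Finset G) (hY : (Y : Set G) ⊆ A)
    (hgen : ∀ a ∈ A, a ∈ Subgroup.closure {x | ∃ g : G, ∃ y ∈ Y, x = g * y * g⁻¹}) :
    ∃ Z : Finset G, (Z : Set G) ⊆ A ∧
      ∀ a ∈ A, ∃ k : ℕ, 0 < k ∧ a ^ k ∈ Subgroup.closure (Z : Set G) := by
  obtain ⟨Z, h1, h2, h3⟩ := all_steps hs hfa Y hY S (Finset.Subset.refl _)
  refine ⟨Z, h2, ?_⟩
  have hstab : ∀ g : G, ∀ a ∈ radS hs (Z : Set G), g * a * g⁻¹ ∈ radS hs (Z : Set G) := by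
    intro g
    obtain ⟨n, hn⟩ := exists_mem_WB (S := (S : Set G)) (g := g) (by rw [hs.gen]; trivial)
    obtain ⟨l, -, hl, rfl⟩ := WB_symm (S := (S : Set G)) (fun s hs' => hs.symm s hs') hn
    clear hn
    induction l with
    | nil => intro a ha; simpa using ha
    | cons s l ih =>
      intro a ha
      have h4 := ih (fun y hy => hl y (List.mem_cons_of_mem _ hy)) a ha
      have h5 := radS_conj hs s (fun z hz => h3 s (hl s List.mem_cons_self) z hz) h4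
      have h6 : s * (l.prod * a * l.prod⁻¹) * s⁻¹ = (s :: l).prod * a * (s :: l).prod⁻¹ := by
        rw [List.prod_cons]
        group
      rwa [h6] at h5
  intro a ha
  have hle : Subgroup.closure {x | ∃ g : G, ∃ y ∈ Y, x = g * y * g⁻¹} ≤ radS hs (Z : Set G) := by
    rw [Subgroup.closure_le]
    rintro x ⟨g, y, hy, rfl⟩
    exact hstab g y (radS_subset hs (Finset.mem_coe.mpr (h1 hy)) (hY (Finset.mem_coe.mpr hy)))
  exact (hle (hgen a ha)).2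

end Pool.Agent.MET90
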