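import Pool.Agent.MET90.ColB

/-!
Module FILT: the filtration `Lam S L m` of `A` is respected by conjugations and contains the balls.

`filt_step`: there is `c` with `s (Lam m) s⁻¹ ≤ Lam (m + c)` for all `s ∈ S`, `m`. Proof. A generator of
`Lam m` is `t^i l t^(-i)`, `t ∈ S`, `i ≤ m`, `l ∈ L`; conjugated by `s` it is `t^i b t^(-i)` with
`b = s l s⁻¹ ∈ A` (conjugations commute on `A`). By `Monic A t L` for `b` there are `m₀, J` with
`t^(m₀) b t^(-m₀) ∈ ⟨t^j b t^(-j) : j < m₀⟩ ⊔ ⟨t^j l' t^(-j) : j ≤ J, l' ∈ L⟩` (a closure element uses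
finitely many generators). By induction on `i`,
`t^i b t^(-i) ∈ ⟨t^j b t^(-j) : j < m₀⟩ ⊔ Lam (i + J)`; the finitely many elements `t^j b t^(-j)`,
`j < m₀`, lie in some `Lam c'` by `hex`. So `t^i b t^(-i) ∈ Lam (i + J + c')`. Take `c` = maximum of
`J + c'` over the finitely many `(s, t, l)`.

`ball_lam`: `Y ⊆ A` finite, so `Y ⊆ Lam c₁` for some `c₁`. For `p = s_1 ⋯ s_k ∈ WB S k` and `y ∈ Y`:
`p y p⁻¹ ∈ Lam (c₁ + c k)`. So `g ∈ A ∩ WB S n`, a product of conjugates `p y p⁻¹` with `p ∈ WB S (K n)`, is in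
`Lam (c₁ + c K n)`; `n = 0` is trivial (`g = 1`). `C = c₁ + c K`.
-/

set_option autoImplicit false

namespace Pool.Agent.MET90

private lemma Lam_mono {G : Type} [Group G] (S L : Finset G) {m n : ℕ} (h : m ≤ n) :
    Lam S L m ≤ Lam S L n := by
  refine Subgroup.closure_mono ?_
  rintro x ⟨s, hs, i, hi, l, hl, rfl⟩
  exact ⟨s, hs, i, hi.trans h, l, hl, rfl⟩

private lemma Lam_le {G : Type} [Group G] {S : Finset G} {A : Subgroup G} (hs : Setup S A)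
    {L : Finset G} (hL : (L : Set G) ⊆ A) (m : ℕ) : Lam S L m ≤ A := by
  unfold Lam
  rw [Subgroup.closure_le]
  rintro x ⟨s, -, i, -, l, hl, rfl⟩
  exact hs.normal.conj_mem l (hL hl) (s ^ i)

/-- a closure element uses finitely many generators -/
private lemma filt_bound {G : Type} [Group G] (P : Set G) (t : G) (L : Finset G) {x : G}
    (hx : x ∈ Subgroup.closure (P ∪ {x | ∃ i : ℕ, ∃ l ∈ L, x = t ^ i * l * (t ^ i)⁻¹})) :
    ∃ J : ℕ, x ∈ Subgroup.closure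
      (P ∪ {x | ∃ i : ℕ, i ≤ J ∧ ∃ l ∈ L, x = t ^ i * l * (t ^ i)⁻¹}) := by
  have hmono : ∀ J J' : ℕ, J ≤ J' → Subgroup.closure
      (P ∪ {x | ∃ i : ℕ, i ≤ J ∧ ∃ l ∈ L, x = t ^ i * l * (t ^ i)⁻¹}) ≤ Subgroup.closure
      (P ∪ {x | ∃ i : ℕ, i ≤ J' ∧ ∃ l ∈ L, x = t ^ i * l * (t ^ i)⁻¹}) := by
    intro J J' h
    refine Subgroup.closure_mono (Set.union_subset_union_right P ?_)
    rintro x ⟨i, hi, l, hl, rfl⟩
    exact ⟨i, hi.trans h, l, hl, rfl⟩
  induction hx using Subgroup.closure_induction with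
  | mem x hx =>
    rcases hx with hx | ⟨i, l, hl, rfl⟩
    · exact ⟨0, Subgroup.subset_closure (Or.inl hx)⟩
    · exact ⟨i, Subgroup.subset_closure (Or.inr ⟨i, le_rfl, l, hl, rfl⟩)⟩
  | one => exact ⟨0, Subgroup.one_mem _⟩
  | mul x y _ _ hx hy =>
    obtain ⟨J, hJ⟩ := hx
    obtain ⟨J', hJ'⟩ := hy
    exact ⟨max J J', Subgroup.mul_mem _ (hmono _ _ (le_max_left _ _) hJ)
      (hmono _ _ (le_max_right _ _) hJ')⟩
  | inv x _ hx =>
    obtain ⟨J, hJ⟩ := hx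
    exact ⟨J, Subgroup.inv_mem _ hJ⟩

/-- conjugation maps closures to closures -/
private lemma filt_conj_closure {G : Type} [Group G] {P : Set G} {H : Subgroup G} {q : G}
    (h : ∀ x ∈ P, q * x * q⁻¹ ∈ H) {x : G} (hx : x ∈ Subgroup.closure P) : q * x * q⁻¹ ∈ H := by
  induction hx using Subgroup.closure_induction with
  | mem x hx => exact h x hx
  | one => simpa using H.one_mem
  | mul x y _ _ hx hy =>
    have h1 : q * (x * y) * q⁻¹ = (q * x * q⁻¹) * (q * y * q⁻¹) := by group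
    rw [h1]
    exact H.mul_mem hx hy
  | inv x _ hx =>
    have h1 : q * x⁻¹ * q⁻¹ = (q * x * q⁻¹)⁻¹ := by group
    rw [h1]
    exact H.inv_mem hx

/-- a finite subset of `A` lies in some `Lam c` -/
private lemma filt_fin {G : Type} [Group G] {S : Finset G} {A : Subgroup G}
    (L : Finset G) (hex : ∀ a ∈ A, ∃ m : ℕ, a ∈ Lam S L m) {ι : Type*} (I : Finset ι) (f : ι → G)
    (hf : ∀ i ∈ I, f i ∈ A) : ∃ c : ℕ, ∀ i ∈ I, f i ∈ Lam S L c := by
  classical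
  induction I using Finset.induction_on with
  | empty => exact ⟨0, by simp⟩
  | insert a I _ ih =>
    obtain ⟨c, hc⟩ := ih (fun i hi => hf i (Finset.mem_insert_of_mem hi))
    obtain ⟨m, hm⟩ := hex (f a) (hf a (Finset.mem_insert_self a I))
    refine ⟨max c m, fun i hi => ?_⟩
    rcases Finset.mem_insert.1 hi with rfl | hi
    · exact Lam_mono S L (le_max_right _ _) hm
    · exact Lam_mono S L (le_max_left _ _) (hc i hi)

private lemma filt_pow {G : Type} [Group G] {S : Finset G} {A : Subgroup G} (hs : Setup S A)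
    (L : Finset G) {t : G} (ht : t ∈ S) (hM : Monic A t L)
    (hex : ∀ a ∈ A, ∃ m : ℕ, a ∈ Lam S L m) {b : G} (hb : b ∈ A) :
    ∃ c : ℕ, ∀ i : ℕ, t ^ i * b * (t ^ i)⁻¹ ∈ Lam S L (i + c) := by
  obtain ⟨m, hm⟩ := hM b hb
  obtain ⟨J, hJ⟩ := filt_bound _ t L hm
  obtain ⟨c, hc⟩ := filt_fin L hex (Finset.range m) (fun j => t ^ j * b * (t ^ j)⁻¹)
    (fun j _ => hs.normal.conj_mem b hb (t ^ j))
  refine ⟨J + c, fun i => ?_⟩
  induction i using Nat.strong_induction_on with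
  | _ i ih =>
    by_cases him : i < m
    · exact Lam_mono S L (by omega) (hc i (Finset.mem_range.2 him))
    · push Not at him
      obtain ⟨k, rfl⟩ := Nat.exists_eq_add_of_le him
      have h1 : t ^ (m + k) * b * (t ^ (m + k))⁻¹ = t ^ k * (t ^ m * b * (t ^ m)⁻¹) * (t ^ k)⁻¹ := by
        rw [Nat.add_comm m k, pow_add]
        group
      rw [h1]
      refine filt_conj_closure ?_ hJ
      rintro x (⟨j, hj, rfl⟩ | ⟨j, hj, l, hl, rfl⟩)
      · have h2 : t ^ k * (t ^ j * b * (t ^ j)⁻¹) * (t ^ k)⁻¹ =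
            t ^ (k + j) * b * (t ^ (k + j))⁻¹ := by
          rw [pow_add]
          group
        rw [h2]
        exact Lam_mono S L (by omega) (ih (k + j) (by omega))
      · have h2 : t ^ k * (t ^ j * l * (t ^ j)⁻¹) * (t ^ k)⁻¹ =
            t ^ (k + j) * l * (t ^ (k + j))⁻¹ := by
          rw [pow_add]
          group
        rw [h2]
        exact Subgroup.subset_closure ⟨t, ht, k + j, by omega, l, hl, rfl⟩

/-- conjugations commute on `A` -/
private lemma filt_comm {G : Type} [Group G] {S : Finset G} {A : Subgroup G} (hs : Setup S A)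
    (s q : G) {l : G} (hl : l ∈ A) : s * (q * l * q⁻¹) * s⁻¹ = q * (s * l * s⁻¹) * q⁻¹ := by
  have h1 : s * q * s⁻¹ * q⁻¹ ∈ A := hs.quot s q
  have h2 : q * (s * l * s⁻¹) * q⁻¹ ∈ A :=
    hs.normal.conj_mem _ (hs.normal.conj_mem l hl s) q
  have h3 := hs.comm _ h1 _ h2
  calc s * (q * l * q⁻¹) * s⁻¹
      = (s * q * s⁻¹ * q⁻¹) * (q * (s * l * s⁻¹) * q⁻¹) * (s * q * s⁻¹ * q⁻¹)⁻¹ := by group
    _ = (q * (s * l * s⁻¹) * q⁻¹) * (s * q * s⁻¹ * q⁻¹) * (s * q * s⁻¹ * q⁻¹)⁻¹ := by rw [h3]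
    _ = q * (s * l * s⁻¹) * q⁻¹ := by group

theorem filt_step {G : Type} [Group G] {S : Finset G} {A : Subgroup G} (hs : Setup S A)
    (L : Finset G) (hL : (L : Set G) ⊆ A) (hM : ∀ s ∈ S, Monic A s L)
    (hex : ∀ a ∈ A, ∃ m : ℕ, a ∈ Lam S L m) :
    ∃ c : ℕ, ∀ s ∈ S, ∀ m : ℕ, ∀ x ∈ Lam S L m, s * x * s⁻¹ ∈ Lam S L (m + c) := by
  have key : ∀ p : G × G × G, ∃ c : ℕ, p.2.1 ∈ S → p.2.2 ∈ L →
      ∀ i : ℕ, p.2.1 ^ i * (p.1 * p.2.2 * p.1⁻¹) * (p.2.1 ^ i)⁻¹ ∈ Lam S L (i + c) := by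
    rintro ⟨s, t, l⟩
    by_cases ht : t ∈ S
    · by_cases hl : l ∈ L
      · obtain ⟨c, hc⟩ := filt_pow hs L ht (hM t ht) hex (b := s * l * s⁻¹)
          (hs.normal.conj_mem l (hL hl) s)
        exact ⟨c, fun _ _ => hc⟩
      · exact ⟨0, fun _ h => absurd h hl⟩
    · exact ⟨0, fun h => absurd h ht⟩
  choose f hf using key
  refine ⟨(S ×ˢ S ×ˢ L).sup f, fun s hsS m x hx => ?_⟩
  refine filt_conj_closure ?_ hx
  rintro x ⟨t, ht, i, hi, l, hl, rfl⟩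
  rw [filt_comm hs s (t ^ i) (hL hl)]
  have h1 := hf (s, t, l) ht hl i
  have h2 : f (s, t, l) ≤ (S ×ˢ S ×ˢ L).sup f :=
    Finset.le_sup (Finset.mem_product.2 ⟨hsS, Finset.mem_product.2 ⟨ht, hl⟩⟩)
  exact Lam_mono S L (by omega) h1

theorem ball_lam {G : Type} [Group G] {S : Finset G} {A : Subgroup G} (hs : Setup S A)
    (L : Finset G) (hL : (L : Set G) ⊆ A) (hex : ∀ a ∈ A, ∃ m : ℕ, a ∈ Lam S L m) (c : ℕ)
    (hc : ∀ s ∈ S, ∀ m : ℕ, ∀ x ∈ Lam S L m, s * x * s⁻¹ ∈ Lam S L (m + c))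
    (Y : Finset G) (K : ℕ) (hY : (Y : Set G) ⊆ A)
    (hcol : ∀ n : ℕ, 1 ≤ n → ∀ g ∈ A, g ∈ WB (S : Set G) n →
        ConjProd (S : Set G) (Y : Set G) (K * n ^ 2) (K * n) g) :
    ∃ C : ℕ, ∀ n : ℕ, ∀ g ∈ A, g ∈ WB (S : Set G) n → g ∈ Lam S L (C * (n + 1)) := by
  obtain ⟨c₁, hc₁⟩ := filt_fin L hex Y (fun y => y) (fun y hy => hY hy)
  -- conjugates
  have h1 : ∀ (l : List G), (∀ y ∈ l, y ∈ (S : Set G)) → ∀ y ∈ Y,
      l.prod * y * l.prod⁻¹ ∈ Lam S L (c₁ + c * l.length) := by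
    intro l
    induction l with
    | nil =>
      intro _ y hy
      simpa using hc₁ y hy
    | cons a l ih =>
      intro hl y hy
      have h2 := ih (fun y hy => hl y (List.mem_cons_of_mem _ hy)) y hy
      have h3 := hc a (hl a List.mem_cons_self) _ _ h2
      have h4 : (a :: l).prod * y * (a :: l).prod⁻¹ = a * (l.prod * y * l.prod⁻¹) * a⁻¹ := by
        rw [List.prod_cons]
        group
      rw [h4]
      refine Lam_mono S L ?_ h3
      rw [List.length_cons, Nat.mul_succ]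
      omega
  have h2 : ∀ k : ℕ, ∀ p ∈ WB (S : Set G) k, ∀ y ∈ Y, p * y * p⁻¹ ∈ Lam S L (c₁ + c * k) := by
    intro k p hp y hy
    obtain ⟨l, hl1, hl2, rfl⟩ := WB_symm (fun s hs' => hs.symm s hs') hp
    refine Lam_mono S L ?_ (h1 l hl2 y hy)
    have := Nat.mul_le_mul_left c hl1
    omega
  refine ⟨c₁ + c * K, fun n g hg hn => ?_⟩
  rcases Nat.eq_zero_or_pos n with rfl | hn0
  · obtain ⟨l, hl1, -, rfl⟩ := hn
    have : l = [] := List.eq_nil_of_length_eq_zero (by omega)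
    rw [this]
    exact Subgroup.one_mem _
  · obtain ⟨l, -, hl2, rfl⟩ := hcol n hn0 g hg hn
    refine Subgroup.list_prod_mem _ fun x hx => ?_
    obtain ⟨p, hp, y, hy, rfl⟩ := hl2 x hx
    refine Lam_mono S L ?_ (h2 _ p hp y hy)
    nlinarith [Nat.zero_le (c₁ * n), Nat.zero_le (c * K)]

end Pool.Agent.MET90
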