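import Pool.Agent.MET90.Basic

/-!
Module FINIDX: Schreier generators of a subgroup of finite index.
-/

set_option autoImplicit false

namespace Pool.Agent.MET90

section

variable {G : Type} [Group G] (H : Subgroup G)

open Classical in
/-- representatives of the left cosets, `1` for `H` -/
noncomputable def FinIdx_rep (q : G ⧸ H) : G := if q = ((1 : G) : G ⧸ H) then 1 else q.out

lemma FinIdx_rep_spec (q : G ⧸ H) : ((FinIdx_rep H q : G) : G ⧸ H) = q := by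
  unfold FinIdx_rep
  split_ifs with h
  · exact h.symm
  · exact QuotientGroup.out_eq' q

/-- representative of the right coset `H g` -/
noncomputable def FinIdx_t (g : G) : G := (FinIdx_rep H ((g⁻¹ : G) : G ⧸ H))⁻¹

lemma FinIdx_t_mem (g : G) : g * (FinIdx_t H g)⁻¹ ∈ H := by
  have h := FinIdx_rep_spec H ((g⁻¹ : G) : G ⧸ H)
  rw [eq_comm, QuotientGroup.eq, inv_inv] at h
  rw [FinIdx_t, inv_inv]
  exact h

lemma FinIdx_t_mul (h g : G) (hh : h ∈ H) : FinIdx_t H (h * g) = FinIdx_t H g := by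
  unfold FinIdx_t
  have : (((h * g)⁻¹ : G) : G ⧸ H) = ((g⁻¹ : G) : G ⧸ H) := by
    rw [QuotientGroup.eq]
    simpa using hh
  rw [this]

lemma FinIdx_t_one : FinIdx_t H 1 = 1 := by
  unfold FinIdx_t FinIdx_rep
  simp

lemma FinIdx_t_of_mem {h : G} (hh : h ∈ H) : FinIdx_t H h = 1 := by
  have := FinIdx_t_mul H h 1 hh
  rwa [mul_one, FinIdx_t_one] at this

lemma FinIdx_t_t (g s : G) : FinIdx_t H (FinIdx_t H g * s) = FinIdx_t H (g * s) := by
  have h : FinIdx_t H g * s = (g * (FinIdx_t H g)⁻¹)⁻¹ * (g * s) := by group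
  rw [h]
  exact FinIdx_t_mul H _ _ (H.inv_mem (FinIdx_t_mem H g))

lemma FinIdx_t_finite [H.FiniteIndex] : (Set.range (FinIdx_t H)).Finite := by
  have : Set.range (FinIdx_t H) ⊆ Set.range (fun q : G ⧸ H => (FinIdx_rep H q)⁻¹) := by
    rintro _ ⟨g, rfl⟩
    exact ⟨((g⁻¹ : G) : G ⧸ H), rfl⟩
  exact (Set.finite_range _).subset this

/-- the Schreier generators -/
def FinIdx_Y (S : Finset G) : Set H :=
  {h | ∃ g s : G, (s ∈ S ∨ s⁻¹ ∈ S) ∧ (h : G) = FinIdx_t H g * s * (FinIdx_t H (g * s))⁻¹}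

lemma FinIdx_Y_finite [H.FiniteIndex] (S : Finset G) : (FinIdx_Y H S).Finite := by
  have hT := FinIdx_t_finite H
  have hS : ({s : G | s ∈ S ∨ s⁻¹ ∈ S}).Finite := by
    have h1 : ({s : G | s ∈ S ∨ s⁻¹ ∈ S}) = (S : Set G) ∪ (fun s => s⁻¹) ⁻¹' (S : Set G) := by
      ext s; simp
    rw [h1]
    exact S.finite_toSet.union (S.finite_toSet.preimage (inv_injective.injOn))
  have h2 := (Set.Finite.image2 (fun a b : G => a * b) (Set.Finite.image2 (fun a b : G => a * b)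
    hT hS) (hT.image (fun a => a⁻¹)))
  refine (h2.preimage (f := ((↑) : H → G)) Subtype.val_injective.injOn).subset ?_
  rintro h ⟨g, s, hs, he⟩
  rw [Set.mem_preimage, he]
  exact ⟨_, ⟨_, ⟨g, rfl⟩, s, hs, rfl⟩, _, ⟨_, ⟨g * s, rfl⟩, rfl⟩, rfl⟩

lemma FinIdx_schreier (S : Finset G) (l : List G) (hl : ∀ y ∈ l, y ∈ S ∨ y⁻¹ ∈ S) (g : G) :
    ∃ h : H, h ∈ WB (FinIdx_Y H S) l.length ∧
      (h : G) = FinIdx_t H g * l.prod * (FinIdx_t H (g * l.prod))⁻¹ := by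
  induction l generalizing g with
  | nil => exact ⟨1, one_mem_WB _ _, by simp⟩
  | cons s l ih =>
    obtain ⟨h, hh, he⟩ := ih (fun y hy => hl y (List.mem_cons_of_mem _ hy)) (g * s)
    have hmem : FinIdx_t H g * s * (FinIdx_t H (g * s))⁻¹ ∈ H := by
      rw [← FinIdx_t_t]
      exact FinIdx_t_mem H _
    refine ⟨⟨_, hmem⟩ * h, ?_, ?_⟩
    · rw [List.length_cons, Nat.add_comm]
      exact mul_mem_WB (mem_WB_one ⟨g, s, hl s List.mem_cons_self, rfl⟩) hh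
    · rw [Subgroup.coe_mul, he, List.prod_cons]
      group

end

theorem finite_index_gens {G : Type} [Group G] (S : Finset G)
    (hS : Subgroup.closure (S : Set G) = ⊤) (H : Subgroup G) [H.FiniteIndex] :
    ∃ (Y : Finset H) (K : ℕ), Subgroup.closure (Y : Set H) = ⊤ ∧
      (∀ n : ℕ, ∀ h : H, h ∈ WB (Y : Set H) n → (h : G) ∈ WB (S : Set G) (K * n)) ∧
      (∀ n : ℕ, ∀ h : H, (h : G) ∈ WB (S : Set G) n → h ∈ WB (Y : Set H) n) := by
  have hfin := FinIdx_Y_finite H S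
  obtain ⟨K, hK⟩ := exists_WB_of_finite hS (((↑) : H → G) '' FinIdx_Y H S) (hfin.image _)
  have hcoe : (hfin.toFinset : Set H) = FinIdx_Y H S := by simp
  have h2 : ∀ n : ℕ, ∀ h : H, (h : G) ∈ WB (S : Set G) n → h ∈ WB (FinIdx_Y H S) n := by
    intro n h hh
    obtain ⟨l, hl1, hl2, hl3⟩ := hh
    obtain ⟨h', hh', he⟩ := FinIdx_schreier H S l (fun y hy => by simpa using hl2 y hy) 1
    rw [one_mul, hl3, FinIdx_t_one, FinIdx_t_of_mem H h.2, one_mul, inv_one, mul_one] at he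
    have : h' = h := Subtype.ext he
    subst this
    exact WB_mono _ hl1 hh'
  refine ⟨hfin.toFinset, K, ?_, ?_, ?_⟩
  · rw [hcoe, eq_top_iff]
    intro h _
    obtain ⟨n, hn⟩ := exists_mem_WB (S := (S : Set G)) (g := (h : G)) (by rw [hS]; trivial)
    exact WB_subset_closure _ n (h2 n h hn)
  · intro n h hh
    rw [hcoe] at hh
    have h3 : (h : G) ∈ H.subtype '' WB (FinIdx_Y H S) n := ⟨h, hh, rfl⟩
    rw [image_WB] at h3
    have h4 := WB_WB (T := H.subtype '' FinIdx_Y H S) (S := (S : Set G)) (k := K) hK n h3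
    rwa [Nat.mul_comm]
  · rw [hcoe]
    exact h2

theorem fan_of_finite_index {G : Type} [Group G] (S : Finset G)
    (hS : Subgroup.closure (S : Set G) = ⊤) (H : Subgroup G) [H.FiniteIndex]
    (Y : Finset H) (K : ℕ)
    (h1 : ∀ n : ℕ, ∀ h : H, h ∈ WB (Y : Set H) n → (h : G) ∈ WB (S : Set G) (K * n))
    (h2 : ∀ n : ℕ, ∀ h : H, (h : G) ∈ WB (S : Set G) n → h ∈ WB (Y : Set H) n)
    (h : FAN (WB (Y : Set H))) : FAN (WB (S : Set G)) := by
  obtain ⟨τ, hτ⟩ := exists_WB_of_finite hS _ (FinIdx_t_finite H)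
  have ht : ∀ g, FinIdx_t H g ∈ WB (S : Set G) τ := fun g => hτ ⟨g, rfl⟩
  let f : G → H := fun g => ⟨g * (FinIdx_t H g)⁻¹, FinIdx_t_mem H g⟩
  have hf : ∀ x y : G, (((f x)⁻¹ * f y : H) : G) =
      FinIdx_t H x * (x⁻¹ * y) * (FinIdx_t H y)⁻¹ := by
    intro x y
    simp only [f, Subgroup.coe_mul, Subgroup.coe_inv]
    group
  refine FAN_of_map (WB (S : Set G)) (WB (Y : Set H)) (WB_isBalls _) (WB_isBalls _) f
    (2 * τ + 1 + K) ?_ ?_ h
  · intro x y n hxy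
    refine WB_mono _ ?_ (h2 (τ + n + τ) _ ?_)
    · nlinarith [Nat.zero_le (K * (n + 1)), Nat.zero_le (τ * n)]
    · rw [hf]
      exact mul_mem_WB (mul_mem_WB (ht x) hxy) (inv_mem_WB (ht y))
  · intro x y n hxy
    have h3 := h1 n _ hxy
    rw [hf] at h3
    have h4 : x⁻¹ * y = (FinIdx_t H x)⁻¹ * (FinIdx_t H x * (x⁻¹ * y) * (FinIdx_t H y)⁻¹) *
        FinIdx_t H y := by group
    rw [h4]
    refine WB_mono _ ?_ (mul_mem_WB (mul_mem_WB (inv_mem_WB (ht x)) h3) (ht y))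
    nlinarith [Nat.zero_le (τ * n)]

theorem L1_of_finite_index {G : Type} [Group G] (S : Finset G) (H : Subgroup G)
    (Y : Finset H) (K : ℕ)
    (h1 : ∀ n : ℕ, ∀ h : H, h ∈ WB (Y : Set H) n → (h : G) ∈ WB (S : Set G) (K * n))
    (A : Subgroup H) (hA : ∀ a ∈ A, ∀ b ∈ A, a * b = b * a)
    (hc : ∃ C₁ : ℕ, ∀ N : ℕ, ∃ n : ℕ, N ≤ n ∧ ∀ (D : ℕ) (g : Fin D → G),
      (∀ i j, g i * g j = g j * g i) → (∀ j, g j ∈ WB (S : Set G) n) →
      (∀ j, g j ∉ Subgroup.closure (g '' {i | i < j})) → D ≤ C₁ * n) :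
    L1 (Y : Set H) A := by
  obtain ⟨C₁, hC⟩ := hc
  refine ⟨2 * C₁ * (K + 1), fun N => ?_⟩
  obtain ⟨n, hn, hD⟩ := hC ((K + 1) * (N + 1))
  have hnK : (K + 1) * (n / (K + 1)) ≤ n := Nat.mul_div_le n (K + 1)
  have hnK2 : n < (K + 1) * (n / (K + 1)) + (K + 1) := by
    have : n % (K + 1) < K + 1 := Nat.mod_lt n (Nat.succ_pos K)
    have h5 := Nat.div_add_mod n (K + 1)
    omega
  have hN : N + 1 ≤ n / (K + 1) := by
    rw [Nat.le_div_iff_mul_le (Nat.succ_pos K)]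
    linarith
  refine ⟨n / (K + 1), by omega, fun D g hg1 hg2 hg3 => ?_⟩
  have h3 := hD D (fun j => (g j : G)) ?_ ?_ ?_
  · refine h3.trans ?_
    have h6 : n ≤ 2 * ((K + 1) * (n / (K + 1))) := by nlinarith
    calc C₁ * n ≤ C₁ * (2 * ((K + 1) * (n / (K + 1)))) := Nat.mul_le_mul_left _ h6
      _ = _ := by ring
  · intro i j
    rw [← Subgroup.coe_mul, ← Subgroup.coe_mul, hA _ (hg1 i) _ (hg1 j)]
  · intro j
    refine WB_mono _ ?_ (h1 _ _ (hg2 j))
    exact (Nat.mul_le_mul_right _ (Nat.le_succ K)).trans hnK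
  · intro j hj
    apply hg3 j
    have h4 : (fun j => (g j : G)) '' {i | i < j} = H.subtype '' (g '' {i | i < j}) := by
      rw [← Set.image_comp]
      rfl
    rw [h4, ← MonoidHom.map_closure] at hj
    obtain ⟨x, hx, hxe⟩ := hj
    have : x = g j := Subtype.ext hxe
    rwa [← this]

end Pool.Agent.MET90
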