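import Pool.Agent.MET90.Col

/-!
Module GROWTH: homomorphisms on `A ⊇ [G,G]` killing a term of the lower central series grow polynomially.

`γ_j = (⊤ : Subgroup G).lowerCentralSeries j`. Let `φ : G → E` be additive on `A`, and suppose `φ = 0` on `γ_i`,
`i ≥ 2`, and `A = γ_1`. Then `‖φ g‖ ≤ K n^i` for `g ∈ A ∩ WB S n`, `n ≥ 1`.

Proof. (a) For each `i ≥ 2`, every such `φ` killing `γ_i` and every `y ∈ A` there is `K` with
`‖φ (p y p⁻¹)‖ ≤ K m^(i-2)` for all `m ≥ 1`, `p ∈ WB S m`. Induction on `i`. `i = 2`: `φ (p y p⁻¹) = φ y` since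
`p y p⁻¹ y⁻¹ ∈ γ_2`. Step `i → i+1`: for `s ∈ S` put `φ_s a = φ (s a s⁻¹) - φ a = φ (s a s⁻¹ a⁻¹)` (additive on `A`), it
kills `γ_i` (for `a ∈ γ_i`, `s a s⁻¹ a⁻¹ ∈ γ_(i+1)`). Along the word `p = s_1 ⋯ s_m` (`S` symmetric):
`φ (s_1 q y q⁻¹ s_1⁻¹) = φ (q y q⁻¹) + φ_{s_1} (q y q⁻¹)`, so `‖φ (p y p⁻¹)‖ ≤ ‖φ y‖ + m max_s K_s m^(i-2)`.
(b) By `collection`, `g ∈ A ∩ WB S n` is a product of `≤ K n²` conjugates `p y p⁻¹`, `y ∈ Y`, `p ∈ WB S (K n)`.
-/

set_option autoImplicit false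

namespace Pool.Agent.MET90

namespace GrowthAux

open scoped commutatorElement

variable {G : Type} [Group G] {E : Type} [NormedAddCommGroup E] [NormedSpace ℝ E]

lemma comm_mem {j : ℕ} {a : G} (ha : a ∈ (⊤ : Subgroup G).lowerCentralSeries j) (p : G) :
    p * a * p⁻¹ * a⁻¹ ∈ (⊤ : Subgroup G).lowerCentralSeries (j + 1) := by
  have h : ⁅a, p⁆ ∈ (⊤ : Subgroup G).lowerCentralSeries (j + 1) :=
    Subgroup.commutator_mem_commutator ha (Subgroup.mem_top p)
  have h2 := Subgroup.inv_mem _ h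
  have e : (⁅a, p⁆)⁻¹ = p * a * p⁻¹ * a⁻¹ := by
    rw [commutatorElement_def]
    group
  rwa [e] at h2

lemma lcs_le_comm {j : ℕ} (hj : 1 ≤ j) :
    (⊤ : Subgroup G).lowerCentralSeries j ≤ commutator G := by
  rw [← Subgroup.top_lowerCentralSeries_one]
  exact Subgroup.lowerCentralSeries_antitone (S := (⊤ : Subgroup G)) hj

lemma conj_mem (p : G) {a : G} (ha : a ∈ commutator G) : p * a * p⁻¹ ∈ commutator G :=
  (inferInstance : (commutator G).Normal).conj_mem a ha p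

lemma phi_conj_eq (φ : G → E)
    (hφ : ∀ a ∈ commutator G, ∀ b ∈ commutator G, φ (a * b) = φ a + φ b) {a : G}
    (ha : a ∈ commutator G) (p : G) : φ (p * a * p⁻¹) = φ (p * a * p⁻¹ * a⁻¹) + φ a := by
  have h1 : p * a * p⁻¹ * a⁻¹ ∈ commutator G :=
    Subgroup.mul_mem _ (conj_mem p ha) (Subgroup.inv_mem _ ha)
  rw [← hφ _ h1 _ ha]
  congr 1
  group

lemma conj_growth {S : Finset G} (hsymm : ∀ s ∈ S, s⁻¹ ∈ S) (k : ℕ) :
    ∀ φ : G → E, (∀ a ∈ commutator G, ∀ b ∈ commutator G, φ (a * b) = φ a + φ b) →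
      (∀ a ∈ (⊤ : Subgroup G).lowerCentralSeries (k + 2), φ a = 0) →
      ∀ y ∈ commutator G, ∃ K : ℕ, ∀ m : ℕ, ∀ p ∈ WB (S : Set G) m,
        ‖φ (p * y * p⁻¹)‖ ≤ K * ((m : ℝ) + 1) ^ k := by
  classical
  induction k with
  | zero =>
    intro φ hφ hkill y hy
    obtain ⟨K, hK⟩ := exists_nat_ge ‖φ y‖
    refine ⟨K, fun m p _ => ?_⟩
    have h1 : y ∈ (⊤ : Subgroup G).lowerCentralSeries 1 := by
      rw [Subgroup.top_lowerCentralSeries_one]
      exact hy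
    rw [phi_conj_eq φ hφ hy, hkill _ (comm_mem h1 p), zero_add, pow_zero, mul_one]
    exact hK
  | succ k ih =>
    intro φ hφ hkill y hy
    have key : ∀ s : G, ∃ K : ℕ, ∀ m : ℕ, ∀ p ∈ WB (S : Set G) m,
        ‖φ (s * (p * y * p⁻¹) * s⁻¹) - φ (p * y * p⁻¹)‖ ≤ K * ((m : ℝ) + 1) ^ k := by
      intro s
      refine ih (fun a => φ (s * a * s⁻¹) - φ a) ?_ ?_ y hy
      · intro a ha b hb
        have e : s * (a * b) * s⁻¹ = s * a * s⁻¹ * (s * b * s⁻¹) := by group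
        show φ (s * (a * b) * s⁻¹) - φ (a * b) = φ (s * a * s⁻¹) - φ a + (φ (s * b * s⁻¹) - φ b)
        rw [e, hφ _ (conj_mem s ha) _ (conj_mem s hb), hφ _ ha _ hb]
        abel
      · intro a ha
        have haA : a ∈ commutator G := lcs_le_comm (by omega) ha
        show φ (s * a * s⁻¹) - φ a = 0
        rw [phi_conj_eq φ hφ haA, hkill _ (comm_mem ha s), zero_add, sub_self]
    choose Kf hKf using key
    obtain ⟨K0, hK0⟩ := exists_nat_ge ‖φ y‖
    set K1 : ℕ := ∑ s ∈ S, Kf s with hK1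
    have hle : ∀ s ∈ S, (Kf s : ℝ) ≤ K1 := by
      intro s hs
      have : Kf s ≤ K1 := Finset.single_le_sum (f := Kf) (fun _ _ => Nat.zero_le _) hs
      exact_mod_cast this
    have list : ∀ (M : ℕ) (l : List G), (∀ x ∈ l, x ∈ S) → l.length ≤ M →
        ‖φ (l.prod * y * l.prod⁻¹)‖ ≤ ‖φ y‖ + l.length * (K1 * ((M : ℝ) + 1) ^ k) := by
      intro M l
      induction l with
      | nil => intro _ _; simp
      | cons s l ihl =>
        intro h1 h2
        have h3 := ihl (fun x hx => h1 x (List.mem_cons_of_mem _ hx))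
          (by rw [List.length_cons] at h2; omega)
        have hl : l.prod ∈ WB (S : Set G) M := by
          refine ⟨l, by rw [List.length_cons] at h2; omega, fun x hx => ?_, rfl⟩
          exact Or.inl (h1 x (List.mem_cons_of_mem _ hx))
        have h4 := hKf s M l.prod hl
        have h5 : (Kf s : ℝ) * ((M : ℝ) + 1) ^ k ≤ K1 * ((M : ℝ) + 1) ^ k :=
          mul_le_mul_of_nonneg_right (hle s (h1 s List.mem_cons_self)) (by positivity)
        have e : (s :: l).prod * y * ((s :: l).prod)⁻¹ = s * (l.prod * y * l.prod⁻¹) * s⁻¹ := by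
          rw [List.prod_cons]
          group
        rw [e]
        have h6 : φ (s * (l.prod * y * l.prod⁻¹) * s⁻¹) =
            φ (l.prod * y * l.prod⁻¹) +
              (φ (s * (l.prod * y * l.prod⁻¹) * s⁻¹) - φ (l.prod * y * l.prod⁻¹)) := by abel
        rw [h6]
        refine (norm_add_le _ _).trans ?_
        rw [List.length_cons]
        push_cast
        linarith
    refine ⟨K0 + K1, fun m p hp => ?_⟩
    obtain ⟨l, hl1, hl2, rfl⟩ := WB_symm (S := (S : Set G)) hsymm hp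
    refine (list m l hl2 hl1).trans ?_
    have hm : (l.length : ℝ) ≤ m := by exact_mod_cast hl1
    have hm1 : (1 : ℝ) ≤ (m : ℝ) + 1 := by
      have : (0 : ℝ) ≤ m := Nat.cast_nonneg m
      linarith
    have h7 : (1 : ℝ) ≤ ((m : ℝ) + 1) ^ (k + 1) := one_le_pow₀ hm1
    have h8 : (l.length : ℝ) * (K1 * ((m : ℝ) + 1) ^ k) ≤ K1 * ((m : ℝ) + 1) ^ (k + 1) := by
      have h9 : (l.length : ℝ) * (K1 * ((m : ℝ) + 1) ^ k) ≤
          ((m : ℝ) + 1) * (K1 * ((m : ℝ) + 1) ^ k) :=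
        mul_le_mul_of_nonneg_right (by linarith) (by positivity)
      refine h9.trans (le_of_eq ?_)
      ring
    have h10 : (K0 : ℝ) * 1 ≤ K0 * ((m : ℝ) + 1) ^ (k + 1) :=
      mul_le_mul_of_nonneg_left h7 (Nat.cast_nonneg _)
    push_cast
    rw [add_mul]
    linarith

end GrowthAux

open GrowthAux in
theorem hom_growth {G : Type} [Group G] {S : Finset G} (hs : Setup S (commutator G)) {E : Type}
    [NormedAddCommGroup E] [NormedSpace ℝ E] (φ : G → E)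
    (hφ : ∀ a ∈ commutator G, ∀ b ∈ commutator G, φ (a * b) = φ a + φ b) (i : ℕ) (hi : 2 ≤ i)
    (hkill : ∀ a ∈ (⊤ : Subgroup G).lowerCentralSeries i, φ a = 0) :
    ∃ K : ℕ, ∀ n : ℕ, 1 ≤ n → ∀ g ∈ commutator G, g ∈ WB (S : Set G) n →
      ‖φ g‖ ≤ K * (n : ℝ) ^ i := by
  classical
  obtain ⟨k, rfl⟩ : ∃ k, i = k + 2 := ⟨i - 2, by omega⟩
  obtain ⟨Y, K0, hYA, -, hcol⟩ := collection hs
  have key : ∀ y : G, ∃ K : ℕ, y ∈ Y → ∀ m : ℕ, ∀ p ∈ WB (S : Set G) m,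
      ‖φ (p * y * p⁻¹)‖ ≤ K * ((m : ℝ) + 1) ^ k := by
    intro y
    by_cases hy : y ∈ Y
    · obtain ⟨K, hK⟩ := conj_growth hs.symm k φ hφ hkill y (hYA hy)
      exact ⟨K, fun _ => hK⟩
    · exact ⟨0, fun h => absurd h hy⟩
  choose Kf hKf using key
  set K1 : ℕ := ∑ y ∈ Y, Kf y with hK1
  have hle : ∀ y ∈ Y, (Kf y : ℝ) ≤ K1 := by
    intro y hy
    have : Kf y ≤ K1 := Finset.single_le_sum (f := Kf) (fun _ _ => Nat.zero_le _) hy
    exact_mod_cast this
  have hφ1 : φ 1 = 0 := by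
    have h := hφ 1 (Subgroup.one_mem _) 1 (Subgroup.one_mem _)
    rw [mul_one] at h
    simpa using h
  refine ⟨K0 * K1 * (K0 + 1) ^ k, fun n hn g hg hgn => ?_⟩
  obtain ⟨l, hl1, hl2, rfl⟩ := hcol n hn g hg hgn
  set B : ℝ := K1 * (((K0 * n : ℕ) : ℝ) + 1) ^ k with hB
  have hB0 : 0 ≤ B := by positivity
  have list : ∀ l : List G, (∀ x ∈ l, ∃ p ∈ WB (S : Set G) (K0 * n), ∃ y ∈ (Y : Set G),
      x = p * y * p⁻¹) → l.prod ∈ commutator G ∧ ‖φ l.prod‖ ≤ l.length * B := by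
    intro l
    induction l with
    | nil => intro _; exact ⟨by simpa using Subgroup.one_mem _, by simp [hφ1]⟩
    | cons x l ih =>
      intro h
      obtain ⟨h1, h2⟩ := ih (fun z hz => h z (List.mem_cons_of_mem _ hz))
      obtain ⟨p, hp, y, hy, hx⟩ := h x List.mem_cons_self
      have hxA : x ∈ commutator G := by
        rw [hx]
        exact conj_mem p (hYA hy)
      refine ⟨by rw [List.prod_cons]; exact Subgroup.mul_mem _ hxA h1, ?_⟩
      rw [List.prod_cons, hφ _ hxA _ h1, List.length_cons]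
      have h3 : ‖φ x‖ ≤ B := by
        rw [hx]
        refine (hKf y hy _ p hp).trans ?_
        exact mul_le_mul_of_nonneg_right (hle y hy) (by positivity)
      refine (norm_add_le _ _).trans ?_
      push_cast
      linarith
  refine (list l hl2).2.trans ?_
  have hl3 : (l.length : ℝ) ≤ K0 * (n : ℝ) ^ 2 := by exact_mod_cast hl1
  have hn1 : (1 : ℝ) ≤ n := by exact_mod_cast hn
  have hpow : (((K0 * n : ℕ) : ℝ) + 1) ^ k ≤ (((K0 : ℝ) + 1) * n) ^ k := by
    refine pow_le_pow_left₀ (by positivity) ?_ k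
    push_cast
    linarith
  have hB1 : B ≤ K1 * (((K0 : ℝ) + 1) * n) ^ k :=
    mul_le_mul_of_nonneg_left hpow (Nat.cast_nonneg _)
  calc (l.length : ℝ) * B ≤ (K0 * (n : ℝ) ^ 2) * (K1 * (((K0 : ℝ) + 1) * n) ^ k) :=
        mul_le_mul hl3 hB1 hB0 (by positivity)
    _ = ((K0 * K1 * (K0 + 1) ^ k : ℕ) : ℝ) * (n : ℝ) ^ (k + 2) := by
        push_cast
        rw [mul_pow]
        ring

end Pool.Agent.MET90
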