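import Mathlib

/-!
Module IDEM: splitting off the unipotent part.

`ρ : G →* End(E)` with commuting image, `E` finite dimensional. There are `e` and `m` such that `e` commutes with
all `ρ g`, `e = ∑ T_i (1 - ρ (g_i))` with `T_i` commuting with all `ρ h`, and
`(1 - e) (1 - ρ h_1) ⋯ (1 - ρ h_m) = 0` for all `h_1, …, h_m`.

Proof. Let `R ⊆ End(E)` be the commutative subalgebra generated by the `ρ g` (`Algebra.adjoinCommRingOfComm`), `E` an
`R`-module, finitely generated (already over `ℝ`), `I = Ideal.span {1 - ρ g} ⊆ R`. The chain of submodules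
`I^j • ⊤` of `E` decreases, so `I^(m+1) • ⊤ = I^m • ⊤ =: W` for some `m` (finite dimension over `ℝ`).
Nakayama (`Submodule.exists_sub_one_mem_and_smul_eq_zero_of_fg_of_le_smul`) for `W ≤ I • W`: `r ∈ R` with
`r - 1 ∈ I` and `r • w = 0` on `W`. Put `e = 1 - r ∈ I`. `(1 - e) = r` kills
`(1 - ρ h_1) ⋯ (1 - ρ h_m) E ⊆ W`. Elements of `I` are finite sums `∑ T_i (1 - ρ g_i)` with `T_i ∈ R`.
(An elementary version without `R` is possible as well.)
-/

set_option autoImplicit false

namespace Pool.Agent.MET90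

private lemma split_aux {G R E : Type} [CommRing R] [Algebra ℝ R] [AddCommGroup E] [Module ℝ E]
    [Module R E] [IsScalarTower ℝ R E] [FiniteDimensional ℝ E] (u : G → R) :
    ∃ (e : R) (m q : ℕ) (T : Fin q → R) (g : Fin q → G),
      e = ∑ i, T i * (1 - u (g i)) ∧
      ∀ l : List G, l.length = m → ∀ v : E,
        (1 - e) • ((l.map (fun h => 1 - u h)).prod • v) = 0 := by
  classical
  obtain ⟨I, hI⟩ : ∃ I : Ideal R, I = Ideal.span (Set.range fun g => 1 - u g) := ⟨_, rfl⟩
  have : IsArtinian R E := isArtinian_of_tower ℝ inferInstance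
  have : IsNoetherian R E := isNoetherian_of_tower ℝ inferInstance
  obtain ⟨m, hm⟩ := IsArtinian.monotone_stabilizes (R := R) (M := E)
    ⟨fun j => OrderDual.toDual (I ^ j • (⊤ : Submodule R E)), by
      intro i j hij
      exact OrderDual.toDual_le_toDual.2 (Submodule.smul_mono_left (Ideal.pow_le_pow_right hij))⟩
  have hm1 : I ^ m • (⊤ : Submodule R E) = I ^ (m + 1) • (⊤ : Submodule R E) :=
    OrderDual.toDual_inj.1 (hm (m + 1) (Nat.le_succ m))
  obtain ⟨r, hr1, hr2⟩ := Submodule.exists_sub_one_mem_and_smul_eq_zero_of_fg_of_le_smul I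
    (I ^ m • (⊤ : Submodule R E)) (IsNoetherian.noetherian _) (by
      rw [← Submodule.mul_smul, ← pow_succ', ← hm1])
  have hr3 : 1 - r ∈ I := by
    have := I.neg_mem hr1
    rwa [neg_sub] at this
  rw [hI, Ideal.span, Finsupp.mem_span_range_iff_exists_finsupp] at hr3
  obtain ⟨c, hc⟩ := hr3
  have hprod : ∀ l : List G, (l.map (fun h => 1 - u h)).prod ∈ I ^ l.length := by
    intro l
    induction l with
    | nil => simp
    | cons a l ih =>
      rw [List.map_cons, List.prod_cons, List.length_cons, pow_succ']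
      refine Ideal.mul_mem_mul ?_ ih
      rw [hI]
      exact Ideal.subset_span ⟨a, rfl⟩
  refine ⟨1 - r, m, c.support.card, fun i => c (c.support.equivFin.symm i),
    fun i => (c.support.equivFin.symm i : G), ?_, ?_⟩
  · rw [← hc, Finsupp.sum, ← Finset.sum_coe_sort,
      ← Equiv.sum_comp c.support.equivFin.symm]
    rfl
  · intro l hl v
    rw [sub_sub_cancel]
    apply hr2
    refine Submodule.smul_mem_smul ?_ trivial
    rw [← hl]
    exact hprod l

theorem exists_split {G : Type} [Group G] {E : Type} [AddCommGroup E] [Module ℝ E]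
    [FiniteDimensional ℝ E] (ρ : G →* Module.End ℝ E) (hcomm : ∀ g h, ρ g * ρ h = ρ h * ρ g) :
    ∃ (e : Module.End ℝ E) (m q : ℕ) (T : Fin q → Module.End ℝ E) (g : Fin q → G),
      (∀ h, e * ρ h = ρ h * e) ∧ (∀ i h, T i * ρ h = ρ h * T i) ∧
      e = ∑ i, T i * (1 - ρ (g i)) ∧
      ∀ l : List G, l.length = m → (1 - e) * (l.map (fun h => 1 - ρ h)).prod = 0 := by
  have hc : ∀ a ∈ Set.range ρ, ∀ b ∈ Set.range ρ, a * b = b * a := by
    rintro _ ⟨g, rfl⟩ _ ⟨h, rfl⟩
    exact hcomm g h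
  let _ : CommRing (Algebra.adjoin ℝ (Set.range ρ)) := Algebra.adjoinCommRingOfComm ℝ hc
  have hmem : ∀ g, ρ g ∈ Algebra.adjoin ℝ (Set.range ρ) := fun g =>
    Algebra.subset_adjoin ⟨g, rfl⟩
  obtain ⟨e, m, q, T, g, he, hl⟩ := split_aux (R := Algebra.adjoin ℝ (Set.range ρ)) (E := E)
    (fun g => (⟨ρ g, hmem g⟩ : Algebra.adjoin ℝ (Set.range ρ)))
  have hcm : ∀ (a : Algebra.adjoin ℝ (Set.range ρ)) (h : G), (a : Module.End ℝ E) * ρ h =
      ρ h * a := fun a h =>
    congrArg Subtype.val (mul_comm a (⟨ρ h, hmem h⟩ : Algebra.adjoin ℝ (Set.range ρ)))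
  refine ⟨e, m, q, fun i => T i, g, hcm e, fun i h => hcm (T i) h, ?_, ?_⟩
  · have := congrArg (Algebra.adjoin ℝ (Set.range ρ)).val he
    rw [map_sum] at this
    exact this
  · intro l hlm
    ext v
    have h1 := hl l hlm v
    have h2 : ((l.map (fun h => 1 - (⟨ρ h, hmem h⟩ : Algebra.adjoin ℝ (Set.range ρ)))).prod :
        Module.End ℝ E) = (l.map (fun h => 1 - ρ h)).prod := by
      have := map_list_prod (Algebra.adjoin ℝ (Set.range ρ)).val
        (l.map (fun h => 1 - (⟨ρ h, hmem h⟩ : Algebra.adjoin ℝ (Set.range ρ))))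
      rw [List.map_map] at this
      exact this
    rw [← h2]
    exact h1

end Pool.Agent.MET90
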