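import Pool.Agent.MET90.Basic

/-!
Module LCS: generators of the lower central series.

Write `γ_j = (⊤ : Subgroup G).lowerCentralSeries j` (`γ_0 = G`, `γ_1 = [G,G]`). For `x : G`, `u ∈ γ_j` the commutator
`[x, u] = x u x⁻¹ u⁻¹` lies in `γ_(j+1)`, and modulo `γ_(j+2)` it is multiplicative in `x` and in `u`
(`[x x', u] = x [x', u] x⁻¹ [x, u]`, `[x, u u'] = [x, u] u [x, u'] u⁻¹`, and `γ_(j+1)/γ_(j+2)` is central in
`G/γ_(j+2)`), and it only depends on `u` modulo `γ_(j+1)`.

`lcs_gen`: `γ_j = ⟨Zc S j⟩ ⊔ γ_(j+1)`. Induction on `j`: `γ_(j+1)` is generated by the `[x, u]` (or `[u, x]`, its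
inverse), `x ∈ G`, `u ∈ γ_j`; modulo `γ_(j+2)` they are products of `[s^{±1}, z^{±1}]^{±1} ≡ [s, z]^{±1}`.
`lcs_last`: if `γ_(c+1) = ⊥`, then `γ_c = ⟨Zc S c⟩`.
`lcs_fg`: every `γ_j` is generated by a finite set: downward induction (`γ_(c) = ⊥`, then `lcs_gen`).
-/

set_option autoImplicit false

namespace Pool.Agent.MET90

open scoped commutatorElement

/-- iterated commutators of the generators: `Zc S (j+1) = {s z s⁻¹ z⁻¹ : s ∈ S, z ∈ Zc S j}` -/
def Zc {G : Type} [Group G] (S : Set G) : ℕ → Set G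
  | 0 => S
  | (j + 1) => {x | ∃ s ∈ S, ∃ z ∈ Zc S j, x = s * z * s⁻¹ * z⁻¹}

lemma Zc_finite {G : Type} [Group G] {S : Set G} (hS : S.Finite) (j : ℕ) : (Zc S j).Finite := by
  induction j with
  | zero => exact hS
  | succ j ih =>
    refine (Set.Finite.image2 (fun s z => s * z * s⁻¹ * z⁻¹) hS ih).subset ?_
    rintro x ⟨s, hs, z, hz, rfl⟩
    exact ⟨s, hs, z, hz, rfl⟩

private lemma Lcs_comm_iff {G : Type} [Group G] (K : Subgroup G) [K.Normal] (u s : G) :
    ⁅u, s⁆ ∈ K ↔ (u : G ⧸ K) * (s : G ⧸ K) = (s : G ⧸ K) * (u : G ⧸ K) := by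
  rw [← QuotientGroup.eq_one_iff]
  have h : ((⁅u, s⁆ : G) : G ⧸ K) = ⁅(u : G ⧸ K), (s : G ⧸ K)⁆ :=
    map_commutatorElement (QuotientGroup.mk' K) u s
  rw [h, commutatorElement_eq_one_iff_mul_comm]

/-- `{u | [u, s] ∈ K}` is a subgroup -/
private lemma Lcs_left {G : Type} [Group G] (K : Subgroup G) [K.Normal] (s : G) (H : Subgroup G)
    (Z : Set G) (hH : H ≤ Subgroup.closure Z) (hZ : ∀ z ∈ Z, ⁅z, s⁆ ∈ K) (u : G) (hu : u ∈ H) :
    ⁅u, s⁆ ∈ K := by
  have h1 : Subgroup.closure Z ≤
      (Subgroup.centralizer {(s : G ⧸ K)}).comap (QuotientGroup.mk' K) := by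
    rw [Subgroup.closure_le]
    intro z hz
    have h2 := (Lcs_comm_iff K z s).1 (hZ z hz)
    show (QuotientGroup.mk' K z) ∈ Subgroup.centralizer {(s : G ⧸ K)}
    rw [Subgroup.mem_centralizer_singleton_iff]
    exact h2
  have h3 := h1 (hH hu)
  have h4 : (QuotientGroup.mk' K u) ∈ Subgroup.centralizer {(s : G ⧸ K)} := h3
  rw [Subgroup.mem_centralizer_singleton_iff] at h4
  exact (Lcs_comm_iff K u s).2 h4

theorem lcs_gen {G : Type} [Group G] (S : Set G) (hS : Subgroup.closure S = ⊤) (j : ℕ) :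
    (⊤ : Subgroup G).lowerCentralSeries j =
      Subgroup.closure (Zc S j) ⊔ (⊤ : Subgroup G).lowerCentralSeries (j + 1) := by
  induction j with
  | zero =>
    simp only [Zc, Subgroup.lowerCentralSeries_zero, hS, top_sup_eq]
  | succ j ih =>
    have hanti : ∀ n, (⊤ : Subgroup G).lowerCentralSeries (n + 1) ≤
        (⊤ : Subgroup G).lowerCentralSeries n := fun n =>
      Subgroup.lowerCentralSeries_antitone (⊤ : Subgroup G) (Nat.le_succ n)
    have hcm : ∀ n, ∀ u ∈ (⊤ : Subgroup G).lowerCentralSeries n, ∀ x : G,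
        ⁅u, x⁆ ∈ (⊤ : Subgroup G).lowerCentralSeries (n + 1) := by
      intro n u hu x
      rw [Subgroup.lowerCentralSeries_succ]
      exact Subgroup.commutator_mem_commutator hu (Subgroup.mem_top x)
    set K : Subgroup G := Subgroup.closure (Zc S (j + 1)) ⊔
      (⊤ : Subgroup G).lowerCentralSeries (j + 1 + 1) with hK
    have hZj : ∀ z ∈ Zc S j, z ∈ (⊤ : Subgroup G).lowerCentralSeries j := by
      intro z hz
      rw [ih]
      exact (le_sup_left : _ ≤ Subgroup.closure (Zc S j) ⊔ _) (Subgroup.subset_closure hz)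
    have hKle : K ≤ (⊤ : Subgroup G).lowerCentralSeries (j + 1) := by
      rw [hK]
      refine sup_le ?_ (hanti (j + 1))
      rw [Subgroup.closure_le]
      rintro x ⟨s, hs, z, hz, rfl⟩
      have h1 := (⊤ : Subgroup G).lowerCentralSeries (j + 1) |>.inv_mem (hcm j z (hZj z hz) s)
      rw [commutatorElement_inv, commutatorElement_def] at h1
      exact h1
    have hle : (⊤ : Subgroup G).lowerCentralSeries (j + 1 + 1) ≤ K := le_sup_right
    have hKn : K.Normal := by
      constructor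
      intro k hk g
      have h1 := hle (hcm (j + 1) k (hKle hk) g)
      have h2 := K.mul_mem (K.inv_mem h1) hk
      have h3 : ⁅k, g⁆⁻¹ * k = g * k * g⁻¹ := by
        rw [commutatorElement_inv, commutatorElement_def]
        group
      rw [h3] at h2
      exact h2
    apply le_antisymm _ hKle
    rw [Subgroup.lowerCentralSeries_succ, Subgroup.commutator_le]
    intro u hu x _
    -- [u, s] for generators s
    have h1 : ∀ s ∈ S, ⁅u, s⁆ ∈ K := by
      intro s hs
      refine Lcs_left K s ((⊤ : Subgroup G).lowerCentralSeries j)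
        (Zc S j ∪ ((⊤ : Subgroup G).lowerCentralSeries (j + 1) : Set G)) ?_ ?_ u hu
      · rw [Subgroup.closure_union, Subgroup.closure_eq]
        exact le_of_eq ih
      · rintro z (hz | hz)
        · have h2 : s * z * s⁻¹ * z⁻¹ ∈ K :=
            (le_sup_left : Subgroup.closure (Zc S (j + 1)) ≤ K)
              (Subgroup.subset_closure ⟨s, hs, z, hz, rfl⟩)
          have h3 := K.inv_mem h2
          have h4 : (s * z * s⁻¹ * z⁻¹)⁻¹ = ⁅z, s⁆ := by
            rw [commutatorElement_def]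
            group
          rw [h4] at h3
          exact h3
        · exact hle (hcm (j + 1) z hz s)
    have h2 : ⁅x, u⁆ ∈ K := by
      refine Lcs_left K u ⊤ S (le_of_eq hS.symm) ?_ x (Subgroup.mem_top x)
      intro s hs
      have h3 := K.inv_mem (h1 s hs)
      rwa [commutatorElement_inv] at h3
    have h3 := K.inv_mem h2
    rwa [commutatorElement_inv] at h3

theorem lcs_last {G : Type} [Group G] (S : Set G) (hS : Subgroup.closure S = ⊤) (c : ℕ)
    (hc : (⊤ : Subgroup G).lowerCentralSeries (c + 1) = ⊥) :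
    (⊤ : Subgroup G).lowerCentralSeries c = Subgroup.closure (Zc S c) := by
  rw [lcs_gen S hS c, hc, sup_bot_eq]

theorem lcs_fg {G : Type} [Group G] (S : Finset G) (hS : Subgroup.closure (S : Set G) = ⊤) (c : ℕ)
    (hc : (⊤ : Subgroup G).lowerCentralSeries c = ⊥) (j : ℕ) :
    ∃ Z : Finset G, Subgroup.closure (Z : Set G) = (⊤ : Subgroup G).lowerCentralSeries j := by
  classical
  have key : ∀ k j : ℕ, c ≤ j + k →
      ∃ Z : Finset G, Subgroup.closure (Z : Set G) = (⊤ : Subgroup G).lowerCentralSeries j := by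
    intro k
    induction k with
    | zero =>
      intro j hj
      refine ⟨∅, ?_⟩
      have h1 : (⊤ : Subgroup G).lowerCentralSeries j ≤ ⊥ := by
        rw [← hc]
        exact Subgroup.lowerCentralSeries_antitone (⊤ : Subgroup G) (by omega)
      rw [Finset.coe_empty, Subgroup.closure_empty, eq_comm, eq_bot_iff]
      exact h1
    | succ k ih =>
      intro j hj
      obtain ⟨Z, hZ⟩ := ih (j + 1) (by omega)
      have hfin := Zc_finite (S := (S : Set G)) S.finite_toSet j
      refine ⟨hfin.toFinset ∪ Z, ?_⟩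
      rw [Finset.coe_union, Set.Finite.coe_toFinset, Subgroup.closure_union, hZ, ← lcs_gen _ hS j]
  exact key c j (by omega)

end Pool.Agent.MET90
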