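import Pool.Agent.MET90.Basic

/-!
Module MODEL: construction of the real model of `A`.

Let `M = Additive A` (an additive commutative group), `V = ℚ ⊗[ℤ] M`, `j : M → V`, `j a = 1 ⊗ a`.
* `V` is spanned over `ℚ` by `j '' Z` (every element of `V` is `q • j a`; and `k • a ∈ closure Z`), so it is
  finite dimensional; choose a basis `b : Basis (Fin r) ℚ V`.
* `ker j` consists of the torsion elements (`IsLocalizedModule (nonZeroDivisors ℤ) (TensorProduct.mk ℤ ℚ M 1)`,
  `IsLocalizedModule.eq_zero_iff`; or any other way, e.g. build `V` as a `LocalizedModule`).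
* `ι a = fun i => ((b.repr (j a) i : ℚ) : ℝ)` for `a ∈ A` (and `0` outside `A`),
  `ρ g = ` the real matrix of `id ⊗ (conjugation by g)` in the basis `b`.
* `span`: each `b i` is `q • j a`, so its coordinate vector is in `span ℝ (ι '' A)`.
* `fin`: let `Y ⊆ A` be finite, `N ≥ 1` a common denominator of the coordinates of `ι y`, `y ∈ Y`. For
  `a ∈ closure Y` the coordinates of `N ι a` are integers, so `‖ι a‖ ≤ R` leaves finitely many values of `ι a`;
  two elements of `closure Y` with the same `ι` differ by a torsion element of the finitely generated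
  abelian group `closure Y`, and there are finitely many of those.
-/

set_option autoImplicit false

namespace Pool.Agent.MET90

open scoped TensorProduct

/-- Torsion elements of a finitely generated subgroup. -/
private lemma finite_tors {M : Type} [AddCommGroup M] (Y : Finset M) :
    {t : M | t ∈ Submodule.span ℤ (Y : Set M) ∧ ∃ k : ℤ, k ≠ 0 ∧ k • t = 0}.Finite := by
  classical
  set K : Submodule ℤ M := Submodule.span ℤ (Y : Set M) with hK
  haveI hKfin : Module.Finite ℤ K := Module.Finite.span_of_finite ℤ Y.finite_toSet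
  haveI : IsNoetherian ℤ K := inferInstance
  haveI : Module.Finite ℤ (Submodule.torsion ℤ K) := inferInstance
  have hT : Finite (Submodule.torsion ℤ K) :=
    Module.finite_of_fg_torsion _ (Submodule.torsion_isTorsion (R := ℤ) (M := K))
  have h1 : (Set.range fun t : Submodule.torsion ℤ K => ((t : K) : M)).Finite := Set.finite_range _
  refine h1.subset ?_
  rintro t ⟨htK, k, hk, hkt⟩
  refine ⟨⟨⟨t, htK⟩, ?_⟩, rfl⟩
  rw [Submodule.mem_torsion_iff]
  exact ⟨⟨k, mem_nonZeroDivisors_of_ne_zero hk⟩, Subtype.ext hkt⟩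

/-- The model of an abelian group of finite rank. -/
private theorem abs_model {M : Type} [AddCommGroup M] (Z : Finset M)
    (hrad : ∀ a : M, ∃ k : ℕ, 0 < k ∧ k • a ∈ AddSubgroup.closure (Z : Set M)) :
    ∃ (r : ℕ) (ι : M → (Fin r → ℝ)) (P : Module.End ℤ M →* Module.End ℝ (Fin r → ℝ)),
      (∀ a b, ι (a + b) = ι a + ι b) ∧ (∀ f a, ι (f a) = P f (ι a)) ∧
      Submodule.span ℝ (Set.range ι) = ⊤ ∧
      ∀ Y : Finset M, ∀ R : ℝ,
        {a | a ∈ AddSubgroup.closure (Y : Set M) ∧ ‖ι a‖ ≤ R}.Finite := by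
  classical
  set j : M →ₗ[ℤ] ℚ ⊗[ℤ] M := TensorProduct.mk ℤ ℚ M 1 with hjdef
  have hj : ∀ a, j a = (1 : ℚ) ⊗ₜ[ℤ] a := fun a => rfl
  have htm : ∀ (q : ℚ) (a : M), q ⊗ₜ[ℤ] a = q • j a := by
    intro q a
    rw [hj, TensorProduct.smul_tmul', smul_eq_mul, mul_one]
  -- the kernel
  have hker : ∀ a, j a = 0 → ∃ k : ℤ, k ≠ 0 ∧ k • a = 0 := by
    intro a ha
    haveI : IsLocalizedModule (nonZeroDivisors ℤ) j :=
      (isLocalizedModule_iff_isBaseChange (nonZeroDivisors ℤ) ℚ j).2
        (TensorProduct.isBaseChange ℤ M ℚ)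
    obtain ⟨c, hc⟩ := (IsLocalizedModule.eq_zero_iff (nonZeroDivisors ℤ) j).1 ha
    exact ⟨c, nonZeroDivisors.ne_zero c.2, hc⟩
  -- finite dimension
  have hcl : ∀ x ∈ AddSubgroup.closure (Z : Set M), j x ∈ Submodule.span ℚ (j '' (Z : Set M)) := by
    intro x hx
    induction hx using AddSubgroup.closure_induction with
    | mem x hx => exact Submodule.subset_span ⟨x, hx, rfl⟩
    | zero => rw [map_zero]; exact Submodule.zero_mem _
    | add x y _ _ hx hy => rw [map_add]; exact Submodule.add_mem _ hx hy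
    | neg x _ hx => rw [map_neg]; exact Submodule.neg_mem _ hx
  have hjs : ∀ a, j a ∈ Submodule.span ℚ (j '' (Z : Set M)) := by
    intro a
    obtain ⟨k, hk, hka⟩ := hrad a
    have h2 := hcl _ hka
    have hk0 : (k : ℚ) ≠ 0 := by exact_mod_cast hk.ne'
    have h3 : j a = (k : ℚ)⁻¹ • j (k • a) := by
      rw [map_nsmul, ← Nat.cast_smul_eq_nsmul ℚ, smul_smul, inv_mul_cancel₀ hk0, one_smul]
    rw [h3]
    exact Submodule.smul_mem _ _ h2
  have htop : Submodule.span ℚ (j '' (Z : Set M)) = ⊤ := by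
    rw [eq_top_iff]
    intro v _
    induction v using TensorProduct.induction_on with
    | zero => exact Submodule.zero_mem _
    | tmul q a => rw [htm]; exact Submodule.smul_mem _ _ (hjs a)
    | add x y hx hy =>
      exact Submodule.add_mem _ (hx Submodule.mem_top) (hy Submodule.mem_top)
  haveI : Module.Finite ℚ (ℚ ⊗[ℤ] M) := ⟨⟨Z.image j, by rw [Finset.coe_image]; exact htop⟩⟩
  set r : ℕ := Module.finrank ℚ (ℚ ⊗[ℤ] M) with hr
  let b : Module.Basis (Fin r) ℚ (ℚ ⊗[ℤ] M) := Module.finBasis ℚ (ℚ ⊗[ℤ] M)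
  let c : ℚ ⊗[ℤ] M → (Fin r → ℝ) := fun v i => ((b.repr v i : ℚ) : ℝ)
  have hc_add : ∀ v w, c (v + w) = c v + c w := by
    intro v w
    funext i
    change ((b.repr (v + w) i : ℚ) : ℝ) = ((b.repr v i : ℚ) : ℝ) + ((b.repr w i : ℚ) : ℝ)
    rw [map_add, Finsupp.add_apply, Rat.cast_add]
  have hc_smul : ∀ (q : ℚ) v, c (q • v) = (q : ℝ) • c v := by
    intro q v
    funext i
    change ((b.repr (q • v) i : ℚ) : ℝ) = (q : ℝ) * ((b.repr v i : ℚ) : ℝ)
    rw [map_smul, Finsupp.smul_apply, smul_eq_mul, Rat.cast_mul]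
  have hc_inj : ∀ v w, c v = c w → v = w := by
    intro v w h
    apply b.repr.injective
    ext i
    have h1 : ((b.repr v i : ℚ) : ℝ) = ((b.repr w i : ℚ) : ℝ) := congrFun h i
    exact_mod_cast h1
  let P : Module.End ℤ M →* Module.End ℝ (Fin r → ℝ) :=
    { toFun := fun f => Matrix.toLinAlgEquiv' ((algebraMap ℚ ℝ).mapMatrix
        (LinearMap.toMatrixAlgEquiv b (Module.End.baseChangeHom ℤ ℚ M f)))
      map_one' := by rw [map_one, map_one, map_one, map_one]
      map_mul' := fun f g => by rw [map_mul, map_mul, map_mul, map_mul] }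
  refine ⟨r, fun a => c (j a), P, ?_, ?_, ?_, ?_⟩
  · intro a b
    change c (j (a + b)) = _
    rw [map_add, hc_add]
  · intro f a
    funext i
    have h1 : P f (c (j a)) = ((algebraMap ℚ ℝ).mapMatrix
        (LinearMap.toMatrixAlgEquiv b (Module.End.baseChangeHom ℤ ℚ M f))).mulVec (c (j a)) :=
      Matrix.toLinAlgEquiv'_apply _ _
    have h2 : (LinearMap.toMatrix b b (Module.End.baseChangeHom ℤ ℚ M f)).mulVec (b.repr (j a)) =
        b.repr (Module.End.baseChangeHom ℤ ℚ M f (j a)) := LinearMap.toMatrix_mulVec_repr b b _ _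
    have h3 : Module.End.baseChangeHom ℤ ℚ M f (j a) = j (f a) := by
      rw [hj, hj]
      exact LinearMap.baseChange_tmul (A := ℚ) (f := f) (1 : ℚ) a
    rw [h3] at h2
    change ((b.repr (j (f a)) i : ℚ) : ℝ) = P f (c (j a)) i
    rw [h1, ← h2]
    simp only [Matrix.mulVec, dotProduct]
    rw [Rat.cast_sum]
    refine Finset.sum_congr rfl fun k _ => ?_
    rw [Rat.cast_mul]
    rfl
  · have h1 : ∀ v, c v ∈ Submodule.span ℝ (Set.range fun a => c (j a)) := by
      intro v
      induction v using TensorProduct.induction_on with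
      | zero =>
        have : c 0 = 0 := by
          have h0 := hc_smul 0 0
          rw [zero_smul, Rat.cast_zero, zero_smul] at h0
          exact h0
        rw [this]
        exact Submodule.zero_mem _
      | tmul q a =>
        rw [htm, hc_smul]
        exact Submodule.smul_mem _ _ (Submodule.subset_span ⟨a, rfl⟩)
      | add x y hx hy => rw [hc_add]; exact Submodule.add_mem _ hx hy
    rw [eq_top_iff]
    intro w _
    have h2 : w = ∑ i, w i • (fun k => if i = k then (1 : ℝ) else 0) := pi_eq_sum_univ w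
    rw [h2]
    refine Submodule.sum_mem _ fun i _ => Submodule.smul_mem _ _ ?_
    have h3 : (fun k => if i = k then (1 : ℝ) else 0) = c (b i) := by
      funext k
      change _ = ((b.repr (b i) k : ℚ) : ℝ)
      rw [b.repr_self, Finsupp.single_apply]
      split_ifs <;> simp
    rw [h3]
    exact h1 _
  · intro Y R
    obtain ⟨N, hN, hNY⟩ : ∃ N : ℕ, 0 < N ∧ ∀ a ∈ AddSubgroup.closure (Y : Set M), ∀ i,
        ∃ m : ℤ, (N : ℚ) * b.repr (j a) i = m := by
      refine ⟨∏ y ∈ Y, ∏ i, (b.repr (j y) i).den,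
        Finset.prod_pos fun y _ => Finset.prod_pos fun i _ => Rat.den_pos _, ?_⟩
      intro a ha
      induction ha using AddSubgroup.closure_induction with
      | mem y hy =>
        intro i
        have hd : (b.repr (j y) i).den ∣ ∏ y ∈ Y, ∏ i, (b.repr (j y) i).den :=
          (Finset.dvd_prod_of_mem (fun i => (b.repr (j y) i).den) (Finset.mem_univ i)).trans
            (Finset.dvd_prod_of_mem (fun y => ∏ i, (b.repr (j y) i).den) hy)
        obtain ⟨t, ht⟩ := hd
        refine ⟨(b.repr (j y) i).num * t, ?_⟩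
        rw [ht]
        push_cast
        have h1 : (b.repr (j y) i) * ((b.repr (j y) i).den : ℚ) = ((b.repr (j y) i).num : ℚ) :=
          Rat.mul_den_eq_num _
        rw [← h1]
        ring
      | zero =>
        intro i
        exact ⟨0, by rw [map_zero, map_zero, Finsupp.zero_apply, mul_zero, Int.cast_zero]⟩
      | add x y _ _ hx hy =>
        intro i
        obtain ⟨m, hm⟩ := hx i
        obtain ⟨n, hn⟩ := hy i
        exact ⟨m + n, by rw [map_add, map_add, Finsupp.add_apply, mul_add, hm, hn, Int.cast_add]⟩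
      | neg x _ hx =>
        intro i
        obtain ⟨m, hm⟩ := hx i
        exact ⟨-m, by rw [map_neg, map_neg, Finsupp.neg_apply, mul_neg, hm, Int.cast_neg]⟩
    have hNR : (0 : ℝ) < N := by exact_mod_cast hN
    let m : M → (Fin r → ℤ) := fun a i => ⌊(N : ℚ) * b.repr (j a) i⌋
    have hm : ∀ a ∈ AddSubgroup.closure (Y : Set M), ∀ i,
        ((m a i : ℤ) : ℚ) = (N : ℚ) * b.repr (j a) i := by
      intro a ha i
      obtain ⟨k, hk⟩ := hNY a ha i
      change ((⌊(N : ℚ) * b.repr (j a) i⌋ : ℤ) : ℚ) = _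
      rw [hk, Int.floor_intCast]
    refine Set.Finite.of_finite_fibers m ?_ ?_
    · refine (Set.finite_Icc (fun _ : Fin r => -⌈(N : ℝ) * R⌉) (fun _ => ⌈(N : ℝ) * R⌉)).subset ?_
      rintro _ ⟨a, ⟨ha, hR⟩, rfl⟩
      have h1 : ∀ i, |((m a i : ℤ) : ℝ)| ≤ N * R := by
        intro i
        have h2 : ((m a i : ℤ) : ℝ) = (N : ℝ) * ((b.repr (j a) i : ℚ) : ℝ) := by
          have h3 := hm a ha i
          have h4 : (((m a i : ℤ) : ℚ) : ℝ) = (((N : ℚ) * b.repr (j a) i : ℚ) : ℝ) := by rw [h3]
          push_cast at h4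
          exact h4
        have h5 : |((b.repr (j a) i : ℚ) : ℝ)| ≤ ‖c (j a)‖ := norm_le_pi_norm (c (j a)) i
        rw [h2, abs_mul, abs_of_pos hNR]
        exact mul_le_mul_of_nonneg_left (h5.trans hR) hNR.le
      constructor
      · intro i
        have h2 := (abs_le.1 (h1 i)).1
        have h3 : -((⌈(N : ℝ) * R⌉ : ℤ) : ℝ) ≤ ((m a i : ℤ) : ℝ) := by
          have := Int.le_ceil ((N : ℝ) * R)
          linarith
        exact_mod_cast h3
      · intro i
        have h2 := (abs_le.1 (h1 i)).2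
        have h3 : ((m a i : ℤ) : ℝ) ≤ ((⌈(N : ℝ) * R⌉ : ℤ) : ℝ) := h2.trans (Int.le_ceil _)
        exact_mod_cast h3
    · rintro _ ⟨a0, ⟨ha0, -⟩, rfl⟩
      have hsub : ∀ a, a ∈ {a | a ∈ AddSubgroup.closure (Y : Set M) ∧ ‖c (j a)‖ ≤ R} ∩ m ⁻¹' {m a0} →
          a - a0 ∈ {t : M | t ∈ Submodule.span ℤ (Y : Set M) ∧ ∃ k : ℤ, k ≠ 0 ∧ k • t = 0} := by
        rintro a ⟨⟨ha, -⟩, hma⟩
        have hma' : m a = m a0 := hma
        refine ⟨?_, ?_⟩
        · have h1 : a - a0 ∈ AddSubgroup.closure (Y : Set M) := AddSubgroup.sub_mem _ ha ha0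
          rw [← Submodule.span_int_eq_addSubgroupClosure] at h1
          exact h1
        · apply hker
          rw [map_sub, sub_eq_zero]
          apply b.repr.injective
          ext i
          have h1 := hm a ha i
          have h2 := hm a0 ha0 i
          rw [hma'] at h1
          have h3 : (N : ℚ) * b.repr (j a) i = (N : ℚ) * b.repr (j a0) i := by rw [← h1, ← h2]
          have hN0 : (N : ℚ) ≠ 0 := by exact_mod_cast hN.ne'
          exact mul_left_cancel₀ hN0 h3
      refine Set.Finite.of_finite_image (f := fun a => a - a0) ((finite_tors Y).subset ?_) ?_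
      · rintro _ ⟨a, ha, rfl⟩
        exact hsub a ha
      · intro a _ a' _ h
        exact sub_left_injective h

theorem exists_model {G : Type} [Group G] {A : Subgroup G} (hn : A.Normal)
    (hcomm : ∀ a ∈ A, ∀ b ∈ A, a * b = b * a) (Z : Finset G) (hZ : (Z : Set G) ⊆ A)
    (hrad : ∀ a ∈ A, ∃ k : ℕ, 0 < k ∧ a ^ k ∈ Subgroup.closure (Z : Set G)) :
    ∃ r : ℕ, Nonempty (Model A (Fin r → ℝ)) := by
  classical
  letI hcg : AddCommGroup (Additive A) :=
    { (inferInstance : AddGroup (Additive A)) with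
      add_comm := fun a b => Additive.toMul.injective
        (Subtype.ext (hcomm _ (Additive.toMul a).2 _ (Additive.toMul b).2)) }
  let cc : Additive A → G := fun a => ((Additive.toMul a : A) : G)
  have cc_inj : Function.Injective cc := fun a b h => Additive.toMul.injective (Subtype.ext h)
  have cc_mem : ∀ a, cc a ∈ A := fun a => (Additive.toMul a).2
  have cc_add : ∀ a b, cc (a + b) = cc a * cc b := fun a b => rfl
  have cc_neg : ∀ a, cc (-a) = (cc a)⁻¹ := fun a => rfl
  have cc_zero : cc 0 = 1 := rfl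
  have cc_nsmul : ∀ (k : ℕ) a, cc (k • a) = cc a ^ k := by
    intro k a
    induction k with
    | zero => rw [zero_nsmul, pow_zero, cc_zero]
    | succ k ih => rw [succ_nsmul, pow_succ, cc_add, ih]
  -- closures
  have hclo : ∀ Y : Finset G, (Y : Set G) ⊆ A → ∀ g ∈ Subgroup.closure (Y : Set G),
      ∃ a : Additive A, cc a = g ∧
        a ∈ AddSubgroup.closure ((Y.preimage cc cc_inj.injOn : Finset (Additive A)) :
          Set (Additive A)) := by
    intro Y hY g hg
    induction hg using Subgroup.closure_induction with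
    | mem y hy =>
      refine ⟨Additive.ofMul ⟨y, hY hy⟩, rfl, AddSubgroup.subset_closure ?_⟩
      rw [Finset.mem_coe, Finset.mem_preimage]
      exact hy
    | one => exact ⟨0, rfl, AddSubgroup.zero_mem _⟩
    | mul x y _ _ hx hy =>
      obtain ⟨a, rfl, ha⟩ := hx
      obtain ⟨b, rfl, hb⟩ := hy
      exact ⟨a + b, rfl, AddSubgroup.add_mem _ ha hb⟩
    | inv x _ hx =>
      obtain ⟨a, rfl, ha⟩ := hx
      exact ⟨-a, rfl, AddSubgroup.neg_mem _ ha⟩
  obtain ⟨r, ι, P, hadd, hP, hspan, hfin⟩ := abs_model (Z.preimage cc cc_inj.injOn) (by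
    intro a
    obtain ⟨k, hk, hka⟩ := hrad (cc a) (cc_mem a)
    obtain ⟨a', ha', ha''⟩ := hclo Z hZ _ hka
    refine ⟨k, hk, ?_⟩
    have h1 : k • a = a' := cc_inj (by rw [ha', cc_nsmul])
    rw [h1]
    exact ha'')
  -- conjugation
  have conj_mem : ∀ (g : G) (a : Additive A), g * cc a * g⁻¹ ∈ A := fun g a =>
    hn.conj_mem _ (cc_mem a) g
  let conj : G → Additive A → Additive A := fun g a => Additive.ofMul ⟨g * cc a * g⁻¹, conj_mem g a⟩
  have cc_conj : ∀ g a, cc (conj g a) = g * cc a * g⁻¹ := fun g a => rfl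
  let κ : G →* Module.End ℤ (Additive A) :=
    { toFun := fun g => AddMonoidHom.toIntLinearMap (AddMonoidHom.mk' (conj g) (by
        intro a b
        apply cc_inj
        rw [cc_conj, cc_add, cc_add, cc_conj, cc_conj]
        group))
      map_one' := by
        refine LinearMap.ext fun a => cc_inj ?_
        change 1 * cc a * 1⁻¹ = cc a
        group
      map_mul' := by
        intro g h
        refine LinearMap.ext fun a => cc_inj ?_
        change (g * h) * cc a * (g * h)⁻¹ = g * (h * cc a * h⁻¹) * g⁻¹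
        group }
  have hκ : ∀ g a, κ g a = conj g a := fun g a => rfl
  let ι' : G → (Fin r → ℝ) := fun g => if h : g ∈ A then ι (Additive.ofMul ⟨g, h⟩) else 0
  have hι' : ∀ a : Additive A, ι' (cc a) = ι a := by
    intro a
    change (if h : cc a ∈ A then ι (Additive.ofMul ⟨cc a, h⟩) else 0) = ι a
    rw [dif_pos (cc_mem a)]
    rfl
  have hlift : ∀ g ∈ A, ∃ a : Additive A, cc a = g := fun g hg => ⟨Additive.ofMul ⟨g, hg⟩, rfl⟩
  refine ⟨r, ⟨{ ι := ι', ρ := P.comp κ, ι_mul := ?_, ι_conj := ?_, ρ_A := ?_, fin := ?_, span := ?_ }⟩⟩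
  · intro a ha b hb
    obtain ⟨a, rfl⟩ := hlift a ha
    obtain ⟨b, rfl⟩ := hlift b hb
    rw [← cc_add, hι', hι', hι', hadd]
  · intro g a ha
    obtain ⟨a, rfl⟩ := hlift a ha
    rw [← cc_conj, hι', hι', ← hκ, hP]
    rfl
  · intro g hg
    have h1 : κ g = 1 := by
      refine LinearMap.ext fun a => cc_inj ?_
      change g * cc a * g⁻¹ = cc a
      rw [hcomm g hg _ (cc_mem a), mul_inv_cancel_right]
    rw [MonoidHom.comp_apply, h1, map_one]
  · intro Y hY R
    refine ((hfin (Y.preimage cc cc_inj.injOn) R).image cc).subset ?_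
    rintro g ⟨hg, hR⟩
    obtain ⟨a, rfl, ha⟩ := hclo Y hY g hg
    rw [hι'] at hR
    exact ⟨a, ⟨ha, hR⟩, rfl⟩
  · have h1 : ι' '' (A : Set G) = Set.range ι := by
      ext v
      constructor
      · rintro ⟨g, hg, rfl⟩
        obtain ⟨a, rfl⟩ := hlift g hg
        exact ⟨a, (hι' a).symm⟩
      · rintro ⟨a, rfl⟩
        exact ⟨cc a, cc_mem a, hι' a⟩
    rw [h1, hspan]

end Pool.Agent.MET90
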