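import Pool.Agent.MET90.Basic

/-!
Module MON: for every `s ∈ S` there is a finite `L ⊆ A` with `Monic A s L`.

Proof. Suppose not. Then for every finite `L ⊆ A` there is `b ∈ A` with
`s^m b s^(-m) ∉ ⟨s^i b s^(-i) : i < m⟩ ⊔ ⟨s^i l s^(-i) : i ∈ ℕ, l ∈ L⟩` for all `m`. Choose successively
`b_0, b_1, …, b_{J-1}` (`L_k = {b_0, …, b_{k-1}}`, `J = 8 C₁ + 1`, `C₁` from `L1`). The elements
`s^i b_k s^(-i)`, `0 ≤ k < J` (outer), `0 ≤ i < I` (inner, increasing) form a chain: the previous ones lie in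
`{s^i' b_k s^(-i') : i' < i} ∪ {s^i' b_k' s^(-i') : k' < k, i' ∈ ℕ}`. Their lengths are `≤ 2 i + max |b_k|`.
With `N = 2 max |b_k| + 8`, `n ≥ N` from `L1`, `I = n / 4`: all lengths `≤ n`, so `I J ≤ C₁ n`, but
`8 I ≥ n` gives `8 I J > 8 C₁ n`: contradiction.
`Monic.mono`: enlarging `L` is allowed.
-/

set_option autoImplicit false

namespace Pool.Agent.MET90

lemma Monic.mono {G : Type} [Group G] {A : Subgroup G} {s : G} {L L' : Finset G}
    (h : Monic A s L) (hL : L ⊆ L') : Monic A s L' := by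
  intro b hb
  obtain ⟨m, hm⟩ := h b hb
  refine ⟨m, Subgroup.closure_mono ?_ hm⟩
  apply Set.union_subset_union_right
  rintro x ⟨i, l, hl, rfl⟩
  exact ⟨i, l, hL hl, rfl⟩

theorem exists_monic {G : Type} [Group G] {S : Finset G} {A : Subgroup G} (hs : Setup S A)
    (h1 : L1 (S : Set G) A) (s : G) (hsS : s ∈ S) :
    ∃ L : Finset G, (L : Set G) ⊆ A ∧ Monic A s L := by
  classical
  by_contra hcon
  push Not at hcon
  -- the choice of `b` for `L`
  have hF : ∀ L : Finset G, ∃ b : G, (L : Set G) ⊆ A → b ∈ A ∧ ∀ m : ℕ,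
      s ^ m * b * (s ^ m)⁻¹ ∉ Subgroup.closure
        ({x | ∃ i < m, x = s ^ i * b * (s ^ i)⁻¹} ∪
          {x | ∃ i : ℕ, ∃ l ∈ L, x = s ^ i * l * (s ^ i)⁻¹}) := by
    intro L
    by_cases hL : (L : Set G) ⊆ A
    · have h2 := hcon L hL
      unfold Monic at h2
      push Not at h2
      obtain ⟨b, hb, h3⟩ := h2
      exact ⟨b, fun _ => ⟨hb, h3⟩⟩
    · exact ⟨1, fun h => absurd h hL⟩
  choose F hF using hF
  obtain ⟨Ls, hL0, hLs⟩ : ∃ Ls : ℕ → Finset G, Ls 0 = ∅ ∧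
      ∀ k, Ls (k + 1) = insert (F (Ls k)) (Ls k) :=
    ⟨fun k => Nat.rec ∅ (fun _ L => insert (F L) L) k, rfl, fun _ => rfl⟩
  have hLA : ∀ k, ((Ls k : Finset G) : Set G) ⊆ A := by
    intro k
    induction k with
    | zero =>
      rw [hL0]
      simp
    | succ k ih =>
      rw [hLs, Finset.coe_insert]
      exact Set.insert_subset (hF _ ih).1 ih
  have hmem : ∀ k k', k < k' → F (Ls k) ∈ Ls k' := by
    intro k k' hk
    induction k' with
    | zero => exact absurd hk (Nat.not_lt_zero _)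
    | succ k' ih =>
      rw [hLs, Finset.mem_insert]
      rcases Nat.lt_succ_iff_lt_or_eq.1 hk with h | h
      · exact Or.inr (ih h)
      · exact Or.inl (by rw [h])
  obtain ⟨C₁, hC⟩ := h1
  obtain ⟨M, hM⟩ := exists_WB_of_finite hs.gen
    ((fun k => F (Ls k)) '' (Set.Iio (8 * C₁ + 1))) ((Set.finite_Iio _).image _)
  obtain ⟨n, hn, hch⟩ := hC (2 * M + 8)
  have hI : 0 < n / 4 := by omega
  have hs1 : s ∈ WB (S : Set G) 1 := mem_WB_one hsS
  have hlt : ∀ j : Fin ((8 * C₁ + 1) * (n / 4)), (j : ℕ) / (n / 4) < 8 * C₁ + 1 := by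
    intro j
    exact Nat.div_lt_of_lt_mul (lt_of_lt_of_eq j.2 (mul_comm _ _))
  have hfin := hch ((8 * C₁ + 1) * (n / 4))
    (fun j => s ^ ((j : ℕ) % (n / 4)) * F (Ls ((j : ℕ) / (n / 4))) * (s ^ ((j : ℕ) % (n / 4)))⁻¹)
    (fun j => ?_) (fun j => ?_) (fun j => ?_)
  · have h2 : n ≤ 8 * (n / 4) := by omega
    have h3 : C₁ * n ≤ C₁ * (8 * (n / 4)) := Nat.mul_le_mul_left _ h2
    have h4 : (8 * C₁ + 1) * (n / 4) = C₁ * (8 * (n / 4)) + n / 4 := by ring
    omega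
  · exact hs.normal.conj_mem _ (hF _ (hLA _)).1 _
  · have h2 : F (Ls ((j : ℕ) / (n / 4))) ∈ WB (S : Set G) M :=
      hM ⟨_, hlt j, rfl⟩
    have h3 : s ^ ((j : ℕ) % (n / 4)) ∈ WB (S : Set G) ((j : ℕ) % (n / 4) * 1) :=
      pow_mem_WB hs1 _
    refine WB_mono _ ?_ (conj_mem_WB h3 h2)
    have h4 := Nat.mod_lt (j : ℕ) hI
    omega
  · intro hin
    apply (hF (Ls ((j : ℕ) / (n / 4))) (hLA _)).2 ((j : ℕ) % (n / 4))
    refine Subgroup.closure_mono ?_ hin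
    rintro _ ⟨j', hj', rfl⟩
    have hj'' : (j' : ℕ) < j := hj'
    have h2 : (j' : ℕ) / (n / 4) ≤ (j : ℕ) / (n / 4) := Nat.div_le_div_right hj''.le
    rcases Nat.lt_or_eq_of_le h2 with h3 | h3
    · right
      exact ⟨_, _, hmem _ _ h3, rfl⟩
    · left
      refine ⟨(j' : ℕ) % (n / 4), ?_, ?_⟩
      · have h4 := Nat.div_add_mod (j' : ℕ) (n / 4)
        have h5 := Nat.div_add_mod (j : ℕ) (n / 4)
        rw [h3] at h4
        omega
      · beta_reduce
        rw [h3]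

end Pool.Agent.MET90
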