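import Pool.Agent.MET90.NilStep
import Pool.Agent.MET90.Ext

/-!
Module NIL: finitely generated metabelian nilpotent groups have finite Assouad-Nagata dimension.
-/

set_option autoImplicit false

namespace Pool.Agent.MET90

lemma coe_image_mk {G : Type} [Group G] [DecidableEq G] (N : Subgroup G) [N.Normal]
    [DecidableEq (G ⧸ N)] (S : Finset G) :
    ((S.image (QuotientGroup.mk' N) : Finset (G ⧸ N)) : Set (G ⧸ N)) =
      (QuotientGroup.mk' N) '' (S : Set G) := by
  ext x; simp

theorem nil_fan (c : ℕ) : ∀ (G : Type) [Group G] (S : Finset G),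
    Subgroup.closure (S : Set G) = ⊤ → (1 : G) ∈ S → (∀ s ∈ S, s⁻¹ ∈ S) →
    (∀ a ∈ commutator G, ∀ b ∈ commutator G, a * b = b * a) →
    (⊤ : Subgroup G).lowerCentralSeries c = ⊥ → FAN (WB (S : Set G)) := by
  classical
  induction c with
  | zero =>
    intro G _ S hS h1 hsymm hmet hc
    have htriv : ∀ g : G, g = 1 := by
      intro g
      have : g ∈ (⊤ : Subgroup G) := Subgroup.mem_top g
      rw [Subgroup.lowerCentralSeries_zero] at hc
      rw [hc] at this
      exact Subgroup.mem_bot.mp this
    refine ⟨0, 0, fun r hr => ⟨fun _ => 0, fun _ => 1, fun x y _ => ⟨fun _ => ?_, fun h => ?_⟩⟩⟩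
    · rw [htriv (x⁻¹ * y)]
      exact one_mem_WB _ _
    · exact absurd rfl h
  | succ c ih =>
    intro G _ S hS h1 hsymm hmet hc
    set N := (⊤ : Subgroup G).lowerCentralSeries c with hN
    refine FAN_extension (WB (S : Set G)) (WB_isBalls _) N ?_ ?_
    · exact nil_step S hS h1 hsymm hmet c hc
    · have hfun : (fun n => (QuotientGroup.mk' N) '' WB (S : Set G) n) =
          WB ((S.image (QuotientGroup.mk' N) : Finset (G ⧸ N)) : Set (G ⧸ N)) := by
        funext n
        rw [image_WB, coe_image_mk]
      rw [hfun]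
      refine ih (G ⧸ N) (S.image (QuotientGroup.mk' N)) ?_ ?_ ?_ ?_ ?_
      · rw [coe_image_mk, ← MonoidHom.map_closure, hS]
        exact Subgroup.map_top_of_surjective _ (QuotientGroup.mk'_surjective N)
      · rw [Finset.mem_image]
        exact ⟨1, h1, map_one _⟩
      · intro s hs
        rw [Finset.mem_image] at hs ⊢
        obtain ⟨x, hx, rfl⟩ := hs
        exact ⟨x⁻¹, hsymm x hx, map_inv _ _⟩
      · have hmap : commutator (G ⧸ N) = (commutator G).map (QuotientGroup.mk' N) := by
          rw [commutator_def, commutator_def, Subgroup.map_commutator,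
            Subgroup.map_top_of_surjective _ (QuotientGroup.mk'_surjective N)]
        intro a ha b hb
        rw [hmap] at ha hb
        obtain ⟨x, hx, rfl⟩ := ha
        obtain ⟨y, hy, rfl⟩ := hb
        rw [← map_mul, ← map_mul, hmet x hx y hy]
      · have hmap := Subgroup.map_lowerCentralSeries (⊤ : Subgroup G) (QuotientGroup.mk' N) c
        rw [Subgroup.map_top_of_surjective _ (QuotientGroup.mk'_surjective N)] at hmap
        rw [← hmap, ← hN]
        rw [eq_bot_iff]
        rintro _ ⟨x, hx, rfl⟩
        rw [Subgroup.mem_bot]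
        exact (QuotientGroup.eq_one_iff x).mpr hx

end Pool.Agent.MET90
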