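import Pool.Agent.MET90.Cover

/-!
Module TRACK: tracking a real multiple of a derivation along a word.

Choose a finite `Y ⊆ A` with `ι Y` spanning `E` (possible as `ι A` spans the finite dimensional `E`),
`H = ⟨Y⟩`, `R` from `cover`. Let `T = S` (symmetric), `κ ≥ ‖ρ(s)⁻¹ v‖ / ‖v‖` for all `s ∈ S`
(`ρ(s)⁻¹ = ρ (s⁻¹)`), `κ' ≥ ‖ρ(s⁻¹) (c s)‖`, `D = {x ∈ H : ‖ι x‖ ≤ R + κ R + κ'}` finite (`M.fin`), `|D|` =
maximal `S`-length on `D`, `K ≥ R`, `K ≥ 1 + |D|`.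
Induction on the word: let `g = s_1 ⋯ s_k`, `y ∈ A` with `y * g ∈ WB S (K k)` and error
`e = ρ(g)⁻¹ (ι y - t c(g))`, `‖e‖ ≤ R`. Let `s = s_{k+1}`, `g' = g s`. For `d ∈ D` put
`y' = y * (g' d g'⁻¹) ∈ A`, so `y' g' = y g s d ∈ WB S (K k + 1 + |D|)`, `ι y' = ι y + ρ(g') ι d`,
`c g' = c g + ρ(g) (c s)`, and
`e' = ρ(g')⁻¹ (ι y' - t c(g')) = ρ(s)⁻¹ e + ι d - t ρ(s)⁻¹ (c s)`. Choose `d ∈ H` with
`‖e'‖ ≤ R` (cover); then `‖ι d‖ ≤ R + κ R + κ'`, so `d ∈ D`.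
(Words of length `≤ n`; use `WB_symm` and induction on the list from the right, e.g. `List.reverseRecOn`, or
`WB_succ`.)
-/

set_option autoImplicit false

namespace Pool.Agent.MET90

private lemma track_rho_inv {G : Type} [Group G] {A : Subgroup G} {E : Type}
    [NormedAddCommGroup E] [NormedSpace ℝ E] (M : Model A E) (g : G) (v : E) :
    M.ρ g⁻¹ (M.ρ g v) = v := by
  rw [← Module.End.mul_apply, ← map_mul, inv_mul_cancel, map_one, Module.End.one_apply]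

private lemma track_finite_span {G : Type} [Group G] {A : Subgroup G} {E : Type}
    [NormedAddCommGroup E] [NormedSpace ℝ E] [FiniteDimensional ℝ E] (M : Model A E) :
    ∃ Y : Finset G, (Y : Set G) ⊆ A ∧
      Submodule.span ℝ (M.ι '' (Subgroup.closure (Y : Set G) : Set G)) = ⊤ := by
  classical
  have hfg : (Submodule.span ℝ (M.ι '' (A : Set G))).FG := by
    rw [M.span]
    exact Module.Finite.fg_top
  obtain ⟨s', hs', hspan⟩ := (Submodule.fg_span_iff_fg_span_finset_subset _).1 hfg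
  rw [M.span] at hspan
  have hpre : ∀ v ∈ s', ∃ a ∈ A, M.ι a = v := by
    intro v hv
    obtain ⟨a, ha, h⟩ := hs' (Finset.mem_coe.2 hv)
    exact ⟨a, ha, h⟩
  choose! f hf using hpre
  refine ⟨s'.image f, ?_, ?_⟩
  · intro a ha
    rw [Finset.mem_coe, Finset.mem_image] at ha
    obtain ⟨v, hv, rfl⟩ := ha
    exact (hf v hv).1
  · rw [eq_top_iff, hspan]
    apply Submodule.span_mono
    intro v hv
    refine ⟨f v, Subgroup.subset_closure ?_, (hf v hv).2⟩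
    rw [Finset.mem_coe]
    exact Finset.mem_image_of_mem f hv

theorem track {G : Type} [Group G] {S : Finset G} {A : Subgroup G} {E : Type}
    [NormedAddCommGroup E] [NormedSpace ℝ E] [FiniteDimensional ℝ E] (hs : Setup S A)
    (M : Model A E) (c : G → E) (hc : IsDer M c) :
    ∃ K : ℕ, ∀ t : ℝ, |t| ≤ 1 → ∀ n : ℕ, ∀ g ∈ WB (S : Set G) n, ∃ y ∈ A,
      y * g ∈ WB (S : Set G) (K * n) ∧ ‖M.ρ g⁻¹ (M.ι y - t • c g)‖ ≤ K := by
  classical
  obtain ⟨Y, hYA, hspan⟩ := track_finite_span M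
  obtain ⟨R, hR0, hR⟩ := cover M (Subgroup.closure (Y : Set G))
    ((Subgroup.closure_le A).2 hYA) hspan
  -- bounds for the action
  have hκs : ∀ s : G, ∃ κ : ℝ, 0 ≤ κ ∧ ∀ v : E, ‖M.ρ s⁻¹ v‖ ≤ κ * ‖v‖ := by
    intro s
    refine ⟨‖LinearMap.toContinuousLinearMap (M.ρ s⁻¹)‖, norm_nonneg _, fun v => ?_⟩
    exact (LinearMap.toContinuousLinearMap (M.ρ s⁻¹)).le_opNorm v
  choose κ hκ0 hκ using hκs
  set κ₁ : ℝ := ∑ s ∈ S, κ s with hκ₁
  set κ₂ : ℝ := ∑ s ∈ S, ‖M.ρ s⁻¹ (c s)‖ with hκ₂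
  have hk1 : ∀ s ∈ S, κ s ≤ κ₁ := fun s hsS =>
    Finset.single_le_sum (f := κ) (fun i _ => hκ0 i) hsS
  have hk2 : ∀ s ∈ S, ‖M.ρ s⁻¹ (c s)‖ ≤ κ₂ := fun s hsS =>
    Finset.single_le_sum (f := fun s => ‖M.ρ s⁻¹ (c s)‖) (fun i _ => norm_nonneg _) hsS
  obtain ⟨m, hm⟩ := exists_WB_of_finite hs.gen _ (M.fin Y hYA (R + κ₁ * R + κ₂))
  have hmain : ∀ t : ℝ, |t| ≤ 1 → ∀ n : ℕ, ∀ g ∈ WB (S : Set G) n, ∃ y ∈ A,
      y * g ∈ WB (S : Set G) ((⌈R⌉₊ + 1 + m) * n) ∧ ‖M.ρ g⁻¹ (M.ι y - t • c g)‖ ≤ R := by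
    intro t ht n
    induction n with
    | zero =>
      intro g hg
      have hg1 : g = 1 := by
        obtain ⟨l, h1, -, rfl⟩ := hg
        have : l = [] := List.eq_nil_of_length_eq_zero (by omega)
        simp [this]
      subst hg1
      refine ⟨1, A.one_mem, by simpa using one_mem_WB (S : Set G) 0, ?_⟩
      rw [M.ι_one, hc.map_one]
      simpa using hR0
    | succ n ih =>
      intro g' hg'
      obtain ⟨g, hg, s, hs1, rfl⟩ := WB_succ (S : Set G) n hg'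
      have hsS : s ∈ S := by
        rcases hs1 with h | h | h
        · exact h
        · have := hs.symm _ h
          rwa [inv_inv] at this
        · rw [h]; exact hs.one_mem
      obtain ⟨y, hyA, hyW, hyE⟩ := ih g hg
      obtain ⟨v, hv⟩ : ∃ v : E, v = M.ρ s⁻¹ (M.ρ g⁻¹ (M.ι y - t • c g)) - t • M.ρ s⁻¹ (c s) :=
        ⟨_, rfl⟩
      obtain ⟨x, hxH, hx⟩ := hR v
      have hvn : ‖v‖ ≤ κ₁ * R + κ₂ := by
        have h1 : ‖M.ρ s⁻¹ (M.ρ g⁻¹ (M.ι y - t • c g))‖ ≤ κ₁ * R :=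
          (hκ s _).trans (mul_le_mul (hk1 s hsS) hyE (norm_nonneg _)
            ((hκ0 s).trans (hk1 s hsS)))
        have h2 : ‖t • M.ρ s⁻¹ (c s)‖ ≤ κ₂ := by
          rw [norm_smul, Real.norm_eq_abs]
          calc |t| * ‖M.ρ s⁻¹ (c s)‖ ≤ 1 * ‖M.ρ s⁻¹ (c s)‖ :=
                mul_le_mul_of_nonneg_right ht (norm_nonneg _)
            _ ≤ κ₂ := by rw [one_mul]; exact hk2 s hsS
        rw [hv]
        exact (norm_sub_le _ _).trans (add_le_add h1 h2)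
      have hxn : ‖M.ι x‖ ≤ R + κ₁ * R + κ₂ := by
        have : M.ι x = v - (v - M.ι x) := by abel
        rw [this]
        refine (norm_sub_le _ _).trans ?_
        linarith
      have hxA : x ∈ A := (Subgroup.closure_le A).2 hYA hxH
      have hxW : x ∈ WB (S : Set G) m := hm ⟨hxH, hxn⟩
      have hconj : (g * s) * x⁻¹ * (g * s)⁻¹ ∈ A := hs.normal.conj_mem _ (A.inv_mem hxA) _
      refine ⟨y * ((g * s) * x⁻¹ * (g * s)⁻¹), A.mul_mem hyA hconj, ?_, ?_⟩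
      · have h1 : y * ((g * s) * x⁻¹ * (g * s)⁻¹) * (g * s) = (y * g) * s * x⁻¹ := by group
        rw [h1]
        refine WB_mono _ ?_ (mul_mem_WB (mul_mem_WB hyW (mem_WB_one (Finset.mem_coe.2 hsS)))
          (inv_mem_WB hxW))
        rw [Nat.mul_succ]
        omega
      · rw [M.ι_mul y hyA _ hconj, M.ι_conj _ _ (A.inv_mem hxA), hc g s, M.ι_inv hxA]
        have e1 : M.ι y + M.ρ (g * s) (-M.ι x) - t • (c g + M.ρ g (c s)) =
            (M.ι y - t • c g) - M.ρ (g * s) (M.ι x) - t • M.ρ g (c s) := by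
          rw [map_neg, smul_add]; abel
        have e2 : M.ρ (g * s)⁻¹ (M.ι y + M.ρ (g * s) (-M.ι x) - t • (c g + M.ρ g (c s))) =
            v - M.ι x := by
          rw [e1, map_sub, map_sub, track_rho_inv, map_smul, hv]
          have e3 : ∀ w : E, M.ρ (g * s)⁻¹ w = M.ρ s⁻¹ (M.ρ g⁻¹ w) := by
            intro w
            rw [mul_inv_rev, map_mul, Module.End.mul_apply]
          rw [e3, e3, track_rho_inv]
          abel
        rw [e2]
        exact hx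
  refine ⟨⌈R⌉₊ + 1 + m, fun t ht n g hg => ?_⟩
  obtain ⟨y, hyA, hyW, hyE⟩ := hmain t ht n g hg
  refine ⟨y, hyA, hyW, hyE.trans ?_⟩
  have := Nat.le_ceil R
  push_cast
  have h2 : (0 : ℝ) ≤ m := Nat.cast_nonneg m
  linarith

end Pool.Agent.MET90
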