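import Pool.Agent.MET90.Sweep
import Pool.Agent.MET90.Track

/-!
Module P1: the key property of `A_c`.
-/

set_option autoImplicit false

namespace Pool.Agent.MET90

lemma POne_lam_mono {G : Type} [Group G] (S L : Finset G) {m n : ℕ} (h : m ≤ n) :
    Lam S L m ≤ Lam S L n := by
  refine Subgroup.closure_mono ?_
  rintro x ⟨s, hs, i, hi, l, hl, rfl⟩
  exact ⟨s, hs, i, hi.trans h, l, hl, rfl⟩

lemma POne_prod {G : Type} [Group G] {A : Subgroup G} {E : Type}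
    [NormedAddCommGroup E] [NormedSpace ℝ E] (M : Model A E) (q : ℕ) (f : Fin q → G)
    (hf : ∀ i, f i ∈ A) :
    (List.ofFn f).prod ∈ A ∧ M.ι (List.ofFn f).prod = ∑ i, M.ι (f i) := by
  induction q with
  | zero => simp [A.one_mem, M.ι_one]
  | succ q ih =>
    obtain ⟨h1, h2⟩ := ih (fun i => f i.succ) (fun i => hf _)
    rw [List.ofFn_succ, List.prod_cons, Fin.sum_univ_succ]
    exact ⟨A.mul_mem (hf 0) h1, by rw [M.ι_mul _ (hf 0) _ h1, h2]⟩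

theorem key_property {G : Type} [Group G] {S : Finset G} {A : Subgroup G} {E : Type}
    [NormedAddCommGroup E] [NormedSpace ℝ E] [FiniteDimensional ℝ E] (hs : Setup S A)
    (M : Model A E) (L : Finset G) (hL : (L : Set G) ⊆ A)
    (hrad : ∀ a ∈ A, ∃ k : ℕ, 0 < k ∧ a ^ k ∈ Subgroup.closure (L : Set G)) (C₁ : ℕ)
    (hball : ∀ n : ℕ, ∀ g ∈ A, g ∈ WB (S : Set G) n → g ∈ Lam S L (C₁ * (n + 1)))
    (c : G → E) (hc : IsDer M c) (q : ℕ) :
    ∃ C : ℕ, ∀ n : ℕ, 1 ≤ n →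
      ∀ x ∈ Subgroup.closure {a : G | a ∈ Ac M c hc ∧ a ∈ WB (S : Set G) n},
      ∀ (b : Fin q → G) (t : Fin q → ℝ), (∀ i, b i ∈ Ac M c hc ∧ b i ∈ WB (S : Set G) n) →
        (∀ i, |t i| ≤ 1) → M.ι x = ∑ i, t i • M.ι (b i) → x ∈ WB (S : Set G) (C * n) := by
  obtain ⟨K, hK⟩ := track hs M c hc
  obtain ⟨C₃, hC₃⟩ := sweep hs M L hL hrad
  obtain ⟨C₄, hC₄⟩ := exists_WB_of_finite hs.gen _ (M.fin L hL (q * K + C₃))
  set C₂ := C₁ * (q * (K + 1) + 2) with hC₂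
  refine ⟨C₄ + C₃ * (C₂ + 1) + q * (K + 1), fun n hn x hx b t hb ht hxt => ?_⟩
  -- the tracked elements
  have hy : ∀ i, ∃ y ∈ A, y ∈ WB (S : Set G) ((K + 1) * n) ∧ ‖M.ι y - t i • M.ι (b i)‖ ≤ K := by
    intro i
    obtain ⟨y, hyA, hyW, hyn⟩ := hK (t i) (ht i) n (b i) (hb i).2
    have hbA : b i ∈ A := (hb i).1.1
    refine ⟨y, hyA, ?_, ?_⟩
    · have h := mul_mem_WB hyW (inv_mem_WB (hb i).2)
      rw [mul_inv_cancel_right] at h
      refine WB_mono _ (le_of_eq ?_) h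
      ring
    · rw [M.ρ_A _ (A.inv_mem hbA), Module.End.one_apply, (hb i).1.2] at hyn
      exact hyn
  choose y hyA hyW hyn using hy
  obtain ⟨hYA, hYι⟩ := POne_prod M q y hyA
  set Y := (List.ofFn y).prod with hY
  have hYW : Y ∈ WB (S : Set G) (q * ((K + 1) * n)) := by
    have h := list_prod_mem_WB (S := (S : Set G)) (n := (K + 1) * n) (List.ofFn y) (by
      intro z hz
      rw [List.mem_ofFn] at hz
      obtain ⟨i, rfl⟩ := hz
      exact hyW i)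
    rwa [List.length_ofFn] at h
  have hxA : x ∈ A := by
    have h : Subgroup.closure {a : G | a ∈ Ac M c hc ∧ a ∈ WB (S : Set G) n} ≤ A := by
      rw [Subgroup.closure_le]
      rintro a ⟨ha, -⟩
      exact ha.1
    exact h hx
  have hYx : ‖M.ι x - M.ι Y‖ ≤ q * K := by
    rw [hxt, hYι, ← Finset.sum_sub_distrib]
    calc ‖∑ i, (t i • M.ι (b i) - M.ι (y i))‖ ≤ ∑ i, ‖t i • M.ι (b i) - M.ι (y i)‖ :=
          norm_sum_le _ _
      _ ≤ ∑ _i : Fin q, (K : ℝ) := Finset.sum_le_sum (fun i _ => by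
          rw [norm_sub_rev]; exact hyn i)
      _ = q * K := by simp
  -- degrees
  have hxL : x ∈ Lam S L (C₂ * n) := by
    have h : Subgroup.closure {a : G | a ∈ Ac M c hc ∧ a ∈ WB (S : Set G) n} ≤
        Lam S L (C₁ * (n + 1)) := by
      rw [Subgroup.closure_le]
      rintro a ⟨ha, ha2⟩
      exact hball n a ha.1 ha2
    refine POne_lam_mono S L ?_ (h hx)
    rw [hC₂]
    have h1 : n + 1 ≤ (q * (K + 1) + 2) * n := by nlinarith [Nat.zero_le (q * (K + 1) * n)]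
    calc C₁ * (n + 1) ≤ C₁ * ((q * (K + 1) + 2) * n) := Nat.mul_le_mul_left _ h1
      _ = _ := by ring
  have hYL : Y ∈ Lam S L (C₂ * n) := by
    refine POne_lam_mono S L ?_ (hball _ Y hYA hYW)
    rw [hC₂]
    have h1 : q * ((K + 1) * n) + 1 ≤ (q * (K + 1) + 2) * n := by nlinarith
    calc C₁ * (q * ((K + 1) * n) + 1) ≤ C₁ * ((q * (K + 1) + 2) * n) :=
          Nat.mul_le_mul_left _ h1
      _ = _ := by ring
  obtain ⟨w, hwA, hwW, hwn, hwL⟩ := hC₃ _ _ ((Lam S L (C₂ * n)).mul_mem hxL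
    ((Lam S L (C₂ * n)).inv_mem hYL))
  have hu : x * Y⁻¹ * w⁻¹ ∈ WB (S : Set G) C₄ := by
    refine hC₄ ⟨hwL, ?_⟩
    rw [M.ι_mul _ (A.mul_mem hxA (A.inv_mem hYA)) _ (A.inv_mem hwA),
      M.ι_mul _ hxA _ (A.inv_mem hYA), M.ι_inv hYA, M.ι_inv hwA]
    calc ‖M.ι x + -M.ι Y + -M.ι w‖ = ‖(M.ι x - M.ι Y) - M.ι w‖ := by
          congr 1; abel
      _ ≤ ‖M.ι x - M.ι Y‖ + ‖M.ι w‖ := norm_sub_le _ _
      _ ≤ q * K + C₃ := add_le_add hYx hwn
  have hxe : x = (x * Y⁻¹ * w⁻¹) * w * Y := by group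
  rw [hxe]
  refine WB_mono _ ?_ (mul_mem_WB (mul_mem_WB hu hwW) hYW)
  nlinarith [Nat.zero_le (C₃ * (n - 1)), Nat.zero_le (C₄ * (n - 1)), Nat.mul_le_mul_left C₄ hn,
    Nat.mul_le_mul_left C₃ hn]

end Pool.Agent.MET90
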