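import Pool.Agent.MET90.Idem
import Pool.Agent.MET90.Basic

/-!
Module SPLIT: a derivation `c` such that `A_c` is normal in `G` and `G ⧸ A_c` is nilpotent.

`ρ g ρ h = ρ h ρ g` since `g h g⁻¹ h⁻¹ ∈ A` and `ρ = 1` on `A`. Take `e, m, T, g_i` from `exists_split`.
For `g₀ ∈ G` let `δ(g) = ι (g g₀ g⁻¹ g₀⁻¹)`; from `[g h, g₀] = g [h, g₀] g⁻¹ * [g, g₀]` (all in `A`)
`δ (g h) = δ g + ρ g (δ h)`; and `δ a = ι (a * (g₀ a⁻¹ g₀⁻¹)) = (1 - ρ g₀) (ι a)` for `a ∈ A`. Put
`c g = ∑ T_i (ι (g g_i g⁻¹ g_i⁻¹))`: a derivation (`T_i` commutes with `ρ g`), `c a = e (ι a)` for `a ∈ A`.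
So `A_c = {a ∈ A : e (ι a) = ι a}`, normal since `e` commutes with `ρ g`.
Nilpotency: `P_j = {a ∈ A : ∀ l : List G, l.length + j = m → (1 - e) ((l.map (1 - ρ ·)).prod (ι a)) = 0}` (for
`j ≤ m`) is a subgroup, `[G, G] ≤ A = P_0`, and `⁅P_j, ⊤⁆ ≤ P_(j+1)` since
`ι (a g a⁻¹ g⁻¹) = (1 - ρ g) (ι a)`. So the lower central series satisfies
`lowerCentralSeries (j+1) ≤ P_j`, and `P_m = A_c`.
-/

set_option autoImplicit false

namespace Pool.Agent.MET90

section SplitAux

variable {G : Type} [Group G] {S : Finset G} {A : Subgroup G} {E : Type}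
    [NormedAddCommGroup E] [NormedSpace ℝ E]

/-- commutators with elements of `A` -/
private lemma ι_comm (hA : A.Normal) (M : Model A E) {a : G} (ha : a ∈ A) (g : G) :
    M.ι (a * g * a⁻¹ * g⁻¹) = (1 - M.ρ g) (M.ι a) := by
  have h1 : a * g * a⁻¹ * g⁻¹ = a * (g * a⁻¹ * g⁻¹) := by group
  rw [h1, M.ι_mul a ha _ (hA.conj_mem _ (A.inv_mem ha) g), M.ι_conj g a⁻¹ (A.inv_mem ha),
    M.ι_inv ha, map_neg, LinearMap.sub_apply, Module.End.one_apply, sub_eq_add_neg]

/-- the commutator identity -/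
private lemma ι_comm_mul (hs : Setup S A) (M : Model A E) (g h x : G) :
    M.ι (g * h * x * (g * h)⁻¹ * x⁻¹) =
      M.ι (g * x * g⁻¹ * x⁻¹) + M.ρ g (M.ι (h * x * h⁻¹ * x⁻¹)) := by
  have h1 : g * h * x * (g * h)⁻¹ * x⁻¹ =
      (g * (h * x * h⁻¹ * x⁻¹) * g⁻¹) * (g * x * g⁻¹ * x⁻¹) := by group
  rw [h1, M.ι_mul _ (hs.normal.conj_mem _ (hs.quot h x) g) _ (hs.quot g x),
    M.ι_conj g _ (hs.quot h x), add_comm]

/-- the filtration -/
private def Pf (M : Model A E) (e : Module.End ℝ E) (m j : ℕ) : Subgroup G where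
  carrier := {a | a ∈ A ∧ ∀ l : List G, l.length + j = m →
    (1 - e) ((l.map (fun h => 1 - M.ρ h)).prod (M.ι a)) = 0}
  mul_mem' := by
    rintro a b ⟨ha, ha'⟩ ⟨hb, hb'⟩
    refine ⟨A.mul_mem ha hb, fun l hl => ?_⟩
    rw [M.ι_mul a ha b hb, map_add, map_add, ha' l hl, hb' l hl, add_zero]
  one_mem' := ⟨A.one_mem, fun l _ => by rw [M.ι_one, map_zero, map_zero]⟩
  inv_mem' := by
    rintro a ⟨ha, ha'⟩
    refine ⟨A.inv_mem ha, fun l hl => ?_⟩
    rw [M.ι_inv ha, map_neg, map_neg, ha' l hl, neg_zero]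

private lemma mem_Pf {M : Model A E} {e : Module.End ℝ E} {m j : ℕ} {a : G} :
    a ∈ Pf M e m j ↔ a ∈ A ∧ ∀ l : List G, l.length + j = m →
    (1 - e) ((l.map (fun h => 1 - M.ρ h)).prod (M.ι a)) = 0 := Iff.rfl

end SplitAux

theorem exists_der {G : Type} [Group G] {S : Finset G} {A : Subgroup G} {E : Type}
    [NormedAddCommGroup E] [NormedSpace ℝ E] [FiniteDimensional ℝ E] (hs : Setup S A)
    (M : Model A E) :
    ∃ (c : G → E) (hc : IsDer M c) (m : ℕ), (Ac M c hc).Normal ∧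
      (⊤ : Subgroup G).lowerCentralSeries m ≤ Ac M c hc := by
  have hcomm : ∀ g h, M.ρ g * M.ρ h = M.ρ h * M.ρ g := by
    intro g h
    have h1 : g * h = (g * h * g⁻¹ * h⁻¹) * (h * g) := by group
    rw [← map_mul, h1, map_mul, M.ρ_A _ (hs.quot g h), one_mul, map_mul]
  obtain ⟨e, m, q, T, x, he, hT, heq, hm⟩ := exists_split M.ρ hcomm
  let c : G → E := fun g => ∑ i, T i (M.ι (g * x i * g⁻¹ * (x i)⁻¹))
  have hc : IsDer M c := by
    intro g h
    change ∑ i, T i (M.ι (g * h * x i * (g * h)⁻¹ * (x i)⁻¹)) =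
      ∑ i, T i (M.ι (g * x i * g⁻¹ * (x i)⁻¹)) +
        M.ρ g (∑ i, T i (M.ι (h * x i * h⁻¹ * (x i)⁻¹)))
    rw [map_sum, ← Finset.sum_add_distrib]
    refine Finset.sum_congr rfl (fun i _ => ?_)
    rw [ι_comm_mul hs M g h (x i), map_add]
    congr 1
    rw [← Module.End.mul_apply, hT i g, Module.End.mul_apply]
  have hcA : ∀ a ∈ A, c a = e (M.ι a) := by
    intro a ha
    change ∑ i, T i (M.ι (a * x i * a⁻¹ * (x i)⁻¹)) = e (M.ι a)
    rw [heq, LinearMap.sum_apply]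
    refine Finset.sum_congr rfl (fun i _ => ?_)
    rw [ι_comm hs.normal M ha (x i), Module.End.mul_apply]
  have hAc : ∀ a, a ∈ Ac M c hc ↔ a ∈ A ∧ e (M.ι a) = M.ι a := by
    intro a
    rw [mem_Ac]
    constructor
    · rintro ⟨h1, h2⟩
      exact ⟨h1, by rw [← hcA a h1, h2]⟩
    · rintro ⟨h1, h2⟩
      exact ⟨h1, by rw [hcA a h1, h2]⟩
  refine ⟨c, hc, m + 1, ?_, ?_⟩
  · constructor
    intro a ha g
    rw [hAc] at ha ⊢
    refine ⟨hs.normal.conj_mem a ha.1 g, ?_⟩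
    rw [M.ι_conj g a ha.1, ← Module.End.mul_apply, he g, Module.End.mul_apply, ha.2]
  · have key : ∀ j, j ≤ m → (⊤ : Subgroup G).lowerCentralSeries (j + 1) ≤ Pf M e m j := by
      intro j
      induction j with
      | zero =>
        intro _
        rw [Subgroup.lowerCentralSeries_succ, Subgroup.lowerCentralSeries_zero,
          Subgroup.commutator_le]
        intro g _ h _
        refine mem_Pf.2 ⟨hs.quot g h, fun l hl => ?_⟩
        rw [← Module.End.mul_apply, hm l (by simpa using hl), LinearMap.zero_apply]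
      | succ j ih =>
        intro hj
        rw [Subgroup.lowerCentralSeries_succ, Subgroup.commutator_le]
        intro a ha g _
        obtain ⟨h1, h2⟩ := mem_Pf.1 (ih (by omega) ha)
        refine mem_Pf.2 ⟨hs.quot a g, fun l hl => ?_⟩
        rw [commutatorElement_def]
        rw [ι_comm hs.normal M h1 g]
        have h4 := h2 (l ++ [g]) (by simp; omega)
        rw [List.map_append, List.prod_append, List.map_singleton, List.prod_singleton,
          Module.End.mul_apply] at h4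
        exact h4
    intro a ha
    obtain ⟨h1, h2⟩ := mem_Pf.1 (key m le_rfl ha)
    rw [hAc]
    refine ⟨h1, ?_⟩
    have h3 := h2 [] (by simp)
    rw [List.map_nil, List.prod_nil, Module.End.one_apply, LinearMap.sub_apply,
      Module.End.one_apply, sub_eq_zero] at h3
    exact h3.symm

end Pool.Agent.MET90
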