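import Pool.Agent.MET90.Col
import Pool.Agent.MET90.Fa
import Pool.Agent.MET90.Fb
import Pool.Agent.MET90.ModelA
import Pool.Agent.MET90.Mon
import Pool.Agent.MET90.AX
import Pool.Agent.MET90.Filt
import Pool.Agent.MET90.POne
import Pool.Agent.MET90.FanAc
import Pool.Agent.MET90.Split
import Pool.Agent.MET90.Nil

/-!
Module METAB: the main theorem for a metabelian group, from the chain condition `L1`.
-/

set_option autoImplicit false

namespace Pool.Agent.MET90

theorem metab_fan {G : Type} [Group G] {S : Finset G} {A : Subgroup G} (hs : Setup S A)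
    (h1 : L1 (S : Set G) A) : FAN (WB (S : Set G)) := by
  classical
  haveI := hs.normal
  -- collection
  obtain ⟨Y, K, hYA, hYinv, hcol⟩ := collection hs
  have hgenY : ∀ a ∈ A, a ∈ Subgroup.closure {x | ∃ g : G, ∃ y ∈ Y, x = g * y * g⁻¹} := by
    intro a ha
    obtain ⟨n, hn⟩ := exists_mem_WB (S := (S : Set G)) (g := a) (by rw [hs.gen]; trivial)
    obtain ⟨l, -, hl, rfl⟩ := hcol (n + 1) (by omega) a ha (WB_mono _ (Nat.le_succ n) hn)
    refine Subgroup.list_prod_mem _ (fun x hx => Subgroup.subset_closure ?_)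
    obtain ⟨p, -, y, hy, rfl⟩ := hl x hx
    exact ⟨p, y, hy, rfl⟩
  -- finite rank and real model
  have hfa := fun a ha s hsS => exists_dependence hs h1 a ha s hsS
  obtain ⟨Z, hZA, hrad⟩ := exists_finite_rank hs hfa Y hYA hgenY
  obtain ⟨r, ⟨M⟩⟩ := exists_model hs.normal hs.comm Z hZA hrad
  -- the filtration
  have hL0 : ∃ L : Finset G, (L : Set G) ⊆ A ∧ (∀ s ∈ S, Monic A s L) ∧ Y ⊆ L ∧ Z ⊆ L := by
    have key : ∀ T : Finset G, T ⊆ S → ∃ L : Finset G, (L : Set G) ⊆ A ∧ (∀ s ∈ T, Monic A s L) := by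
      intro T
      induction T using Finset.induction_on with
      | empty => intro _; exact ⟨∅, by simp, by simp⟩
      | @insert s T hsT ih =>
        intro hT
        obtain ⟨L, hL, hM⟩ := ih (fun x hx => hT (Finset.mem_insert_of_mem hx))
        obtain ⟨L', hL', hM'⟩ := exists_monic hs h1 s (hT (Finset.mem_insert_self _ _))
        refine ⟨L ∪ L', by rw [Finset.coe_union]; exact Set.union_subset hL hL', fun x hx => ?_⟩
        rcases Finset.mem_insert.mp hx with rfl | hx
        · exact hM'.mono Finset.subset_union_right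
        · exact (hM x hx).mono Finset.subset_union_left
    obtain ⟨L, hL, hM⟩ := key S (Finset.Subset.refl S)
    refine ⟨L ∪ (Y ∪ Z), ?_, fun s hsS => (hM s hsS).mono Finset.subset_union_left,
      Finset.subset_union_left.trans Finset.subset_union_right,
      Finset.subset_union_right.trans Finset.subset_union_right⟩
    rw [Finset.coe_union, Finset.coe_union]
    exact Set.union_subset hL (Set.union_subset hYA hZA)
  obtain ⟨L₀, hL₀A, hM₀, hYL, hZL⟩ := hL0
  have hgenL : ∀ a ∈ A, a ∈ Subgroup.closure {x | ∃ g : G, ∃ y ∈ L₀, x = g * y * g⁻¹} := by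
    intro a ha
    refine Subgroup.closure_mono ?_ (hgenY a ha)
    rintro x ⟨g, y, hy, rfl⟩
    exact ⟨g, y, hYL hy, rfl⟩
  obtain ⟨L, hLL, hLA, hex⟩ := exists_lam hs L₀ hL₀A hM₀ hgenL
  have hM : ∀ s ∈ S, Monic A s L := fun s hsS => (hM₀ s hsS).mono hLL
  obtain ⟨c₁, hc₁⟩ := filt_step hs L hLA hM hex
  obtain ⟨C₁, hball⟩ := ball_lam hs L hLA hex c₁ hc₁ Y K hYA hcol
  have hradL : ∀ a ∈ A, ∃ k : ℕ, 0 < k ∧ a ^ k ∈ Subgroup.closure (L : Set G) := by
    intro a ha
    obtain ⟨k, hk, hk2⟩ := hrad a ha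
    exact ⟨k, hk, Subgroup.closure_mono (Finset.coe_subset.mpr (hZL.trans hLL)) hk2⟩
  -- the derivation
  obtain ⟨c, hc, m, hnormal, hlcs⟩ := exists_der hs M
  haveI := hnormal
  -- the key property with a uniform constant
  have hkey : ∃ C : ℕ, ∀ q : ℕ, q ≤ Module.finrank ℝ (Fin r → ℝ) → ∀ n : ℕ, 1 ≤ n →
      ∀ x ∈ Subgroup.closure {a : G | a ∈ Ac M c hc ∧ a ∈ WB (S : Set G) n},
      ∀ (b : Fin q → G) (t : Fin q → ℝ), (∀ i, b i ∈ Ac M c hc ∧ b i ∈ WB (S : Set G) n) →
        (∀ i, |t i| ≤ 1) → M.ι x = ∑ i, t i • M.ι (b i) → x ∈ WB (S : Set G) (C * n) := by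
    have h := fun q => key_property hs M L hLA hradL C₁ hball c hc q
    choose f hf using h
    refine ⟨∑ q ∈ Finset.range (Module.finrank ℝ (Fin r → ℝ) + 1), f q, ?_⟩
    intro q hq n hn x hx b t hb ht hxt
    refine WB_mono _ (Nat.mul_le_mul_right n ?_) (hf q n hn x hx b t hb ht hxt)
    exact Finset.single_le_sum (f := f) (fun i _ => Nat.zero_le _)
      (Finset.mem_range.mpr (Nat.lt_succ_of_le hq))
  obtain ⟨C, hC⟩ := hkey
  have hfan1 : FAN (fun n => ({x : Ac M c hc | (x : G) ∈ WB (S : Set G) n} : Set (Ac M c hc))) := by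
    refine fan_of_key (WB (S : Set G)) (WB_isBalls _) (fun n => WB_finite S.finite_toSet n)
      (Ac M c hc) M.ι (fun a ha b hb => M.ι_mul a ha.1 b hb.1) C hC
  -- the quotient
  refine FAN_extension (WB (S : Set G)) (WB_isBalls _) (Ac M c hc) hfan1 ?_
  set N := Ac M c hc with hN
  have hfun : (fun n => (QuotientGroup.mk' N) '' WB (S : Set G) n) =
      WB ((S.image (QuotientGroup.mk' N) : Finset (G ⧸ N)) : Set (G ⧸ N)) := by
    funext n
    rw [image_WB, coe_image_mk]
  rw [hfun]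
  refine nil_fan m (G ⧸ N) (S.image (QuotientGroup.mk' N)) ?_ ?_ ?_ ?_ ?_
  · rw [coe_image_mk, ← MonoidHom.map_closure, hs.gen]
    exact Subgroup.map_top_of_surjective _ (QuotientGroup.mk'_surjective N)
  · rw [Finset.mem_image]
    exact ⟨1, hs.one_mem, map_one _⟩
  · intro s hs'
    rw [Finset.mem_image] at hs' ⊢
    obtain ⟨x, hx, rfl⟩ := hs'
    exact ⟨x⁻¹, hs.symm x hx, map_inv _ _⟩
  · have hmap : commutator (G ⧸ N) = (commutator G).map (QuotientGroup.mk' N) := by
      rw [commutator_def, commutator_def, Subgroup.map_commutator,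
        Subgroup.map_top_of_surjective _ (QuotientGroup.mk'_surjective N)]
    have hle : commutator G ≤ A := by
      rw [commutator_def, Subgroup.commutator_le]
      intro g _ h _
      exact hs.quot g h
    intro a ha b hb
    rw [hmap] at ha hb
    obtain ⟨x, hx, rfl⟩ := ha
    obtain ⟨y, hy, rfl⟩ := hb
    rw [← map_mul, ← map_mul, hs.comm x (hle hx) y (hle hy)]
  · have hmap := Subgroup.map_lowerCentralSeries (⊤ : Subgroup G) (QuotientGroup.mk' N) m
    rw [Subgroup.map_top_of_surjective _ (QuotientGroup.mk'_surjective N)] at hmap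
    rw [← hmap, eq_bot_iff]
    rintro _ ⟨x, hx, rfl⟩
    rw [Subgroup.mem_bot]
    exact (QuotientGroup.eq_one_iff x).mpr (hlcs hx)

end Pool.Agent.MET90
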