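import Pool.Agent.MET90.Exit
import Pool.Agent.MET90.FinIdx
import Pool.Agent.MET90.Metab

/-!
Module MAIN: the theorem.
-/

set_option autoImplicit false
open Classical
open scoped commutatorElement

namespace Pool.Agent.MET90

theorem main {G : Type} [Group G] (S : Finset G) (hS : Subgroup.closure (S : Set G) = ⊤)
    (hH : ∃ H : Subgroup G, H.FiniteIndex ∧ derivedSeries H 2 = ⊥)
    (hF : ∃ C : ℕ, ∀ N : ℕ, ∃ n : ℕ, N ≤ n ∧ ∃ F : Finset G, F.Nonempty ∧
      n * (F.filter (fun x => ∃ s ∈ S, x * s ∉ F ∨ x * s⁻¹ ∉ F)).card ≤ F.card ∧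
      F.card ≤ C ^ n) :
    FAN (WB (S : Set G)) := by
  obtain ⟨H, hfi, hH2⟩ := hH
  haveI := hfi
  obtain ⟨Y, K, hY, h1, h2⟩ := finite_index_gens S hS H
  refine fan_of_finite_index S hS H Y K h1 h2 ?_
  have hmet : ∀ a ∈ commutator H, ∀ b ∈ commutator H, a * b = b * a := by
    intro a ha b hb
    have h : ⁅a, b⁆ ∈ derivedSeries H 2 := by
      rw [derivedSeries_succ, derivedSeries_one]
      exact Subgroup.commutator_mem_commutator ha hb
    rw [hH2, Subgroup.mem_bot, commutatorElement_eq_one_iff_mul_comm] at h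
    exact h
  have hL1 : L1 (Y : Set H) (commutator H) :=
    L1_of_finite_index S H Y K h1 _ hmet (chain_bound S hF)
  -- symmetrize
  set Y' : Finset H := insert 1 (Y ∪ Y.image (fun s => s⁻¹)) with hY'
  have hWB : ∀ n, WB (Y' : Set H) n = WB (Y : Set H) n := fun n => WB_symmetrize Y n
  have hWBf : WB (Y : Set H) = WB (Y' : Set H) := by
    funext n
    exact (hWB n).symm
  rw [hWBf]
  refine metab_fan (A := commutator H) ⟨?_, ?_, ?_, inferInstance, hmet, ?_⟩ ?_
  · rw [eq_top_iff, ← hY]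
    refine Subgroup.closure_mono ?_
    rw [hY']
    intro x hx
    simp only [Finset.coe_insert, Finset.coe_union, Finset.coe_image, Set.mem_insert_iff,
        Set.mem_union, Finset.mem_coe, Set.mem_image]
    exact Or.inr (Or.inl hx)
  · rw [hY']
    exact Finset.mem_insert_self _ _
  · intro s hs
    rw [hY'] at hs ⊢
    simp only [Finset.mem_insert, Finset.mem_union, Finset.mem_image] at hs ⊢
    rcases hs with rfl | hs | ⟨x, hx, rfl⟩
    · left; simp
    · exact Or.inr (Or.inr ⟨s, hs, rfl⟩)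
    · exact Or.inr (Or.inl (by simpa using hx))
  · intro g h
    exact Subgroup.commutator_mem_commutator (Subgroup.mem_top g) (Subgroup.mem_top h)
  · obtain ⟨C₁, hC₁⟩ := hL1
    refine ⟨C₁, fun N => ?_⟩
    obtain ⟨n, hn, hn2⟩ := hC₁ N
    refine ⟨n, hn, fun D g hg1 hg2 hg3 => hn2 D g hg1 (fun j => ?_) hg3⟩
    rw [← hWB]
    exact hg2 j

end Pool.Agent.MET90
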