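import Pool.Agent.MET90.Digits
import Pool.Agent.MET90.Growth
import Pool.Agent.MET90.Cover
import Pool.Agent.MET90.ModelA
import Pool.Agent.MET90.Box

/-!
Module NILSTEP: the last term `N = γ_c` of the lower central series (`γ_(c+1) = ⊥`) has finite
Assouad-Nagata dimension in the balls of `G` (`G` metabelian).
-/

set_option autoImplicit false

namespace Pool.Agent.MET90

/-- collect the powers of one letter of a word in commuting letters -/
lemma NilStep_extract {G : Type} [Group G] (A : Subgroup G)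
    (hcomm : ∀ a ∈ A, ∀ b ∈ A, a * b = b * a) (ζ : G) (hζ : ζ ∈ A) (Z : Set G) (hZ : Z ⊆ A)
    (l : List G) (hl : ∀ y ∈ l, y ∈ insert ζ Z ∨ y⁻¹ ∈ insert ζ Z) :
    ∃ (j : ℤ) (l' : List G), j.natAbs + l'.length ≤ l.length ∧ (∀ y ∈ l', y ∈ Z ∨ y⁻¹ ∈ Z) ∧
      l.prod = ζ ^ j * l'.prod := by
  induction l with
  | nil => exact ⟨0, [], by simp, by simp, by simp⟩
  | cons a l ih =>
    obtain ⟨j, l', h1, h2, h3⟩ := ih (fun y hy => hl y (List.mem_cons_of_mem _ hy))
    have ha := hl a List.mem_cons_self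
    by_cases hcase : a ∈ Z ∨ a⁻¹ ∈ Z
    · refine ⟨j, a :: l', ?_, ?_, ?_⟩
      · rw [List.length_cons, List.length_cons]
        omega
      · intro y hy
        rcases List.mem_cons.mp hy with rfl | hy
        · exact hcase
        · exact h2 y hy
      · have haA : a ∈ A := by
          rcases hcase with h | h
          · exact hZ h
          · simpa using A.inv_mem (hZ h)
        rw [List.prod_cons, List.prod_cons, h3, ← mul_assoc, ← mul_assoc,
          hcomm a haA (ζ ^ j) (A.zpow_mem hζ j)]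
    · push Not at hcase
      rcases ha with h | h
      · rcases Set.mem_insert_iff.mp h with rfl | h
        · refine ⟨1 + j, l', ?_, h2, ?_⟩
          · rw [List.length_cons]
            omega
          · rw [List.prod_cons, h3, zpow_add, zpow_one, mul_assoc]
        · exact absurd h hcase.1
      · rcases Set.mem_insert_iff.mp h with h | h
        · refine ⟨-1 + j, l', ?_, h2, ?_⟩
          · rw [List.length_cons]
            omega
          · rw [List.prod_cons, h3, zpow_add, zpow_neg_one, mul_assoc, ← h, inv_inv]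
        · exact absurd h hcase.2

lemma NilStep_words {G : Type} [Group G] (A : Subgroup G)
    (hcomm : ∀ a ∈ A, ∀ b ∈ A, a * b = b * a) (B : ℕ → Set G) (hB : IsBalls B) (N R : ℕ)
    (Z : Finset G) (hZ : (Z : Set G) ⊆ A)
    (hpow : ∀ ζ ∈ Z, ∀ j : ℕ, j ≤ N → ζ ^ j ∈ B R) (l : List G)
    (hl : ∀ y ∈ l, y ∈ (Z : Set G) ∨ y⁻¹ ∈ (Z : Set G)) (hN : l.length ≤ N) :
    l.prod ∈ B (Z.card * R) := by
  classical
  induction Z using Finset.induction_on generalizing l with
  | empty =>
    have : l = [] := by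
      rw [List.eq_nil_iff_forall_not_mem]
      intro y hy
      rcases hl y hy with h | h <;> simp at h
    subst this
    simpa using hB.one_mem
  | @insert ζ Z hζ ih =>
    rw [Finset.coe_insert] at hZ hl
    have hZ' : (Z : Set G) ⊆ A := (Set.subset_insert _ _).trans hZ
    have hζA : ζ ∈ A := hZ (Set.mem_insert _ _)
    obtain ⟨j, l', h1, h2, h3⟩ := NilStep_extract A hcomm ζ hζA (Z : Set G) hZ' l hl
    have h4 := ih hZ' (fun x hx j hj => hpow x (Finset.mem_insert_of_mem hx) j hj) l' h2 (by omega)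
    have h5 : ζ ^ j ∈ B R := by
      obtain ⟨k, rfl | rfl⟩ := Int.eq_nat_or_neg j
      · rw [zpow_natCast]
        refine hpow ζ (Finset.mem_insert_self _ _) k ?_
        simp at h1
        omega
      · rw [zpow_neg, zpow_natCast]
        refine hB.inv_mem (hpow ζ (Finset.mem_insert_self _ _) k ?_)
        simp at h1
        omega
    rw [h3, Finset.card_insert_of_notMem hζ, Nat.succ_mul, Nat.add_comm]
    exact hB.mul_mem h5 h4

theorem nil_step {G : Type} [Group G] (S : Finset G) (hS : Subgroup.closure (S : Set G) = ⊤)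
    (h1 : (1 : G) ∈ S) (hsymm : ∀ s ∈ S, s⁻¹ ∈ S)
    (hmet : ∀ a ∈ commutator G, ∀ b ∈ commutator G, a * b = b * a) (c : ℕ)
    (hc : (⊤ : Subgroup G).lowerCentralSeries (c + 1) = ⊥) :
    FAN (fun n => ({x : (⊤ : Subgroup G).lowerCentralSeries c | (x : G) ∈ WB (S : Set G) n} :
      Set ((⊤ : Subgroup G).lowerCentralSeries c))) := by
  classical
  -- the abelian group `A`
  have hA : ∃ (A : Subgroup G) (Z₀ : Finset G), Setup S A ∧
      (⊤ : Subgroup G).lowerCentralSeries c ≤ A ∧ Subgroup.closure (Z₀ : Set G) = A ∧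
      ∀ (E : Type) [NormedAddCommGroup E] [NormedSpace ℝ E] (φ : G → E),
        (∀ a ∈ A, ∀ b ∈ A, φ (a * b) = φ a + φ b) →
        ∃ K : ℕ, ∀ n : ℕ, 1 ≤ n → ∀ g ∈ A, g ∈ WB (S : Set G) n → ‖φ g‖ ≤ K * (n : ℝ) ^ (c + 1) := by
    rcases Nat.eq_zero_or_pos c with rfl | hpos
    · -- abelian case
      have hcomm : ∀ a b : G, a * b = b * a := by
        intro a b
        have h : a * b * a⁻¹ * b⁻¹ ∈ (⊤ : Subgroup G).lowerCentralSeries (0 + 1) :=
          Subgroup.commutator_mem_commutator (Subgroup.mem_top a) (Subgroup.mem_top b)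
        rw [hc, Subgroup.mem_bot] at h
        have h2 : a * b = b * a := by
          have := mul_inv_eq_one.mp h
          rw [mul_inv_eq_iff_eq_mul] at this
          exact this
        exact h2
      refine ⟨⊤, S, ⟨hS, h1, hsymm, inferInstance, fun a _ b _ => hcomm a b,
        fun g h => Subgroup.mem_top _⟩, le_top, hS, ?_⟩
      intro E _ _ φ hφ
      have hφ1 : φ 1 = 0 := by
        have h := hφ 1 (Subgroup.mem_top _) 1 (Subgroup.mem_top _)
        rw [mul_one] at h
        simpa using h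
      obtain ⟨K, hK⟩ : ∃ K : ℕ, ∀ s ∈ S, ‖φ s‖ ≤ K := by
        obtain ⟨K, hK⟩ := exists_nat_ge (∑ s ∈ S, ‖φ s‖)
        exact ⟨K, fun s hs => (Finset.single_le_sum (f := fun s => ‖φ s‖)
          (fun i _ => norm_nonneg _) hs).trans hK⟩
      refine ⟨K, fun n _ g _ hg => ?_⟩
      obtain ⟨l, hl1, hl2, rfl⟩ := WB_symm (S := (S : Set G)) (fun s hs => hsymm s hs) hg
      have key : ‖φ l.prod‖ ≤ K * (l.length : ℝ) := by
        clear hl1 hg
        induction l with
        | nil => simp [hφ1]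
        | cons a l ih =>
          rw [List.prod_cons, hφ _ (Subgroup.mem_top _) _ (Subgroup.mem_top _), List.length_cons]
          have h1 := ih (fun y hy => hl2 y (List.mem_cons_of_mem _ hy)) (Subgroup.mem_top _)
          have h2 := hK a (hl2 a List.mem_cons_self)
          have h3 := norm_add_le (φ a) (φ l.prod)
          push_cast
          linarith
      refine key.trans ?_
      have : (l.length : ℝ) ≤ n := by exact_mod_cast hl1
      rw [zero_add, pow_one]
      gcongr
    · obtain ⟨Z₀, hZ₀⟩ := lcs_fg S hS (c + 1) hc 1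
      have hle : (⊤ : Subgroup G).lowerCentralSeries c ≤ commutator G := by
        have := Subgroup.lowerCentralSeries_antitone (⊤ : Subgroup G) hpos
        exact this
      have hs : Setup S (commutator G) := ⟨hS, h1, hsymm, inferInstance, hmet,
        fun g h => Subgroup.commutator_mem_commutator (Subgroup.mem_top g) (Subgroup.mem_top h)⟩
      refine ⟨commutator G, Z₀, hs, hle, hZ₀, ?_⟩
      intro E _ _ φ hφ
      refine hom_growth hs φ hφ (c + 1) (by omega) ?_
      intro a ha
      rw [hc, Subgroup.mem_bot] at ha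
      subst ha
      have h := hφ 1 (Subgroup.one_mem _) 1 (Subgroup.one_mem _)
      rw [mul_one] at h
      simpa using h
  obtain ⟨A, Z₀, hs, hNA, hZ₀, hgrow⟩ := hA
  have hZ₀A : (Z₀ : Set G) ⊆ A := by
    rw [← hZ₀]
    exact Subgroup.subset_closure
  obtain ⟨r, ⟨M⟩⟩ := exists_model hs.normal hs.comm Z₀ hZ₀A
    (fun a ha => ⟨1, one_pos, by rw [pow_one, hZ₀]; exact ha⟩)
  obtain ⟨K₁, hK₁⟩ := hgrow (Fin r → ℝ) M.ι M.ι_mul
  -- generators of the last term
  set Z : Finset G := (Zc_finite S.finite_toSet c).toFinset with hZdef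
  have hZcoe : (Z : Set G) = Zc (S : Set G) c := by simp [hZdef]
  have hlast : (⊤ : Subgroup G).lowerCentralSeries c = Subgroup.closure (Z : Set G) := by
    rw [hZcoe]
    exact lcs_last (S : Set G) hS c hc
  have hZA : (Z : Set G) ⊆ A := by
    refine Set.Subset.trans ?_ hNA
    rw [hlast]
    exact Subgroup.subset_closure
  obtain ⟨K₂, hK₂⟩ := lat M hs.comm Z hZA
  obtain ⟨K₃, hK₃⟩ := pow_mem_of_iter (S : Set G) c hc
  refine box (WB (S : Set G)) (WB_isBalls _) _ r M.ι
    (fun a ha b hb => M.ι_mul a (hNA ha) b (hNA hb))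
    (K₁ + Z.card * (K₃ * (2 * K₂ + 1))) (c + 1) (by omega) ?_ ?_
  · intro n hn z hz hzn
    refine (hK₁ n hn z (hNA hz) hzn).trans ?_
    push_cast
    gcongr
    have : (0 : ℝ) ≤ (Z.card : ℝ) * (K₃ * (2 * K₂ + 1)) := by positivity
    linarith
  · intro n hn z hz hzn
    have h2 : z ∈ WB (Z : Set G) (K₂ * (n ^ (c + 1) + 1)) := by
      refine hK₂ (n ^ (c + 1)) z (by rw [← hlast]; exact hz) ?_
      push_cast
      exact hzn
    obtain ⟨l, hl1, hl2, rfl⟩ := h2
    have hlt : K₂ * (n ^ (c + 1) + 1) < ((2 * K₂ + 1) * n) ^ (c + 1) := by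
      have hn1 : 1 ≤ n ^ (c + 1) := Nat.one_le_pow _ _ hn
      have h3 : (2 * K₂ + 1) ≤ (2 * K₂ + 1) ^ (c + 1) := Nat.le_self_pow (by omega) _
      calc K₂ * (n ^ (c + 1) + 1) ≤ K₂ * (n ^ (c + 1) + n ^ (c + 1)) := by gcongr
        _ < (2 * K₂ + 1) * n ^ (c + 1) := by nlinarith
        _ ≤ (2 * K₂ + 1) ^ (c + 1) * n ^ (c + 1) := by gcongr
        _ = _ := by rw [mul_pow]
    have h3 := NilStep_words A hs.comm (WB (S : Set G)) (WB_isBalls _)
      (K₂ * (n ^ (c + 1) + 1)) (K₃ * ((2 * K₂ + 1) * n)) Z hZA ?_ l hl2 hl1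
    · refine WB_mono _ ?_ h3
      nlinarith [Nat.zero_le (K₁ * n)]
    · intro ζ hζ j hj
      refine hK₃ ζ (by rw [← hZcoe]; exact hζ) ((2 * K₂ + 1) * n) (by nlinarith) j
        (lt_of_le_of_lt hj hlt)

end Pool.Agent.MET90
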