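import Mathlib

/-!
Module SPANNER: barycentric spanners.

Let `X` be a finite subset of a finite dimensional real vector space `E`. There are `q ≤ dim E` and a linearly
independent family `b : Fin q → E` of elements of `X` such that every `x ∈ X` is `∑ t_i b_i` with
`|t_i| ≤ 1`.

Proof. Let `V = span X`, `q = dim V`, identify `V ≅ ℝ^q` by a basis. Among the (finitely many) families
`Fin q → X` choose one with `|det|` maximal; it is nonzero since some family of elements of `X` is a basis of
`V` (`exists_linearIndependent` / `Basis.ofSpan…`). Cramer: replacing `b_i` by `x` multiplies the determinant by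
`t_i`; so `|t_i| ≤ 1`. (`Basis.det`, `Basis.det_update` / `AlternatingMap.map_update_sum`.)
(Alternative: maximise the volume by induction, whatever is easiest.)
-/

set_option autoImplicit false

namespace Pool.Agent.MET90

/-- Cramer's rule for an alternating form. -/
theorem spanner_cramer {V : Type} [AddCommGroup V] [Module ℝ V] {q : ℕ}
    (f : V [⋀^Fin q]→ₗ[ℝ] ℝ) (y : Fin q → V) (t : Fin q → ℝ) (i : Fin q) :
    f (Function.update y i (∑ j, t j • y j)) = t i * f y := by
  rw [f.map_update_sum, Finset.sum_eq_single i]
  · rw [f.map_update_smul, Function.update_eq_self, smul_eq_mul]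
  · intro j _ hj
    rw [f.map_update_smul, f.map_update_self _ hj.symm, smul_zero]
  · intro h
    exact absurd (Finset.mem_univ i) h

theorem spanner {E : Type} [AddCommGroup E] [Module ℝ E] [FiniteDimensional ℝ E] (X : Set E)
    (hX : X.Finite) :
    ∃ (q : ℕ) (b : Fin q → E), q ≤ Module.finrank ℝ E ∧ (∀ i, b i ∈ X) ∧ LinearIndependent ℝ b ∧
      ∀ x ∈ X, ∃ t : Fin q → ℝ, (∀ i, |t i| ≤ 1) ∧ x = ∑ i, t i • b i := by
  classical
  have hfin : Finite X := hX.to_subtype
  set V : Submodule ℝ E := Submodule.span ℝ X with hV
  set q := Module.finrank ℝ V with hq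
  let e : Module.Basis (Fin q) ℝ V := Module.finBasis ℝ V
  let fam : (Fin q → X) → Fin q → V := fun y i => ⟨(y i).1, Submodule.subset_span (y i).2⟩
  -- some family is a basis of `V`
  obtain ⟨y0, hy0⟩ : ∃ y0 : Fin q → X, e.det (fam y0) ≠ 0 := by
    obtain ⟨b, hbX, hsp, hli⟩ := exists_linearIndependent ℝ X
    have hbf : b.Finite := hX.subset hbX
    have : Fintype b := hbf.fintype
    have hc : Fintype.card b = q := by
      have h1 := finrank_span_eq_card (R := ℝ) hli
      rw [Subtype.range_coe, hsp] at h1
      exact h1.symm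
    let φ : Fin q ≃ b := (Fintype.equivFinOfCardEq hc).symm
    let y0 : Fin q → X := fun i => ⟨(φ i).1, hbX (φ i).2⟩
    refine ⟨y0, ?_⟩
    have h1 : LinearIndependent ℝ (fam y0) := by
      apply LinearIndependent.of_comp V.subtype
      exact hli.comp φ φ.injective
    have h2 : Submodule.span ℝ (Set.range (fam y0)) = ⊤ :=
      h1.span_eq_top_of_card_eq_finrank' (by rw [Fintype.card_fin])
    exact ((Module.Basis.is_basis_iff_det e).1 ⟨h1, h2⟩).ne_zero
  have : Nonempty (Fin q → X) := ⟨y0⟩
  obtain ⟨y, hy⟩ := Finite.exists_max fun y : Fin q → X => |e.det (fam y)|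
  have hpos : 0 < |e.det (fam y)| := lt_of_lt_of_le (abs_pos.2 hy0) (hy y0)
  obtain ⟨hli, hsp⟩ := (Module.Basis.is_basis_iff_det e).2 (isUnit_iff_ne_zero.2 (abs_pos.1 hpos))
  refine ⟨q, fun i => (y i).1, Submodule.finrank_le V, fun i => (y i).2, ?_, ?_⟩
  · exact hli.map' V.subtype (Submodule.ker_subtype V)
  · intro x hx
    have hxV : (⟨x, Submodule.subset_span hx⟩ : V) ∈ Submodule.span ℝ (Set.range (fam y)) := by
      rw [hsp]
      exact Submodule.mem_top
    obtain ⟨t, ht⟩ := (Submodule.mem_span_range_iff_exists_fun ℝ).1 hxV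
    refine ⟨t, fun i => ?_, ?_⟩
    · have h1 := hy (Function.update y i ⟨x, hx⟩)
      have h2 : fam (Function.update y i ⟨x, hx⟩)
          = Function.update (fam y) i (∑ j, t j • fam y j) := by
        rw [ht]
        funext j
        by_cases hj : j = i
        · subst hj
          simp only [fam, Function.update_self]
        · simp only [fam, Function.update_of_ne hj]
      simp only [h2, spanner_cramer, abs_mul] at h1
      by_contra hcon
      have h3 : 1 < |t i| := not_le.1 hcon
      have h4 := (mul_lt_mul_iff_left₀ hpos).2 h3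
      linarith
    · have h1 := congrArg V.subtype ht
      rw [map_sum] at h1
      simp only [map_smul] at h1
      exact h1.symm

end Pool.Agent.MET90
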