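import Pool.Agent.MET90.Cover

/-!
Module SWEEP: elements of `Lam S L m` are, modulo `⟨L⟩`, short elements with bounded real part.

Let `H = ⟨L⟩`. For `s ∈ S` write `θ x = s x s⁻¹`, `H'' = {x ∈ H : θ x ∈ H}`, a subgroup; every `a ∈ A` has a
power in `H''` (`a^k ∈ H`, `(θ a)^(k') ∈ H`, take `k k'`), so `ι H''` spans `E` (`span_of_rad`) and by `cover`
every `v` is within `R` of `ι H''`.
One variable: let `Λ_m = ⟨θ^i l : i ≤ m, l ∈ L⟩`. CLAIM: for every `z ∈ Λ_m` there is `w` with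
`w = d_0 s d_1 s d_2 ⋯ s d_m s^(-m)`, all `d_i ∈ D`, `‖ι w‖ ≤ R`, `z w⁻¹ ∈ H''`, where
`D = {x ∈ H : ‖ι x‖ ≤ R + ‖ρ s‖ R}` is finite (`M.fin`; `‖ρ s v‖ ≤ C ‖v‖` as `E` is finite dimensional).
Induction on `m`: `z = l₀ * θ z'` with `l₀ ∈ H`, `z' ∈ Λ_{m-1}` (`Λ_m = H ⊔ θ Λ_{m-1}`, `A` abelian); `z' = w' x'`,
`x' ∈ H''`; so `z = l₁ * θ w'` with `l₁ = l₀ θ x' ∈ H`. Choose `h ∈ H''` with `‖ι l₁ + ρ(s) ι w' - ι h‖ ≤ R` and
`d = l₁ h⁻¹`: `w = d * θ w'` has `ι w = ι l₁ - ι h + ρ(s) ι w'`, `‖ι w‖ ≤ R`, `‖ι d‖ ≤ R + ‖ρ(s) ι w'‖`,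
`z w⁻¹ = l₁ d⁻¹ = h ∈ H''`. (For `m = 0` the same with `z' = w' = x' = 1`.) Length:
`d_0 s d_1 ⋯ s d_m s^(-m)` has length `≤ (m+1) (|D| + 2)` where `|D|` = maximal `S`-length of `D`.
Finally `x ∈ Lam S L m` is a product of `z_s ∈ Λ_m^{(s)}`, `s ∈ S`; multiply the `w_s`.
-/

set_option autoImplicit false

namespace Pool.Agent.MET90

namespace SweepAux

variable {G : Type} [Group G] {A : Subgroup G} {E : Type} [NormedAddCommGroup E]
  [NormedSpace ℝ E]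

lemma closure_union_split (hcomm : ∀ a ∈ A, ∀ b ∈ A, a * b = b * a) {U V : Set G}
    (hU : U ⊆ A) (hV : V ⊆ A) {x : G} (hx : x ∈ Subgroup.closure (U ∪ V)) :
    ∃ y ∈ Subgroup.closure U, ∃ z ∈ Subgroup.closure V, x = y * z := by
  have hUA : Subgroup.closure U ≤ A := (Subgroup.closure_le A).2 hU
  have hVA : Subgroup.closure V ≤ A := (Subgroup.closure_le A).2 hV
  induction hx using Subgroup.closure_induction with
  | mem x hx =>
    rcases hx with hx | hx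
    · exact ⟨x, Subgroup.subset_closure hx, 1, Subgroup.one_mem _, by simp⟩
    · exact ⟨1, Subgroup.one_mem _, x, Subgroup.subset_closure hx, by simp⟩
  | one => exact ⟨1, Subgroup.one_mem _, 1, Subgroup.one_mem _, by simp⟩
  | mul x x' _ _ ih ih' =>
    obtain ⟨y, hy, z, hz, rfl⟩ := ih
    obtain ⟨y', hy', z', hz', rfl⟩ := ih'
    refine ⟨y * y', Subgroup.mul_mem _ hy hy', z * z', Subgroup.mul_mem _ hz hz', ?_⟩
    have h := hcomm z (hVA hz) y' (hUA hy')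
    calc y * z * (y' * z') = y * (z * y') * z' := by group
      _ = y * (y' * z) * z' := by rw [h]
      _ = y * y' * (z * z') := by group
  | inv x _ ih =>
    obtain ⟨y, hy, z, hz, rfl⟩ := ih
    refine ⟨y⁻¹, Subgroup.inv_mem _ hy, z⁻¹, Subgroup.inv_mem _ hz, ?_⟩
    rw [mul_inv_rev]
    exact hcomm _ (A.inv_mem (hVA hz)) _ (A.inv_mem (hUA hy))

lemma conj_mem (hn : A.Normal) (s : G) {a : G} (ha : a ∈ A) : s * a * s⁻¹ ∈ A :=
  hn.conj_mem a ha s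

lemma gens_subset (hn : A.Normal) (T L : Finset G) (hL : (L : Set G) ⊆ A) (m : ℕ) :
    {x | ∃ s ∈ T, ∃ i ≤ m, ∃ l ∈ L, x = s ^ i * l * (s ^ i)⁻¹} ⊆ (A : Set G) := by
  rintro _ ⟨s, -, i, -, l, hl, rfl⟩
  exact hn.conj_mem l (hL hl) _

lemma lam_le (hn : A.Normal) (T L : Finset G) (hL : (L : Set G) ⊆ A) (m : ℕ) :
    Lam T L m ≤ A := (Subgroup.closure_le A).2 (gens_subset hn T L hL m)

lemma lam_zero (s : G) (L : Finset G) :
    Lam {s} L 0 ≤ Subgroup.closure (L : Set G) := by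
  refine (Subgroup.closure_le _).2 ?_
  rintro _ ⟨t, -, i, hi, l, hl, rfl⟩
  have : i = 0 := by omega
  subst this
  simpa using Subgroup.subset_closure (show l ∈ (L : Set G) from hl)

lemma lam_succ (hcomm : ∀ a ∈ A, ∀ b ∈ A, a * b = b * a) (hn : A.Normal) (s : G) (L : Finset G)
    (hL : (L : Set G) ⊆ A) (m : ℕ) {z : G} (hz : z ∈ Lam {s} L (m + 1)) :
    ∃ l₀ ∈ Subgroup.closure (L : Set G), ∃ z' ∈ Lam {s} L m, z = l₀ * (s * z' * s⁻¹) := by
  have h1 : z ∈ Subgroup.closure ((L : Set G) ∪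
      (MulAut.conj s).toMonoidHom '' {x | ∃ t ∈ ({s} : Finset G), ∃ i ≤ m, ∃ l ∈ L,
        x = t ^ i * l * (t ^ i)⁻¹}) := by
    refine Subgroup.closure_mono ?_ hz
    rintro _ ⟨t, ht, i, hi, l, hl, rfl⟩
    rw [Finset.mem_singleton] at ht
    subst ht
    rcases i with _ | i
    · left
      simpa using hl
    · right
      refine ⟨t ^ i * l * (t ^ i)⁻¹, ⟨t, Finset.mem_singleton_self t, i, by omega, l, hl, rfl⟩, ?_⟩
      show t * (t ^ i * l * (t ^ i)⁻¹) * t⁻¹ = _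
      rw [pow_succ']
      group
  obtain ⟨y, hy, x, hx, rfl⟩ := closure_union_split hcomm hL (by
    rintro _ ⟨x, hx, rfl⟩
    exact conj_mem hn s (gens_subset hn {s} L hL m hx)) h1
  rw [← MonoidHom.map_closure] at hx
  obtain ⟨z', hz', rfl⟩ := hx
  exact ⟨y, hy, z', hz', rfl⟩

lemma one_var [FiniteDimensional ℝ E] {S : Finset G} (hs : Setup S A) (M : Model A E)
    (L : Finset G) (hL : (L : Set G) ⊆ A)
    (hrad : ∀ a ∈ A, ∃ k : ℕ, 0 < k ∧ a ^ k ∈ Subgroup.closure (L : Set G)) (s : G)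
    (hsS : s ∈ S) :
    ∃ C : ℕ, ∀ m : ℕ, ∀ x ∈ Lam {s} L m, ∃ w ∈ A, w ∈ WB (S : Set G) (C * (m + 1)) ∧
      ‖M.ι w‖ ≤ C ∧ x * w⁻¹ ∈ Subgroup.closure (L : Set G) := by
  have hcomm := hs.comm
  have hn := hs.normal
  have hHA : Subgroup.closure (L : Set G) ≤ A := (Subgroup.closure_le A).2 hL
  set H := Subgroup.closure (L : Set G) with hH
  set H' : Subgroup G := H ⊓ H.comap (MulAut.conj s).toMonoidHom with hH'
  have hH'm : ∀ x, x ∈ H' ↔ x ∈ H ∧ s * x * s⁻¹ ∈ H := by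
    intro x
    rw [hH', Subgroup.mem_inf, Subgroup.mem_comap]
    rfl
  have hH'A : H' ≤ A := inf_le_left.trans hHA
  have hrad' : ∀ a ∈ A, ∃ k : ℕ, 0 < k ∧ a ^ k ∈ H' := by
    intro a ha
    obtain ⟨k, hk, hk1⟩ := hrad a ha
    obtain ⟨k', hk', hk1'⟩ := hrad (s * a * s⁻¹) (conj_mem hn s ha)
    refine ⟨k * k', Nat.mul_pos hk hk', (hH'm _).2 ⟨?_, ?_⟩⟩
    · rw [pow_mul]
      exact H.pow_mem hk1 _
    · rw [← conj_pow, mul_comm k k', pow_mul]
      exact H.pow_mem hk1' _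
  obtain ⟨R, hR0, hR⟩ := cover M H' hH'A (span_of_rad M H' hH'A hrad')
  obtain ⟨K, hK0, hK⟩ : ∃ K : ℝ, 0 ≤ K ∧ ∀ v : E, ‖M.ρ s v‖ ≤ K * ‖v‖ :=
    ⟨‖LinearMap.toContinuousLinearMap (M.ρ s)‖, norm_nonneg _, fun v =>
      (LinearMap.toContinuousLinearMap (M.ρ s)).le_opNorm v⟩
  obtain ⟨nD, hnD⟩ := exists_WB_of_finite hs.gen _ (M.fin L hL (R + K * R))
  have key : ∀ m : ℕ, ∀ z ∈ Lam {s} L m, ∃ w ∈ A,
      w * s ^ m ∈ WB (S : Set G) ((m + 1) * (nD + 1)) ∧ ‖M.ι w‖ ≤ R ∧ z * w⁻¹ ∈ H' := by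
    intro m
    induction m with
    | zero =>
      intro z hz
      have hzH := lam_zero s L hz
      obtain ⟨h, hh, hhR⟩ := hR (M.ι z)
      have hhA := hH'A hh
      have hzA := hHA hzH
      have hι : M.ι (z * h⁻¹) = M.ι z - M.ι h := by
        rw [M.ι_mul z hzA _ (A.inv_mem hhA), M.ι_inv hhA, sub_eq_add_neg]
      refine ⟨z * h⁻¹, A.mul_mem hzA (A.inv_mem hhA), ?_, by rw [hι]; exact hhR, ?_⟩
      · rw [pow_zero, mul_one]
        refine WB_mono _ (by omega) (hnD (show z * h⁻¹ ∈ _ from ⟨?_, ?_⟩))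
        · exact Subgroup.mul_mem _ hzH (Subgroup.inv_mem _ (inf_le_left (a := H) hh))
        · rw [hι]
          exact hhR.trans (le_add_of_nonneg_right (mul_nonneg hK0 hR0))
      · have e : z * (z * h⁻¹)⁻¹ = h := by
          rw [mul_inv_rev, inv_inv, hcomm h hhA _ (A.inv_mem hzA)]
          group
        rw [e]
        exact hh
    | succ m ih =>
      intro z hz
      obtain ⟨l₀, hl₀, z', hz', rfl⟩ := lam_succ hcomm hn s L hL m hz
      obtain ⟨w', hw'A, hw'1, hw'2, hw'3⟩ := ih z' hz'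
      have hx'A := hH'A hw'3
      obtain ⟨hx'1, hx'2⟩ := (hH'm _).1 hw'3
      have hz'A := lam_le hn {s} L hL m hz'
      set l₁ : G := l₀ * (s * (z' * w'⁻¹) * s⁻¹) with hl₁
      have hl₁H : l₁ ∈ H := H.mul_mem hl₀ hx'2
      have hl₁A := hHA hl₁H
      have hθw : s * w' * s⁻¹ ∈ A := conj_mem hn s hw'A
      have hz1 : l₀ * (s * z' * s⁻¹) = l₁ * (s * w' * s⁻¹) := by
        rw [hl₁]
        group
      obtain ⟨h, hh, hhR⟩ := hR (M.ι l₁ + M.ρ s (M.ι w'))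
      have hhA := hH'A hh
      have hιd : M.ι (l₁ * h⁻¹) = M.ι l₁ - M.ι h := by
        rw [M.ι_mul l₁ hl₁A _ (A.inv_mem hhA), M.ι_inv hhA, sub_eq_add_neg]
      have hdA : l₁ * h⁻¹ ∈ A := A.mul_mem hl₁A (A.inv_mem hhA)
      have hιw : M.ι (l₁ * h⁻¹ * (s * w' * s⁻¹)) = M.ι l₁ + M.ρ s (M.ι w') - M.ι h := by
        rw [M.ι_mul _ hdA _ hθw, hιd, M.ι_conj s w' hw'A]
        abel
      refine ⟨l₁ * h⁻¹ * (s * w' * s⁻¹), A.mul_mem hdA hθw, ?_, by rw [hιw]; exact hhR, ?_⟩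
      · have e1 : l₁ * h⁻¹ * (s * w' * s⁻¹) * s ^ (m + 1) = l₁ * h⁻¹ * s * (w' * s ^ m) := by
          rw [pow_succ']
          group
        rw [e1]
        have hd : l₁ * h⁻¹ ∈ WB (S : Set G) nD := by
          refine hnD ⟨Subgroup.mul_mem _ hl₁H (Subgroup.inv_mem _ (inf_le_left (a := H) hh)), ?_⟩
          have e2 : M.ι (l₁ * h⁻¹) = (M.ι l₁ + M.ρ s (M.ι w') - M.ι h) - M.ρ s (M.ι w') := by
            rw [hιd]; abel
          rw [e2]
          refine (norm_sub_le _ _).trans (add_le_add hhR ((hK _).trans ?_))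
          exact mul_le_mul_of_nonneg_left hw'2 hK0
        have := mul_mem_WB (mul_mem_WB hd (mem_WB_one (S := (S : Set G)) hsS)) hw'1
        refine WB_mono _ (le_of_eq ?_) this
        ring
      · rw [hz1]
        have e : l₁ * (s * w' * s⁻¹) * (l₁ * h⁻¹ * (s * w' * s⁻¹))⁻¹ = h := by
          have e3 : l₁ * (s * w' * s⁻¹) * (l₁ * h⁻¹ * (s * w' * s⁻¹))⁻¹ = l₁ * (h * l₁⁻¹) := by
            group
          rw [e3, hcomm h hhA _ (A.inv_mem hl₁A)]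
          group
        rw [e]
        exact hh
  obtain ⟨C, hC⟩ := exists_nat_ge (max R (nD + 2))
  refine ⟨C, fun m x hx => ?_⟩
  obtain ⟨w, hwA, hw1, hw2, hw3⟩ := key m x hx
  refine ⟨w, hwA, ?_, hw2.trans ((le_max_left _ _).trans hC), inf_le_left (a := H) hw3⟩
  have h1 : w = w * s ^ m * (s ^ m)⁻¹ := by group
  rw [h1]
  have h2 := mul_mem_WB hw1 (inv_mem_WB (pow_mem_WB (mem_WB_one (S := (S : Set G)) hsS) m))
  refine WB_mono _ ?_ h2
  have h3 : nD + 2 ≤ C := by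
    have : ((nD + 2 : ℕ) : ℝ) ≤ C := by
      push_cast
      exact (le_max_right _ _).trans hC
    exact_mod_cast this
  nlinarith

end SweepAux

open SweepAux in
theorem sweep {G : Type} [Group G] {S : Finset G} {A : Subgroup G} {E : Type}
    [NormedAddCommGroup E] [NormedSpace ℝ E] [FiniteDimensional ℝ E] (hs : Setup S A)
    (M : Model A E) (L : Finset G) (hL : (L : Set G) ⊆ A)
    (hrad : ∀ a ∈ A, ∃ k : ℕ, 0 < k ∧ a ^ k ∈ Subgroup.closure (L : Set G)) :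
    ∃ C : ℕ, ∀ m : ℕ, ∀ x ∈ Lam S L m, ∃ w ∈ A, w ∈ WB (S : Set G) (C * (m + 1)) ∧
      ‖M.ι w‖ ≤ C ∧ x * w⁻¹ ∈ Subgroup.closure (L : Set G) := by
  classical
  have hcomm := hs.comm
  have hn := hs.normal
  have hHA : Subgroup.closure (L : Set G) ≤ A := (Subgroup.closure_le A).2 hL
  have main : ∀ T : Finset G, T ⊆ S → ∃ C : ℕ, ∀ m : ℕ, ∀ x ∈ Lam T L m, ∃ w ∈ A,
      w ∈ WB (S : Set G) (C * (m + 1)) ∧ ‖M.ι w‖ ≤ C ∧
        x * w⁻¹ ∈ Subgroup.closure (L : Set G) := by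
    intro T
    induction T using Finset.induction_on with
    | empty =>
      intro _
      refine ⟨0, fun m x hx => ⟨1, A.one_mem, one_mem_WB _ _, ?_, ?_⟩⟩
      · rw [M.ι_one]; simp
      · have : x = 1 := by
          have h1 : {x : G | ∃ s ∈ (∅ : Finset G), ∃ i ≤ m, ∃ l ∈ L, x = s ^ i * l * (s ^ i)⁻¹}
              = ∅ := by
            ext x
            simp
          unfold Lam at hx
          rw [h1, Subgroup.closure_empty, Subgroup.mem_bot] at hx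
          exact hx
        rw [this]
        simp
    | insert s T _ ih =>
      intro hT
      obtain ⟨C₁, hC₁⟩ := ih ((Finset.subset_insert s T).trans hT)
      obtain ⟨C₂, hC₂⟩ := one_var hs M L hL hrad s (hT (Finset.mem_insert_self s T))
      refine ⟨C₂ + C₁, fun m x hx => ?_⟩
      have h1 : x ∈ Subgroup.closure
          ({x | ∃ t ∈ ({s} : Finset G), ∃ i ≤ m, ∃ l ∈ L, x = t ^ i * l * (t ^ i)⁻¹} ∪
            {x | ∃ t ∈ T, ∃ i ≤ m, ∃ l ∈ L, x = t ^ i * l * (t ^ i)⁻¹}) := by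
        refine Subgroup.closure_mono ?_ hx
        rintro _ ⟨t, ht, i, hi, l, hl, rfl⟩
        rcases Finset.mem_insert.1 ht with rfl | ht
        · left
          exact ⟨t, Finset.mem_singleton_self t, i, hi, l, hl, rfl⟩
        · right
          exact ⟨t, ht, i, hi, l, hl, rfl⟩
      obtain ⟨y, hy, z, hz, rfl⟩ := closure_union_split hcomm (gens_subset hn {s} L hL m)
        (gens_subset hn T L hL m) h1
      obtain ⟨w₁, hw₁A, hw₁1, hw₁2, hw₁3⟩ := hC₁ m z hz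
      obtain ⟨w₂, hw₂A, hw₂1, hw₂2, hw₂3⟩ := hC₂ m y hy
      have hyA := lam_le hn {s} L hL m hy
      have hzA := lam_le hn T L hL m hz
      refine ⟨w₂ * w₁, A.mul_mem hw₂A hw₁A, ?_, ?_, ?_⟩
      · rw [Nat.add_mul]
        exact mul_mem_WB hw₂1 hw₁1
      · rw [M.ι_mul _ hw₂A _ hw₁A]
        push_cast
        exact (norm_add_le _ _).trans (add_le_add hw₂2 hw₁2)
      · have e : y * z * (w₂ * w₁)⁻¹ = (y * w₂⁻¹) * (z * w₁⁻¹) := by
          rw [mul_inv_rev]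
          have e1 := hcomm (z * w₁⁻¹) (A.mul_mem hzA (A.inv_mem hw₁A)) w₂⁻¹ (A.inv_mem hw₂A)
          calc y * z * (w₁⁻¹ * w₂⁻¹) = y * (z * w₁⁻¹ * w₂⁻¹) := by group
            _ = y * (w₂⁻¹ * (z * w₁⁻¹)) := by rw [e1]
            _ = (y * w₂⁻¹) * (z * w₁⁻¹) := by group
        rw [e]
        exact Subgroup.mul_mem _ hw₂3 hw₁3
  exact main S (Finset.Subset.refl S)

end Pool.Agent.MET90
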